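import Pool.Agent.H47.K3.Defs

/-!
# Kernel checker with three packed variables: fast version

The variable `t` is the innermost one: `T = 2^b`, `Y = 2^(b (dt+1))`, `X = 2^(b (dt+1) (dy+1))`.
The absolute values of all balanced digits are obtained at once by bit operations (`absN`), weighted
sums of them by residues (`r1`: value, `r2`: second Taylor coefficient).  The part `U` of a zone with
the variable `t` is common to several zones, so that the kernel evaluates the symbols only once.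
-/

set_option autoImplicit false

namespace Pool.H47.K3

open Pool.H47.Kc

/-- variable `t` of a zone, number of bits -/
structure U3 where
  eT : Nat
  tc : Nat
  st : Nat
  nT : Nat
  b : Nat

/-- variables `x`, `y` of a zone -/
structure V3 where
  eX : Nat
  eY : Nat
  xc : Nat
  yc : Nat
  sx : Nat
  sy : Nat
  nX : Nat
  nY : Nat

def zz (U : U3) (V : V3) : Z3 :=
  ⟨U.eT, V.eX, V.eY, U.tc, V.xc, V.yc, U.st, V.sx, V.sy, U.nT, V.nX, V.nY, U.b⟩

noncomputable def mj2 (U : U3) (V : V3) (S : Nat → Sym) : Alg Mj :=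
  mjAlg2 (fun i => horner2 (mjAlg2 (fun _ => ⟨0, 0⟩) ⟨0, 0⟩ ⟨0, 0⟩)
      ⟨Nat.add U.tc (mx (Nat.mul U.st U.nT) 1), U.eT⟩ (S i).p)
    ⟨Nat.add V.xc (mx (Nat.mul V.sx V.nX) 1), V.eX⟩
    ⟨Nat.add V.yc (mx (Nat.mul V.sy V.nY) 1), V.eY⟩

noncomputable def er2 (U : U3) (V : V3) (S : Nat → Sym) : Alg Er :=
  erAlg (fun i => ⟨Nat.add (horner2 abAlg
      (Nat.succ (Nat.shiftRight (Nat.mul (Nat.add U.tc (Nat.mul U.st U.nT)) s60) U.eT))
      (S i).p) (S i).eps, (S i).eps⟩)
    (erc (Nat.add V.xc (Nat.mul V.sx V.nX)) V.eX)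
    (erc (Nat.add V.yc (Nat.mul V.sy V.nY)) V.eY)

/-- packed evaluation -/
noncomputable def pk2 (U : U3) (V : V3) (S : Nat → Sym) (g : Dg) : Alg Fx :=
  fxAlg2 (fun i => pkh U.tc U.eT U.b (S i).p)
    ⟨Int.ofNat (Nat.add V.xc
      (Nat.pow 2 (Nat.mul (Nat.mul U.b (Nat.succ g.t)) (Nat.succ g.y)))), V.eX⟩
    ⟨Int.ofNat (Nat.add V.yc (Nat.pow 2 (Nat.mul U.b (Nat.succ g.t)))), V.eY⟩

/-- `Σ |a_i| 2^(b i)` for `N = Σ a_i 2^(b i)`, `|a_i| < 2^(b-1)`, `i < n`.  With `G = Σ 2^(b i)`,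
`P = N + 2^(b-1) G` (digits `a_i + 2^(b-1)`), `M = Σ_(a_i < 0) 2^(b i)` the sum is
`P + 2^b M - 2^(b-1) G - 2 (P land (2^b - 1) M)`. -/
noncomputable def absN (b n : Nat) (N : Int) : Nat :=
  (fun G : Nat => (fun P : Nat => (fun M : Nat =>
      Nat.sub (Nat.add P (Nat.shiftLeft M b))
        (Nat.add (Nat.shiftLeft G (Nat.sub b 1))
          (Nat.mul 2 (Nat.land P (Nat.sub (Nat.shiftLeft M b) M)))))
      (Nat.sub G (Nat.shiftRight (Nat.land P (Nat.shiftLeft G (Nat.sub b 1))) (Nat.sub b 1))))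
    (iabs (iadd N (Int.ofNat (Nat.shiftLeft G (Nat.sub b 1))))))
  (Nat.div (Nat.sub (Nat.pow 2 (Nat.mul b n)) 1) (Nat.sub (Nat.pow 2 b) 1))

/-- value of a polynomial with nonnegative coefficients at `R`, from the value at `m + R` -/
def r1 (m N : Nat) : Nat := Nat.mod N m

/-- second Taylor coefficient at `R`, from the value at `m + R` -/
def r2 (m N : Nat) : Nat := Nat.div (Nat.mod N (Nat.mul m (Nat.mul m m))) (Nat.mul m m)

/-- the packing is large enough -/
def big2 (U : U3) (V : V3) (g : Dg) (H : Nat) : Bool :=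
  Nat.ble (Nat.add
      (Nat.mul (Nat.add (Nat.add (Nat.mul g.t g.t) (Nat.mul g.x g.x)) (Nat.add (Nat.mul g.y g.y) 2)) H)
      (Nat.add (Nat.add (Nat.mul U.st U.nT) (Nat.mul V.sx V.nX)) (Nat.add (Nat.mul V.sy V.nY) 2)))
    (Nat.pow 2 U.b)

/-- moduli -/
def mT (U : U3) : Nat := Nat.sub (Nat.pow 2 U.b) (Nat.mul U.st U.nT)
def mY (U : U3) (V : V3) (g : Dg) : Nat :=
  Nat.sub (Nat.pow 2 (Nat.mul U.b (Nat.succ g.t))) (Nat.mul V.sy V.nY)
def mX (U : U3) (V : V3) (g : Dg) : Nat :=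
  Nat.sub (Nat.pow 2 (Nat.mul (Nat.mul U.b (Nat.succ g.t)) (Nat.succ g.y))) (Nat.mul V.sx V.nX)

/-- number of digits -/
def nd (g : Dg) : Nat := Nat.mul (Nat.mul (Nat.succ g.t) (Nat.succ g.y)) (Nat.succ g.x)

/-- bound of the interpolation error -/
noncomputable def gap3 (U : U3) (V : V3) (g : Dg) (A : Nat) : Nat :=
  Nat.succ (Nat.shiftRight (Nat.add (Nat.add
    (Nat.mul (Nat.mul U.st U.st) (r2 (mT U) (r1 (mY U V g) (r1 (mX U V g) A))))
    (Nat.mul (Nat.mul V.sx V.sx) (r1 (mT U) (r1 (mY U V g) (r2 (mX U V g) A)))))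
    (Nat.mul (Nat.mul V.sy V.sy) (r1 (mT U) (r2 (mY U V g) (r1 (mX U V g) A))))) 2)

/-- one output: all values on the zone are at least `d / 2^60` -/
noncomputable def posV1 (U : U3) (V : V3) (r : Fx) (h : Mj) (g : Dg) (d : Nat) : Bool :=
  cond (cond (big2 U V g h.n) (Nat.beq r.e h.e) false)
    (grid (Pk.mk' U.b h.n ⟨g.x, g.y, g.t⟩) V.sx V.sy U.st V.nX V.nY U.nT
      (Nat.add (toE d h.e) (gap3 U V g (absN U.b (nd g) r.n))) (isNeg r.n) (iabs r.n))
    false

/-- one output: all absolute values on the zone are at most `B / 2^60` -/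
noncomputable def normV1 (U : U3) (V : V3) (r : Fx) (h : Mj) (g : Dg) (d B : Nat) : Bool :=
  cond (cond (big2 U V g h.n) (Nat.beq r.e h.e) false)
    (Nat.ble (Nat.add (Nat.mul d (Nat.pow 2 h.e))
        (Nat.mul (r1 (mT U) (r1 (mY U V g) (r1 (mX U V g) (absN U.b (nd g) r.n)))) s60))
      (Nat.mul B (Nat.pow 2 h.e)))
    false

/-- outputs `k ∈ l` are nonnegative on the zone -/
noncomputable def posV (U : U3) (S : Nat → Sym) (Q : Prg) (g : Dg) (l : List Nat) (V : V3) : Bool :=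
  List.rec (motive := fun _ => Bool) true
    (fun k _ ih => cond (cond ((Q.val (dgAlg S) k).le g)
      (posV1 U V (Q.val (pk2 U V S g) k) (Q.val (mj2 U V S) k) g (Q.val (er2 U V S) k).d) false)
      ih false) l

/-- the same for exact symbols (`eps` is not used) -/
noncomputable def posVE (U : U3) (S : Nat → Sym) (Q : Prg) (g : Dg) (l : List Nat) (V : V3) :
    Bool :=
  List.rec (motive := fun _ => Bool) true
    (fun k _ ih => cond (cond ((Q.val (dgAlg S) k).le g)
      (posV1 U V (Q.val (pk2 U V S g) k) (Q.val (mj2 U V S) k) g 0) false) ih false) l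

/-- outputs `k` are at most `B / 2^60` in absolute value, `(k, B) ∈ l` -/
noncomputable def normV (U : U3) (S : Nat → Sym) (Q : Prg) (g : Dg) (l : List (Nat × Nat)) (V : V3) :
    Bool :=
  List.rec (motive := fun _ => Bool) true
    (fun k _ ih => cond (cond ((Q.val (dgAlg S) k.1).le g)
      (normV1 U V (Q.val (pk2 U V S g) k.1) (Q.val (mj2 U V S) k.1) g (Q.val (er2 U V S) k.1).d k.2)
      false) ih false) l

/-- all zones of a list -/
noncomputable def allV (f : V3 → Bool) (L : List V3) : Bool :=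
  List.rec (motive := fun _ => Bool) true (fun V _ ih => cond (f V) ih false) L

end Pool.H47.K3
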