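import Pool.Agent.H47.K3.Ev
import Pool.Agent.H47.K3.Fast

/-! # Abs: absolute values of all balanced digits by bit operations

`absN_eq`: with `B = 2^b`, `G = Σ_(i<n) B^i = (B^n - 1) / (B - 1)`, the number `P = N + 2^(b-1) G` is
nonnegative with the digits `a_i + 2^(b-1) < B`; `land` acts on the digits (induction on `n`:
`(d + B u) land (e + B v) = (d land e) + B (u land v)` for `d, e < B`; `Nat.and_div_two_pow`,
`Nat.and_mod_two_pow` or similar); `d land 2^(b-1)` is `2^(b-1)` iff `2^(b-1) ≤ d` (`d < 2^b`), so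
`M = Σ_(a_i < 0) B^i`; `P land (B - 1) M = Σ_(a_i<0) (a_i + 2^(b-1)) B^i`.  `absN_ev`: the packed number
has the digits `a i j k` at the position `i + (g.t+1) (k + (g.y+1) j)`. -/

set_option autoImplicit false

namespace Pool.H47.K3

open Pool.H47.Kc Finset

private theorem Abs_land_split (b x y : ℕ) :
    x &&& y = (x % 2 ^ b &&& y % 2 ^ b) + 2 ^ b * ((x / 2 ^ b) &&& (y / 2 ^ b)) := by
  rw [← Nat.and_mod_two_pow, ← Nat.and_div_two_pow, Nat.mod_add_div]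

private theorem Abs_sum_succ (B : ℕ) (n : ℕ) (d : ℕ → ℕ) :
    ∑ i ∈ range (n + 1), d i * B ^ i = d 0 + B * ∑ i ∈ range n, d (i + 1) * B ^ i := by
  rw [sum_range_succ', mul_sum, pow_zero, mul_one, add_comm]
  congr 1
  refine sum_congr rfl fun i _ => ?_
  ring

private theorem Abs_land_sum (b : ℕ) : ∀ (n : ℕ) (d e : ℕ → ℕ), (∀ i < n, d i < 2 ^ b) →
    (∀ i < n, e i < 2 ^ b) →
    (∑ i ∈ range n, d i * (2 ^ b) ^ i) &&& (∑ i ∈ range n, e i * (2 ^ b) ^ i) =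
      ∑ i ∈ range n, (d i &&& e i) * (2 ^ b) ^ i := by
  intro n
  induction n with
  | zero => intro d e _ _; simp
  | succ n ih =>
    intro d e hd he
    have h0 : 0 < 2 ^ b := Nat.two_pow_pos b
    rw [Abs_sum_succ, Abs_sum_succ, Abs_sum_succ, Abs_land_split b,
      Nat.add_mul_mod_self_left, Nat.add_mul_mod_self_left, Nat.mod_eq_of_lt (hd 0 (Nat.succ_pos n)),
      Nat.mod_eq_of_lt (he 0 (Nat.succ_pos n)), Nat.add_mul_div_left _ _ h0,
      Nat.add_mul_div_left _ _ h0, Nat.div_eq_of_lt (hd 0 (Nat.succ_pos n)),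
      Nat.div_eq_of_lt (he 0 (Nat.succ_pos n)), Nat.zero_add, Nat.zero_add,
      ih (fun i => d (i + 1)) (fun i => e (i + 1)) (fun i hi => hd (i + 1) (Nat.succ_lt_succ hi))
        (fun i hi => he (i + 1) (Nat.succ_lt_succ hi))]

private theorem Abs_land_half (b p : ℕ) (hb0 : 0 < b) (hp : p < 2 ^ b) :
    p &&& 2 ^ (b - 1) = (if p < 2 ^ (b - 1) then 0 else 1) * 2 ^ (b - 1) := by
  have h0 : 0 < 2 ^ (b - 1) := Nat.two_pow_pos _
  have h2 : 2 ^ b = 2 * 2 ^ (b - 1) := by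
    rw [← pow_succ']
    congr 1
    omega
  rw [Nat.and_two_pow]
  congr 1
  split_ifs with h
  · rw [Nat.testBit_lt_two_pow h]
    rfl
  · have h1 : p / 2 ^ (b - 1) = 1 := by
      rw [Nat.div_eq_iff h0]
      omega
    rw [Nat.testBit_eq_decide_div_mod_eq, h1]
    rfl

theorem absN_eq (b n H : ℕ) (hb0 : 0 < b) (hb : 2 * H < 2 ^ b) (a : ℕ → ℤ)
    (ha : ∀ i < n, (a i).natAbs ≤ H) :
    absN b n (∑ i ∈ range n, a i * (2 ^ b) ^ i) = ∑ i ∈ range n, (a i).natAbs * (2 ^ b) ^ i := by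
  have h0 : 0 < 2 ^ (b - 1) := Nat.two_pow_pos _
  have h2 : 2 ^ b = 2 * 2 ^ (b - 1) := by
    rw [← pow_succ']
    congr 1
    omega
  have hp1 : ∀ i < n, (((a i + (2 ^ (b - 1) : ℕ)).toNat : ℕ) : ℤ) = a i + (2 ^ (b - 1) : ℕ) := by
    intro i hi
    have := ha i hi
    omega
  have hp2 : ∀ i < n, (a i + (2 ^ (b - 1) : ℕ)).toNat < 2 ^ b := by
    intro i hi
    have := ha i hi
    omega
  have hG : Nat.div (Nat.sub (Nat.pow 2 (Nat.mul b n)) 1) (Nat.sub (Nat.pow 2 b) 1) =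
      ∑ i ∈ range n, (2 ^ b) ^ i := by
    rw [Nat.geomSum_eq (by omega)]
    show (2 ^ (b * n) - 1) / (2 ^ b - 1) = _
    rw [pow_mul]
  have hGh : Nat.shiftLeft (∑ i ∈ range n, (2 ^ b) ^ i) (Nat.sub b 1) =
      ∑ i ∈ range n, 2 ^ (b - 1) * (2 ^ b) ^ i := by
    show (∑ i ∈ range n, (2 ^ b) ^ i) <<< (b - 1) = _
    rw [Nat.shiftLeft_eq, mul_comm, mul_sum]
  have hP : iabs (iadd (∑ i ∈ range n, a i * (2 ^ b) ^ i)
      (Int.ofNat (∑ i ∈ range n, 2 ^ (b - 1) * (2 ^ b) ^ i))) =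
      ∑ i ∈ range n, (a i + (2 ^ (b - 1) : ℕ)).toNat * (2 ^ b) ^ i := by
    rw [iabs_eq, iadd_eq]
    have : (∑ i ∈ range n, a i * (2 ^ b) ^ i) + Int.ofNat (∑ i ∈ range n, 2 ^ (b - 1) * (2 ^ b) ^ i) =
        ((∑ i ∈ range n, (a i + (2 ^ (b - 1) : ℕ)).toNat * (2 ^ b) ^ i : ℕ) : ℤ) := by
      rw [Int.ofNat_eq_natCast, Nat.cast_sum, Nat.cast_sum, ← sum_add_distrib]
      refine sum_congr rfl fun i hi => ?_
      rw [Nat.cast_mul, Nat.cast_mul, hp1 i (mem_range.1 hi)]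
      push_cast
      ring
    rw [this, Int.natAbs_natCast]
  have hL : Nat.land (∑ i ∈ range n, (a i + (2 ^ (b - 1) : ℕ)).toNat * (2 ^ b) ^ i)
      (∑ i ∈ range n, 2 ^ (b - 1) * (2 ^ b) ^ i) =
      (∑ i ∈ range n, (if a i < 0 then 0 else 1) * (2 ^ b) ^ i) * 2 ^ (b - 1) := by
    have h3 := Abs_land_sum b n (fun i => (a i + (2 ^ (b - 1) : ℕ)).toNat) (fun _ => 2 ^ (b - 1))
      hp2 (fun i _ => by omega)
    refine h3.trans ?_
    rw [sum_mul]
    refine sum_congr rfl fun i hi => ?_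
    have hi' := mem_range.1 hi
    rw [Abs_land_half b _ hb0 (hp2 i hi')]
    have h4 : ((a i + (2 ^ (b - 1) : ℕ)).toNat < 2 ^ (b - 1)) ↔ a i < 0 := by
      have := hp1 i hi'
      omega
    simp only [h4]
    ring
  have hM : Nat.sub (∑ i ∈ range n, (2 ^ b) ^ i) (Nat.shiftRight
      ((∑ i ∈ range n, (if a i < 0 then 0 else 1) * (2 ^ b) ^ i) * 2 ^ (b - 1)) (Nat.sub b 1)) =
      ∑ i ∈ range n, (if a i < 0 then 1 else 0) * (2 ^ b) ^ i := by
    have h5 : Nat.shiftRight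
      ((∑ i ∈ range n, (if a i < 0 then 0 else 1) * (2 ^ b) ^ i) * 2 ^ (b - 1)) (Nat.sub b 1) =
        ∑ i ∈ range n, (if a i < 0 then 0 else 1) * (2 ^ b) ^ i := by
      show ((∑ i ∈ range n, (if a i < 0 then 0 else 1) * (2 ^ b) ^ i) * 2 ^ (b - 1)) >>> (b - 1) = _
      rw [Nat.shiftRight_eq_div_pow, Nat.mul_div_cancel _ h0]
    rw [h5]
    show (∑ i ∈ range n, (2 ^ b) ^ i) - _ = _
    apply Nat.sub_eq_of_eq_add
    rw [← sum_add_distrib]
    refine sum_congr rfl fun i _ => ?_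
    split_ifs <;> ring
  have hN : Nat.land (∑ i ∈ range n, (a i + (2 ^ (b - 1) : ℕ)).toNat * (2 ^ b) ^ i)
      (Nat.sub (Nat.shiftLeft (∑ i ∈ range n, (if a i < 0 then 1 else 0) * (2 ^ b) ^ i) b)
        (∑ i ∈ range n, (if a i < 0 then 1 else 0) * (2 ^ b) ^ i)) =
      ∑ i ∈ range n, (if a i < 0 then (a i + (2 ^ (b - 1) : ℕ)).toNat else 0) * (2 ^ b) ^ i := by
    have h6 : Nat.sub (Nat.shiftLeft (∑ i ∈ range n, (if a i < 0 then 1 else 0) * (2 ^ b) ^ i) b)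
        (∑ i ∈ range n, (if a i < 0 then 1 else 0) * (2 ^ b) ^ i) =
        ∑ i ∈ range n, (if a i < 0 then 2 ^ b - 1 else 0) * (2 ^ b) ^ i := by
      show (∑ i ∈ range n, (if a i < 0 then 1 else 0) * (2 ^ b) ^ i) <<< b - _ = _
      rw [Nat.shiftLeft_eq]
      apply Nat.sub_eq_of_eq_add
      rw [← sum_add_distrib, sum_mul]
      refine sum_congr rfl fun i _ => ?_
      have h7 : 2 ^ b - 1 + 1 = 2 ^ b := by omega
      split_ifs
      · calc 1 * (2 ^ b) ^ i * 2 ^ b = (2 ^ b - 1 + 1) * (2 ^ b) ^ i := by rw [h7]; ring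
          _ = (2 ^ b - 1) * (2 ^ b) ^ i + 1 * (2 ^ b) ^ i := by ring
      · ring
    rw [h6]
    have h3 := Abs_land_sum b n (fun i => (a i + (2 ^ (b - 1) : ℕ)).toNat)
      (fun i => if a i < 0 then 2 ^ b - 1 else 0) hp2
      (fun i _ => by split_ifs <;> omega)
    refine h3.trans ?_
    refine sum_congr rfl fun i hi => ?_
    have hi' := mem_range.1 hi
    congr 1
    split_ifs
    · rw [Nat.and_two_pow_sub_one_eq_mod, Nat.mod_eq_of_lt (hp2 i hi')]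
    · exact Nat.and_zero _
  unfold absN
  dsimp only
  rw [hG, hGh, hP, hL, hM, hN]
  show _ + _ <<< b - _ = _
  rw [Nat.shiftLeft_eq]
  apply Nat.sub_eq_of_eq_add
  show _ = _ + (_ + 2 * _)
  rw [mul_sum, sum_mul, ← sum_add_distrib, ← sum_add_distrib, ← sum_add_distrib]
  refine sum_congr rfl fun i hi => ?_
  have hi' := mem_range.1 hi
  have h8 : (a i + (2 ^ (b - 1) : ℕ)).toNat + (if a i < 0 then 1 else 0) * 2 ^ b =
      (a i).natAbs + (2 ^ (b - 1) + 2 * (if a i < 0 then (a i + (2 ^ (b - 1) : ℕ)).toNat else 0)) := by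
    have h9 := hp1 i hi'
    split_ifs with h
    · omega
    · omega
  calc _ = ((a i + (2 ^ (b - 1) : ℕ)).toNat + (if a i < 0 then 1 else 0) * 2 ^ b) * (2 ^ b) ^ i := by
        ring
    _ = _ := by rw [h8]; ring

private theorem Abs_sum_mul {M : Type} [AddCommMonoid M] (f : ℕ → M) (n1 n2 : ℕ) :
    ∑ m ∈ range (n1 * n2), f m = ∑ q ∈ range n2, ∑ r ∈ range n1, f (r + n1 * q) := by
  induction n2 with
  | zero => simp
  | succ n2 ih =>
    rw [Nat.mul_succ, sum_range_add, ih, sum_range_succ]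
    congr 1
    refine sum_congr rfl fun r _ => ?_
    rw [add_comm]

private theorem Abs_sum3 {M : Type} [AddCommMonoid M] (g : Dg) (f : ℕ → M) :
    ∑ m ∈ range (nd g), f m =
      ∑ i ∈ range (g.t + 1), ∑ j ∈ range (g.x + 1), ∑ k ∈ range (g.y + 1),
        f (i + (g.t + 1) * (k + (g.y + 1) * j)) := by
  have h1 : nd g = (g.t + 1) * ((g.y + 1) * (g.x + 1)) := by
    show (g.t + 1) * (g.y + 1) * (g.x + 1) = _
    rw [mul_assoc]
  rw [h1, Abs_sum_mul, Abs_sum_mul (fun q => ∑ r ∈ range (g.t + 1), f (r + (g.t + 1) * q))]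
  rw [sum_comm' (s := range (g.t + 1)) (t := fun _ => range (g.x + 1)) (t' := range (g.x + 1))
    (s' := fun _ => range (g.t + 1)) (by intro x y; tauto)]
  refine sum_congr rfl fun j _ => ?_
  rw [sum_comm]

private def Abs_dig (g : Dg) (a : ℕ → ℕ → ℕ → ℤ) (m : ℕ) : ℤ :=
  a (m % (g.t + 1)) (m / (g.t + 1) / (g.y + 1)) (m / (g.t + 1) % (g.y + 1))

private theorem Abs_dig_eq (g : Dg) (a : ℕ → ℕ → ℕ → ℤ) (i j k : ℕ) (hi : i < g.t + 1)
    (hk : k < g.y + 1) : Abs_dig g a (i + (g.t + 1) * (k + (g.y + 1) * j)) = a i j k := by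
  unfold Abs_dig
  rw [Nat.add_mul_mod_self_left, Nat.mod_eq_of_lt hi, Nat.add_mul_div_left _ _ (Nat.succ_pos _),
    Nat.div_eq_of_lt hi, Nat.zero_add, Nat.add_mul_mod_self_left, Nat.mod_eq_of_lt hk,
    Nat.add_mul_div_left _ _ (Nat.succ_pos _), Nat.div_eq_of_lt hk, Nat.zero_add]

private theorem Abs_le (g : Dg) (a : ℕ → ℕ → ℕ → ℤ) (i j k : ℕ) (hi : i < g.t + 1)
    (hj : j < g.x + 1) (hk : k < g.y + 1) : (a i j k).natAbs ≤ wt g a w1 1 1 1 := by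
  unfold wt w1
  calc (a i j k).natAbs = 1 * (a i j k).natAbs * 1 ^ i * 1 ^ j * 1 ^ k := by simp
    _ ≤ ∑ k ∈ range (g.y + 1), 1 * (a i j k).natAbs * 1 ^ i * 1 ^ j * 1 ^ k :=
      single_le_sum (f := fun k => 1 * (a i j k).natAbs * 1 ^ i * 1 ^ j * 1 ^ k)
        (fun _ _ => Nat.zero_le _) (mem_range.2 hk)
    _ ≤ ∑ j ∈ range (g.x + 1), ∑ k ∈ range (g.y + 1), 1 * (a i j k).natAbs * 1 ^ i * 1 ^ j * 1 ^ k :=
      single_le_sum
        (f := fun j => ∑ k ∈ range (g.y + 1), 1 * (a i j k).natAbs * 1 ^ i * 1 ^ j * 1 ^ k)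
        (fun _ _ => Nat.zero_le _) (mem_range.2 hj)
    _ ≤ _ :=
      single_le_sum
        (f := fun i => ∑ j ∈ range (g.x + 1), ∑ k ∈ range (g.y + 1),
          1 * (a i j k).natAbs * 1 ^ i * 1 ^ j * 1 ^ k)
        (fun _ _ => Nat.zero_le _) (mem_range.2 hi)

theorem absN_ev (g : Dg) (a : ℕ → ℕ → ℕ → ℤ) (b H : ℕ) (hb0 : 0 < b) (hb : 2 * H < 2 ^ b)
    (ha : wt g a w1 1 1 1 ≤ H) :
    absN b (nd g) (ev g a ((2 : ℤ) ^ b) (2 ^ (b * (g.t + 1) * (g.y + 1))) (2 ^ (b * (g.t + 1)))) =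
      wt g a w1 (2 ^ b) (2 ^ (b * (g.t + 1) * (g.y + 1))) (2 ^ (b * (g.t + 1))) := by
  have h1 : ev g a ((2 : ℤ) ^ b) (2 ^ (b * (g.t + 1) * (g.y + 1))) (2 ^ (b * (g.t + 1))) =
      ∑ m ∈ range (nd g), Abs_dig g a m * (2 ^ b) ^ m := by
    rw [Abs_sum3]
    unfold ev
    refine sum_congr rfl fun i hi => sum_congr rfl fun j _ => sum_congr rfl fun k hk => ?_
    rw [Abs_dig_eq g a i j k (mem_range.1 hi) (mem_range.1 hk), Int.cast_id]
    simp only [← pow_mul, mul_assoc, ← pow_add]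
    congr 2
    ring
  have h2 : wt g a w1 (2 ^ b) (2 ^ (b * (g.t + 1) * (g.y + 1))) (2 ^ (b * (g.t + 1))) =
      ∑ m ∈ range (nd g), (Abs_dig g a m).natAbs * (2 ^ b) ^ m := by
    rw [Abs_sum3]
    unfold wt w1
    refine sum_congr rfl fun i hi => sum_congr rfl fun j _ => sum_congr rfl fun k hk => ?_
    rw [Abs_dig_eq g a i j k (mem_range.1 hi) (mem_range.1 hk), one_mul]
    simp only [← pow_mul, mul_assoc, ← pow_add]
    congr 2
    ring
  rw [h1, h2]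
  refine absN_eq b (nd g) H hb0 hb _ fun m hm => le_trans ?_ ha
  refine Abs_le g a _ _ _ (Nat.mod_lt _ (Nat.succ_pos _)) ?_ (Nat.mod_lt _ (Nat.succ_pos _))
  rw [Nat.div_div_eq_div_mul]
  apply Nat.div_lt_of_lt_mul
  exact hm

end Pool.H47.K3
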