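import Pool.Agent.H47.K3.Ev
import Pool.Agent.H47.Kc.Interp

/-! # Ana: values between the grid points

`ev_abs`: triangle inequality.  `ana`: interpolation in the three directions one after the other
(`Kc.interp_grid` with `e = 0`, `s = st`, `a = -(st nT)`, `n = 2 nT`; the second derivative in `T` is
at most `Σ i (i-1) |a_ijk| RT^(i-2) RX^j RY^k`, `RT = st nT > 0`, times `st^2 / 8` this is
`(Σ i (i-1) |a_ijk| RT^i RX^j RY^k) / (8 nT^2)`; for `RT = 0` only the value at `T = 0` is needed). -/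

set_option autoImplicit false

namespace Pool.H47.K3

open Pool.H47.Kc Finset

theorem ev_abs (g : Dg) (a : ℕ → ℕ → ℕ → ℤ) (RT RX RY : ℕ) (T X Y : ℝ) (hT : |T| ≤ RT)
    (hX : |X| ≤ RX) (hY : |Y| ≤ RY) : |ev g a T X Y| ≤ (wt g a w1 RT RX RY : ℝ) := by
  unfold ev wt w1
  push_cast
  refine (abs_sum_le_sum_abs _ _).trans (sum_le_sum fun i _ => ?_)
  refine (abs_sum_le_sum_abs _ _).trans (sum_le_sum fun j _ => ?_)
  refine (abs_sum_le_sum_abs _ _).trans (sum_le_sum fun k _ => ?_)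
  rw [abs_mul, abs_mul, abs_mul, abs_pow, abs_pow, abs_pow, one_mul]
  have h : (((a i j k).natAbs : ℕ) : ℝ) = |(a i j k : ℝ)| := by
    rw [Nat.cast_natAbs, Int.cast_abs]
  rw [h]
  gcongr

private theorem ana_dir (c C : ℕ → ℝ) (d s n : ℕ) (L : ℝ) (hc : ∀ l, |c l| ≤ C l)
    (hv : ∀ i : ℤ, |i| ≤ n → L ≤ ∑ l ∈ range d, c l * ((s : ℝ) * i) ^ l) (T : ℝ)
    (hT : |T| ≤ (s * n : ℕ)) :
    L - (∑ l ∈ range d, ((l * (l - 1) : ℕ) : ℝ) * C l * ((s * n : ℕ) : ℝ) ^ l) /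
      (8 * (sq1 n : ℕ)) ≤ ∑ l ∈ range d, c l * T ^ l := by
  have hC : ∀ l, 0 ≤ C l := fun l => (abs_nonneg _).trans (hc l)
  rcases Nat.eq_zero_or_pos n with hn | hn
  · subst hn
    have hT0 : T = 0 := by
      have h1 : |T| ≤ 0 := by simpa using hT
      exact abs_eq_zero.1 (le_antisymm h1 (abs_nonneg _))
    have h1 := hv 0 (by simp)
    subst hT0
    simp only [Int.cast_zero, mul_zero] at h1
    have h2 : 0 ≤ (∑ l ∈ range d, ((l * (l - 1) : ℕ) : ℝ) * C l * ((s * 0 : ℕ) : ℝ) ^ l) /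
        (8 * (sq1 0 : ℕ)) := by
      apply div_nonneg
      · exact sum_nonneg fun l _ => mul_nonneg (mul_nonneg (Nat.cast_nonneg _) (hC l))
          (pow_nonneg (Nat.cast_nonneg _) _)
      · positivity
    linarith
  · set M : ℝ := ∑ l ∈ range d, ((l * (l - 1) : ℕ) : ℝ) * C l * ((s * n : ℕ) : ℝ) ^ (l - 2) with hM
    have hM0 : 0 ≤ M := sum_nonneg fun l _ => mul_nonneg (mul_nonneg (Nat.cast_nonneg _) (hC l))
      (pow_nonneg (Nat.cast_nonneg _) _)
    have hsq : sq1 n = n * n := by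
      unfold sq1 mx
      rcases Nat.lt_or_ge 1 n with h | h
      · have : Nat.ble n 1 = false := by
          rw [Bool.eq_false_iff]
          intro h'
          have := Nat.le_of_ble_eq_true h'
          omega
        simp [this]
      · have h1 : n = 1 := by omega
        subst h1
        rfl
    have hD : D2Le (fun τ : ℝ => ∑ l ∈ range d, c l * τ ^ l) (((-(s * n : ℕ) : ℤ) : ℝ) / 2 ^ 0)
        ((((-(s * n : ℕ) : ℤ) : ℝ) + s * ((2 * n : ℕ) : ℝ)) / 2 ^ 0) M := by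
      refine ⟨fun τ => ∑ l ∈ range d, c l * (l * τ ^ (l - 1)),
        fun τ => ∑ l ∈ range d, c l * (l * (((l - 1 : ℕ) : ℝ) * τ ^ (l - 1 - 1))), ?_, ?_, ?_⟩
      · intro τ
        exact HasDerivAt.fun_sum fun l _ => (hasDerivAt_pow l τ).const_mul (c l)
      · intro τ
        exact HasDerivAt.fun_sum fun l _ =>
          ((hasDerivAt_pow (l - 1) τ).const_mul (l : ℝ)).const_mul (c l)
      · intro τ h1 h2
        have h3 : |τ| ≤ (s * n : ℕ) := by
          rw [abs_le]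
          push_cast at h1 h2 ⊢
          constructor <;> linarith
        refine sum_le_sum fun l _ => ?_
        refine (le_abs_self _).trans ?_
        rw [abs_mul, abs_mul, abs_mul, abs_pow, Nat.abs_cast, Nat.abs_cast, Nat.sub_sub]
        have h4 : |τ| ^ (l - 2) ≤ ((s * n : ℕ) : ℝ) ^ (l - 2) :=
          pow_le_pow_left₀ (abs_nonneg _) h3 _
        have h5 : |c l| * ((l : ℝ) * (((l - 1 : ℕ) : ℝ) * |τ| ^ (l - 2))) ≤
            C l * ((l : ℝ) * (((l - 1 : ℕ) : ℝ) * ((s * n : ℕ) : ℝ) ^ (l - 2))) := by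
          have := hc l
          have := hC l
          gcongr
        refine h5.trans (le_of_eq ?_)
        push_cast
        ring
    have h6 := interp_grid (fun τ : ℝ => ∑ l ∈ range d, c l * τ ^ l) (-(s * n : ℕ) : ℤ) s (2 * n) 0 M L
      hM0 hD (by
        intro i hi
        have h7 := hv ((i : ℤ) - n) (by rw [abs_le]; omega)
        refine h7.trans (le_of_eq ?_)
        refine sum_congr rfl fun l _ => ?_
        congr 2
        push_cast
        ring) T (by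
        have := (abs_le.1 hT).1
        push_cast at this ⊢
        linarith) (by
        have := (abs_le.1 hT).2
        push_cast at this ⊢
        linarith)
    refine le_trans (le_of_eq ?_) h6
    congr 1
    have hn0 : (n : ℝ) ≠ 0 := by positivity
    rw [hM, hsq, div_eq_div_iff (by positivity) (by positivity), sum_mul, sum_mul, sum_mul]
    refine sum_congr rfl fun l _ => ?_
    rcases Nat.lt_or_ge l 2 with hl | hl
    · have : l * (l - 1) = 0 := by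
        interval_cases l <;> rfl
      rw [this]
      simp
    · obtain ⟨m, rfl⟩ := Nat.exists_eq_add_of_le hl
      rw [Nat.add_sub_cancel_left, pow_add]
      push_cast
      ring

private theorem ana_cast (g : Dg) (a : ℕ → ℕ → ℕ → ℤ) (T X Y : ℤ) :
    ((ev g a T X Y : ℤ) : ℝ) = ev g a (T : ℝ) (X : ℝ) (Y : ℝ) := by
  unfold ev
  push_cast
  rfl

private theorem sq1_pos (n : ℕ) : 0 < sq1 n := by
  have h : 0 < mx n 1 := by
    unfold mx
    cases h : Nat.ble n 1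
    · have : ¬ n ≤ 1 := fun h' => by
        have := Nat.ble_eq_true_of_le h'
        rw [h] at this
        exact Bool.false_ne_true this
      show 0 < n
      omega
    · exact Nat.one_pos
  exact Nat.mul_pos h h

theorem ana (g : Dg) (a : ℕ → ℕ → ℕ → ℤ) (st sx sy nT nX nY L D : ℕ)
    (hgrid : ∀ i j k : ℤ, |i| ≤ nT → |j| ≤ nX → |k| ≤ nY →
      (L : ℤ) ≤ ev g a ((st : ℤ) * i) (sx * j) (sy * k))
    (hD : wt g a (fun i j k => sq1 nX * sq1 nY * (i * (i - 1)) +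
      sq1 nT * sq1 nY * (j * (j - 1)) + sq1 nT * sq1 nX * (k * (k - 1)))
      (st * nT) (sx * nX) (sy * nY) ≤ 8 * (sq1 nT * (sq1 nX * sq1 nY)) * D)
    (T X Y : ℝ) (hT : |T| ≤ (st * nT : ℕ)) (hX : |X| ≤ (sx * nX : ℕ)) (hY : |Y| ≤ (sy * nY : ℕ)) :
    (L : ℝ) - D ≤ ev g a T X Y := by
  have grid_le : ∀ (s n : ℕ) (i : ℤ), |i| ≤ n → |(s : ℝ) * i| ≤ ((s * n : ℕ) : ℝ) := by
    intro s n i hi
    rw [abs_mul, Nat.abs_cast]
    have h1 : |(i : ℝ)| ≤ n := by exact_mod_cast hi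
    push_cast
    exact mul_le_mul_of_nonneg_left h1 (Nat.cast_nonneg _)
  -- the three forms of `ev`
  have eT : ∀ T X Y : ℝ, ev g a T X Y = ∑ i ∈ range (g.t + 1),
      (∑ j ∈ range (g.x + 1), ∑ k ∈ range (g.y + 1), (a i j k : ℝ) * X ^ j * Y ^ k) * T ^ i := by
    intro T X Y
    unfold ev
    refine sum_congr rfl fun i _ => ?_
    rw [sum_mul]
    refine sum_congr rfl fun j _ => ?_
    rw [sum_mul]
    refine sum_congr rfl fun k _ => ?_
    ring
  have eX : ∀ T X Y : ℝ, ev g a T X Y = ∑ j ∈ range (g.x + 1),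
      (∑ i ∈ range (g.t + 1), ∑ k ∈ range (g.y + 1), (a i j k : ℝ) * T ^ i * Y ^ k) * X ^ j := by
    intro T X Y
    unfold ev
    rw [sum_comm]
    refine sum_congr rfl fun j _ => ?_
    rw [sum_mul]
    refine sum_congr rfl fun i _ => ?_
    rw [sum_mul]
    refine sum_congr rfl fun k _ => ?_
    ring
  have eY : ∀ T X Y : ℝ, ev g a T X Y = ∑ k ∈ range (g.y + 1),
      (∑ i ∈ range (g.t + 1), ∑ j ∈ range (g.x + 1), (a i j k : ℝ) * T ^ i * X ^ j) * Y ^ k := by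
    intro T X Y
    unfold ev
    have h1 : ∀ i ∈ range (g.t + 1), ∑ j ∈ range (g.x + 1), ∑ k ∈ range (g.y + 1),
        (a i j k : ℝ) * T ^ i * X ^ j * Y ^ k = ∑ k ∈ range (g.y + 1), ∑ j ∈ range (g.x + 1),
        (a i j k : ℝ) * T ^ i * X ^ j * Y ^ k := fun i _ => sum_comm
    rw [sum_congr rfl h1, sum_comm]
    refine sum_congr rfl fun k _ => ?_
    rw [sum_mul]
    refine sum_congr rfl fun i _ => ?_
    rw [sum_mul]
  set RT : ℝ := ((st * nT : ℕ) : ℝ) with hRT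
  set RX : ℝ := ((sx * nX : ℕ) : ℝ) with hRX
  set RY : ℝ := ((sy * nY : ℕ) : ℝ) with hRY
  have hRT0 : 0 ≤ RT := Nat.cast_nonneg _
  have hRX0 : 0 ≤ RX := Nat.cast_nonneg _
  have hRY0 : 0 ≤ RY := Nat.cast_nonneg _
  set CT : ℕ → ℝ := fun i => ∑ j ∈ range (g.x + 1), ∑ k ∈ range (g.y + 1),
    |(a i j k : ℝ)| * RX ^ j * RY ^ k with hCT
  set CX : ℕ → ℝ := fun j => ∑ i ∈ range (g.t + 1), ∑ k ∈ range (g.y + 1),
    |(a i j k : ℝ)| * RT ^ i * RY ^ k with hCX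
  set CY : ℕ → ℝ := fun k => ∑ i ∈ range (g.t + 1), ∑ j ∈ range (g.x + 1),
    |(a i j k : ℝ)| * RT ^ i * RX ^ j with hCY
  have term : ∀ (z : ℝ) (P Q A B : ℝ) (m n : ℕ), |P| ≤ A → |Q| ≤ B →
      |z * P ^ m * Q ^ n| ≤ |z| * A ^ m * B ^ n := by
    intro z P Q A B m n h1 h2
    have h3 : 0 ≤ A := (abs_nonneg _).trans h1
    have h4 : 0 ≤ B := (abs_nonneg _).trans h2
    rw [abs_mul, abs_mul, abs_pow, abs_pow]
    gcongr
  -- first direction
  have s1 : ∀ j k : ℤ, |j| ≤ nX → |k| ≤ nY → ∀ T : ℝ, |T| ≤ RT →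
      (L : ℝ) - (∑ l ∈ range (g.t + 1), ((l * (l - 1) : ℕ) : ℝ) * CT l * RT ^ l) /
        (8 * (sq1 nT : ℕ)) ≤ ev g a T ((sx : ℝ) * j) ((sy : ℝ) * k) := by
    intro j k hj hk T hT
    rw [eT]
    refine ana_dir _ CT (g.t + 1) st nT L (fun i => ?_) (fun i hi => ?_) T hT
    · refine (abs_sum_le_sum_abs _ _).trans (sum_le_sum fun j' _ => ?_)
      refine (abs_sum_le_sum_abs _ _).trans (sum_le_sum fun k' _ => ?_)
      exact term _ _ _ _ _ _ _ (grid_le sx nX j hj) (grid_le sy nY k hk)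
    · rw [← eT]
      have h1 := hgrid i j k hi hj hk
      have h2 : ((L : ℤ) : ℝ) ≤ ((ev g a ((st : ℤ) * i) (sx * j) (sy * k) : ℤ) : ℝ) := by
        exact_mod_cast h1
      rw [ana_cast] at h2
      push_cast at h2
      exact h2
  have s2 : ∀ k : ℤ, |k| ≤ nY → ∀ T : ℝ, |T| ≤ RT → ∀ X : ℝ, |X| ≤ RX →
      (L : ℝ) - (∑ l ∈ range (g.t + 1), ((l * (l - 1) : ℕ) : ℝ) * CT l * RT ^ l) /
        (8 * (sq1 nT : ℕ)) - (∑ l ∈ range (g.x + 1), ((l * (l - 1) : ℕ) : ℝ) * CX l * RX ^ l) /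
        (8 * (sq1 nX : ℕ)) ≤ ev g a T X ((sy : ℝ) * k) := by
    intro k hk T hT X hX
    rw [eX]
    refine ana_dir _ CX (g.x + 1) sx nX _ (fun j => ?_) (fun j hj => ?_) X hX
    · refine (abs_sum_le_sum_abs _ _).trans (sum_le_sum fun j' _ => ?_)
      refine (abs_sum_le_sum_abs _ _).trans (sum_le_sum fun k' _ => ?_)
      exact term _ _ _ _ _ _ _ hT (grid_le sy nY k hk)
    · rw [← eX]
      exact s1 j k hj hk T hT
  have s3 : (L : ℝ) - (∑ l ∈ range (g.t + 1), ((l * (l - 1) : ℕ) : ℝ) * CT l * RT ^ l) /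
        (8 * (sq1 nT : ℕ)) - (∑ l ∈ range (g.x + 1), ((l * (l - 1) : ℕ) : ℝ) * CX l * RX ^ l) /
        (8 * (sq1 nX : ℕ)) - (∑ l ∈ range (g.y + 1), ((l * (l - 1) : ℕ) : ℝ) * CY l * RY ^ l) /
        (8 * (sq1 nY : ℕ)) ≤ ev g a T X Y := by
    rw [eY]
    refine ana_dir _ CY (g.y + 1) sy nY _ (fun k => ?_) (fun k hk => ?_) Y hY
    · refine (abs_sum_le_sum_abs _ _).trans (sum_le_sum fun j' _ => ?_)
      refine (abs_sum_le_sum_abs _ _).trans (sum_le_sum fun k' _ => ?_)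
      exact term _ _ _ _ _ _ _ hT hX
    · rw [← eY]
      exact s2 k hk T hT X hX
  refine le_trans ?_ s3
  set ST := ∑ l ∈ range (g.t + 1), ((l * (l - 1) : ℕ) : ℝ) * CT l * RT ^ l with hST
  set SX := ∑ l ∈ range (g.x + 1), ((l * (l - 1) : ℕ) : ℝ) * CX l * RX ^ l with hSX
  set SY := ∑ l ∈ range (g.y + 1), ((l * (l - 1) : ℕ) : ℝ) * CY l * RY ^ l with hSY
  have q1 : (0 : ℝ) < (sq1 nT : ℕ) := by exact_mod_cast sq1_pos nT
  have q2 : (0 : ℝ) < (sq1 nX : ℕ) := by exact_mod_cast sq1_pos nX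
  have q3 : (0 : ℝ) < (sq1 nY : ℕ) := by exact_mod_cast sq1_pos nY
  have h8 : (wt g a (fun i j k => sq1 nX * sq1 nY * (i * (i - 1)) +
      sq1 nT * sq1 nY * (j * (j - 1)) + sq1 nT * sq1 nX * (k * (k - 1)))
      (st * nT) (sx * nX) (sy * nY) : ℝ) =
      (sq1 nX : ℝ) * (sq1 nY : ℝ) * ST + (sq1 nT : ℝ) * (sq1 nY : ℝ) * SX +
        (sq1 nT : ℝ) * (sq1 nX : ℝ) * SY := by
    have f1 : ST = ∑ i ∈ range (g.t + 1), ∑ j ∈ range (g.x + 1), ∑ k ∈ range (g.y + 1),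
        ((i * (i - 1) : ℕ) : ℝ) * (|(a i j k : ℝ)| * RT ^ i * RX ^ j * RY ^ k) := by
      rw [hST]
      refine sum_congr rfl fun i _ => ?_
      rw [hCT]
      simp only
      rw [mul_sum, sum_mul]
      refine sum_congr rfl fun j _ => ?_
      rw [mul_sum, sum_mul]
      refine sum_congr rfl fun k _ => ?_
      ring
    have f2 : SX = ∑ i ∈ range (g.t + 1), ∑ j ∈ range (g.x + 1), ∑ k ∈ range (g.y + 1),
        ((j * (j - 1) : ℕ) : ℝ) * (|(a i j k : ℝ)| * RT ^ i * RX ^ j * RY ^ k) := by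
      rw [hSX, sum_comm]
      refine sum_congr rfl fun j _ => ?_
      rw [hCX]
      simp only
      rw [mul_sum, sum_mul]
      refine sum_congr rfl fun i _ => ?_
      rw [mul_sum, sum_mul]
      refine sum_congr rfl fun k _ => ?_
      ring
    have f3 : SY = ∑ i ∈ range (g.t + 1), ∑ j ∈ range (g.x + 1), ∑ k ∈ range (g.y + 1),
        ((k * (k - 1) : ℕ) : ℝ) * (|(a i j k : ℝ)| * RT ^ i * RX ^ j * RY ^ k) := by
      have h1 : ∀ i ∈ range (g.t + 1), ∑ j ∈ range (g.x + 1), ∑ k ∈ range (g.y + 1),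
          ((k * (k - 1) : ℕ) : ℝ) * (|(a i j k : ℝ)| * RT ^ i * RX ^ j * RY ^ k) =
          ∑ k ∈ range (g.y + 1), ∑ j ∈ range (g.x + 1),
          ((k * (k - 1) : ℕ) : ℝ) * (|(a i j k : ℝ)| * RT ^ i * RX ^ j * RY ^ k) :=
        fun i _ => sum_comm
      rw [hSY, sum_congr rfl h1, sum_comm]
      refine sum_congr rfl fun k _ => ?_
      rw [hCY]
      simp only
      rw [mul_sum, sum_mul]
      refine sum_congr rfl fun i _ => ?_
      rw [mul_sum, sum_mul]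
      refine sum_congr rfl fun j _ => ?_
      ring
    rw [f1, f2, f3]
    unfold wt
    rw [Nat.cast_sum, mul_sum, mul_sum, mul_sum, ← sum_add_distrib, ← sum_add_distrib]
    refine sum_congr rfl fun i _ => ?_
    rw [Nat.cast_sum, mul_sum, mul_sum, mul_sum, ← sum_add_distrib, ← sum_add_distrib]
    refine sum_congr rfl fun j _ => ?_
    rw [Nat.cast_sum, mul_sum, mul_sum, mul_sum, ← sum_add_distrib, ← sum_add_distrib]
    refine sum_congr rfl fun k _ => ?_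
    have h9 : (((a i j k).natAbs : ℕ) : ℝ) = |(a i j k : ℝ)| := by
      rw [Nat.cast_natAbs, Int.cast_abs]
    rw [hRT, hRX, hRY]
    simp only [Nat.cast_mul, Nat.cast_add, Nat.cast_pow, h9]
    ring
  have h9 : (sq1 nX : ℝ) * (sq1 nY : ℝ) * ST + (sq1 nT : ℝ) * (sq1 nY : ℝ) * SX +
        (sq1 nT : ℝ) * (sq1 nX : ℝ) * SY ≤
      8 * ((sq1 nT : ℝ) * ((sq1 nX : ℝ) * (sq1 nY : ℝ))) * D := by
    rw [← h8]
    exact_mod_cast hD
  have h10 : ST / (8 * (sq1 nT : ℕ)) + SX / (8 * (sq1 nX : ℕ)) + SY / (8 * (sq1 nY : ℕ)) ≤ D := by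
    have h11 : ST / (8 * (sq1 nT : ℕ)) + SX / (8 * (sq1 nX : ℕ)) + SY / (8 * (sq1 nY : ℕ)) =
        ((sq1 nX : ℝ) * (sq1 nY : ℝ) * ST + (sq1 nT : ℝ) * (sq1 nY : ℝ) * SX +
        (sq1 nT : ℝ) * (sq1 nX : ℝ) * SY) / (8 * ((sq1 nT : ℝ) * ((sq1 nX : ℝ) * (sq1 nY : ℝ)))) := by
      field_simp
    rw [h11, div_le_iff₀ (by positivity)]
    linarith
  linarith

end Pool.H47.K3
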