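import Pool.Agent.H47.K3.Ops

/-! # Err: difference of actual and nominal values

`val_rel` for `Z.er S` and pairs of reals `(v, v')`: `|v| 2^60 ≤ b`, `|v'| 2^60 ≤ b`,
`|v - v'| 2^60 ≤ d` (pairs: see `pAlg` in `Kc/Bounds.lean`).  `n >>> e` is the floor of `n / 2^e`. -/

set_option autoImplicit false

namespace Pool.H47.K3

open Pool.H47.Kc

/-- pairs of real interpretations -/
private noncomputable def Err_pAlg (β β' : ℕ → ℝ) (x y : ℝ) : Alg (ℝ × ℝ) where
  cst z e := (z / 2 ^ e, z / 2 ^ e)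
  base i := (β i, β' i)
  x := (x, x)
  y := (y, y)
  add a b := (a.1 + b.1, a.2 + b.2)
  sub a b := (a.1 - b.1, a.2 - b.2)
  mul a b := (a.1 * b.1, a.2 * b.2)
  dflt := (0, 0)

private theorem Err_val_p (β β' : ℕ → ℝ) (x y : ℝ) (Q : Prg) (k : ℕ) :
    (Q.val (Err_pAlg β β' x y) k).1 = Q.val (realAlg β x y) k ∧
      (Q.val (Err_pAlg β β' x y) k).2 = Q.val (realAlg β' x y) k := by
  constructor
  · refine val_rel (A := Err_pAlg β β' x y) (B := realAlg β x y) (R := fun p r => p.1 = r) ?_ Q k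
    exact
      { cst := fun _ _ => rfl
        base := fun _ => rfl
        x := rfl
        y := rfl
        add := fun a b a' b' h h' => by
          change a.1 + b.1 = a' + b'
          rw [h, h']
        sub := fun a b a' b' h h' => by
          change a.1 - b.1 = a' - b'
          rw [h, h']
        mul := fun a b a' b' h h' => by
          change a.1 * b.1 = a' * b'
          rw [h, h']
        dflt := rfl }
  · refine val_rel (A := Err_pAlg β β' x y) (B := realAlg β' x y) (R := fun p r => p.2 = r) ?_ Q k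
    exact
      { cst := fun _ _ => rfl
        base := fun _ => rfl
        x := rfl
        y := rfl
        add := fun a b a' b' h h' => by
          change a.2 + b.2 = a' + b'
          rw [h, h']
        sub := fun a b a' b' h h' => by
          change a.2 - b.2 = a' - b'
          rw [h, h']
        mul := fun a b a' b' h h' => by
          change a.2 * b.2 = a' * b'
          rw [h, h']
        dflt := rfl }

private theorem Err_horner_real (β : ℕ → ℝ) (x y t : ℝ) (l : List Fx) :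
    horner (realAlg β x y) t l = pval l t := by
  induction l with
  | nil => simp [horner, realAlg, pval]
  | cons a l ih =>
    have h1 : horner (realAlg β x y) t (a :: l) =
        (a.n : ℝ) / 2 ^ a.e + t * horner (realAlg β x y) t l := rfl
    rw [h1, ih]
    rfl

private theorem Err_floor (a e : ℕ) :
    (a : ℝ) / 2 ^ e ≤ ((Nat.succ (Nat.shiftRight a e) : ℕ) : ℝ) := by
  have h1 : Nat.shiftRight a e = a / 2 ^ e := Nat.shiftRight_eq_div_pow a e
  rw [h1, div_le_iff₀ (by positivity)]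
  have h2 : a ≤ Nat.succ (a / 2 ^ e) * 2 ^ e := by
    have h4 : a < 2 ^ e * (a / 2 ^ e + 1) := by
      have := Nat.lt_mul_div_succ a (Nat.two_pow_pos e)
      exact this
    calc a ≤ 2 ^ e * (a / 2 ^ e + 1) := h4.le
      _ = _ := by rw [Nat.mul_comm]
  exact_mod_cast h2

private theorem Err_s60 : (s60 : ℝ) = 2 ^ 60 := by
  norm_num [s60]

/-- bound of `a / 2^e` -/
private theorem Err_cst (a e : ℕ) (v : ℝ) (hv : |v| * 2 ^ e ≤ a) :
    |v| * 2 ^ 60 ≤ ((Nat.succ (Nat.shiftRight (Nat.mul a s60) e) : ℕ) : ℝ) := by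
  refine le_trans ?_ (Err_floor (Nat.mul a s60) e)
  rw [le_div_iff₀ (by positivity)]
  have h1 : ((Nat.mul a s60 : ℕ) : ℝ) = (a : ℝ) * 2 ^ 60 := by
    have : Nat.mul a s60 = a * s60 := rfl
    rw [this, Nat.cast_mul, Err_s60]
  rw [h1]
  calc |v| * 2 ^ 60 * 2 ^ e = (|v| * 2 ^ e) * 2 ^ 60 := by ring
    _ ≤ (a : ℝ) * 2 ^ 60 := mul_le_mul_of_nonneg_right hv (by positivity)

private theorem Err_iabs (z : ℤ) (e : ℕ) :
    |(z : ℝ) / 2 ^ e| * 2 ^ 60 ≤
      ((Nat.succ (Nat.shiftRight (Nat.mul (iabs z) s60) e) : ℕ) : ℝ) := by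
  refine Err_cst (iabs z) e _ ?_
  rw [iabs_eq, abs_div, abs_of_pos (show (0 : ℝ) < 2 ^ e by positivity),
    div_mul_cancel₀ _ (by positivity)]
  rw [Nat.cast_natAbs]
  push_cast
  exact le_refl _

/-- products -/
private theorem Err_prod (v w : ℝ) (a b : ℕ) (hv : |v| * 2 ^ 60 ≤ a) (hw : |w| * 2 ^ 60 ≤ b) :
    |v * w| * 2 ^ 60 * 2 ^ 60 ≤ ((a * b : ℕ) : ℝ) := by
  rw [abs_mul]
  push_cast
  calc |v| * |w| * 2 ^ 60 * 2 ^ 60 = (|v| * 2 ^ 60) * (|w| * 2 ^ 60) := by ring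
    _ ≤ (a : ℝ) * b := mul_le_mul hv hw (by positivity) (by positivity)

private theorem Err_mul (v w : ℝ) (a b : ℕ) (hv : |v| * 2 ^ 60 ≤ a) (hw : |w| * 2 ^ 60 ≤ b) :
    |v * w| * 2 ^ 60 ≤ ((Nat.succ (Nat.shiftRight (Nat.mul a b) 60) : ℕ) : ℝ) := by
  refine le_trans ?_ (Err_floor (Nat.mul a b) 60)
  rw [le_div_iff₀ (by positivity)]
  exact Err_prod v w a b hv hw

private theorem Err_horner (T : ℕ) (t : ℝ) (ht : |t| * 2 ^ 60 ≤ T) (l : List Fx) :
    |pval l t| * 2 ^ 60 ≤ ((horner2 abAlg T l : ℕ) : ℝ) := by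
  have h := horner_rel (A := abAlg) (B := realAlg (fun _ => 0) 0 0)
    (R := fun (n : ℕ) (v : ℝ) => |v| * 2 ^ 60 ≤ (n : ℝ))
    (fun z e => Err_iabs z e)
    (fun a b a' b' h h' => by
      change |a' + b'| * 2 ^ 60 ≤ ((a + b : ℕ) : ℝ)
      push_cast
      have h1 := abs_add_le a' b'
      have h2 : |a' + b'| * 2 ^ 60 ≤ (|a'| + |b'|) * 2 ^ 60 :=
        mul_le_mul_of_nonneg_right h1 (by positivity)
      linarith)
    (fun a b a' b' h h' => Err_mul a' b' a b h h') T t ht l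
  rw [Err_horner_real] at h
  rw [horner2_eq]
  exact h

private theorem Err_coord (v : ℝ) (e c s n : ℕ) (h : |v * 2 ^ e - c| ≤ (s : ℝ) * n) :
    |v| * 2 ^ e ≤ ((Nat.add c (Nat.mul s n) : ℕ) : ℝ) := by
  have h0 : Nat.add c (Nat.mul s n) = c + s * n := rfl
  rw [h0]
  push_cast
  have h1 : |v| * 2 ^ e = |v * 2 ^ e| := by
    rw [abs_mul, abs_of_pos (show (0 : ℝ) < 2 ^ e by positivity)]
  have h2 : |v * 2 ^ e| ≤ |v * 2 ^ e - c| + |(c : ℝ)| := by
    have h3 := abs_add_le (v * 2 ^ e - c) (c : ℝ)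
    rwa [sub_add_cancel] at h3
  have h4 : |(c : ℝ)| = c := abs_of_nonneg (Nat.cast_nonneg c)
  rw [h4] at h2
  rw [h1]
  linarith

theorem err_sound (Z : Z3) (S : ℕ → Sym) (Q : Prg) (k : ℕ) (t x y : ℝ) (hz : Z.Mem t x y)
    (β : ℕ → ℝ) (hβ : EnclF S t β) :
    |Q.val (realAlg β x y) k - Q.val (realAlg (nomF S t) x y) k| ≤
      ((Q.val (Z.er S) k).d : ℝ) / 2 ^ 60 := by
  obtain ⟨hzt, hzx, hzy⟩ := hz
  have key := val_rel (A := Z.er S) (B := Err_pAlg β (nomF S t) x y)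
    (R := fun (e : Er) (p : ℝ × ℝ) => |p.1| * 2 ^ 60 ≤ (e.b : ℝ) ∧ |p.2| * 2 ^ 60 ≤ (e.b : ℝ) ∧
      |p.1 - p.2| * 2 ^ 60 ≤ (e.d : ℝ))
    { cst := fun z e => by
        refine ⟨Err_iabs z e, Err_iabs z e, ?_⟩
        change |(z : ℝ) / 2 ^ e - (z : ℝ) / 2 ^ e| * 2 ^ 60 ≤ ((0 : ℕ) : ℝ)
        rw [sub_self, abs_zero, zero_mul, Nat.cast_zero]
      base := fun i => by
        have hT : |t| * 2 ^ 60 ≤ ((Nat.succ (Nat.shiftRight
            (Nat.mul (Nat.add Z.tc (Nat.mul Z.st Z.nT)) s60) Z.eT) : ℕ) : ℝ) :=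
          Err_cst _ _ _ (Err_coord t Z.eT Z.tc Z.st Z.nT hzt)
        have hH := Err_horner _ t hT (S i).p
        have hd : |β i - pval (S i).p t| * 2 ^ 60 ≤ ((S i).eps : ℝ) := by
          have h1 := hβ i
          rwa [le_div_iff₀ (by positivity)] at h1
        set N : ℕ := horner2 abAlg (Nat.succ (Nat.shiftRight
            (Nat.mul (Nat.add Z.tc (Nat.mul Z.st Z.nT)) s60) Z.eT)) (S i).p with hN
        have heps : (0 : ℝ) ≤ ((S i).eps : ℝ) := Nat.cast_nonneg _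
        refine ⟨?_, ?_, ?_⟩
        · change |β i| * 2 ^ 60 ≤ ((N + (S i).eps : ℕ) : ℝ)
          push_cast
          have h2 : |β i| ≤ |β i - pval (S i).p t| + |pval (S i).p t| := by
            have h3 := abs_add_le (β i - pval (S i).p t) (pval (S i).p t)
            rwa [sub_add_cancel] at h3
          have h4 : |β i| * 2 ^ 60 ≤ (|β i - pval (S i).p t| + |pval (S i).p t|) * 2 ^ 60 :=
            mul_le_mul_of_nonneg_right h2 (by positivity)
          linarith
        · change |pval (S i).p t| * 2 ^ 60 ≤ ((N + (S i).eps : ℕ) : ℝ)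
          push_cast
          linarith
        · exact hd
      x := by
        have h1 := Err_cst _ _ _ (Err_coord x Z.eX Z.xc Z.sx Z.nX hzx)
        refine ⟨h1, h1, ?_⟩
        change |x - x| * 2 ^ 60 ≤ ((0 : ℕ) : ℝ)
        rw [sub_self, abs_zero, zero_mul, Nat.cast_zero]
      y := by
        have h1 := Err_cst _ _ _ (Err_coord y Z.eY Z.yc Z.sy Z.nY hzy)
        refine ⟨h1, h1, ?_⟩
        change |y - y| * 2 ^ 60 ≤ ((0 : ℕ) : ℝ)
        rw [sub_self, abs_zero, zero_mul, Nat.cast_zero]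
      add := fun a b a' b' h h' => by
        obtain ⟨h1, h2, h3⟩ := h
        obtain ⟨h1', h2', h3'⟩ := h'
        refine ⟨?_, ?_, ?_⟩
        · change |a'.1 + b'.1| * 2 ^ 60 ≤ ((a.b + b.b : ℕ) : ℝ)
          push_cast
          have h5 : |a'.1 + b'.1| * 2 ^ 60 ≤ (|a'.1| + |b'.1|) * 2 ^ 60 :=
            mul_le_mul_of_nonneg_right (abs_add_le _ _) (by positivity)
          linarith
        · change |a'.2 + b'.2| * 2 ^ 60 ≤ ((a.b + b.b : ℕ) : ℝ)
          push_cast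
          have h5 : |a'.2 + b'.2| * 2 ^ 60 ≤ (|a'.2| + |b'.2|) * 2 ^ 60 :=
            mul_le_mul_of_nonneg_right (abs_add_le _ _) (by positivity)
          linarith
        · change |(a'.1 + b'.1) - (a'.2 + b'.2)| * 2 ^ 60 ≤ ((a.d + b.d : ℕ) : ℝ)
          push_cast
          have h4 : (a'.1 + b'.1) - (a'.2 + b'.2) = (a'.1 - a'.2) + (b'.1 - b'.2) := by ring
          rw [h4]
          have h5 : |(a'.1 - a'.2) + (b'.1 - b'.2)| * 2 ^ 60 ≤
              (|a'.1 - a'.2| + |b'.1 - b'.2|) * 2 ^ 60 :=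
            mul_le_mul_of_nonneg_right (abs_add_le _ _) (by positivity)
          linarith
      sub := fun a b a' b' h h' => by
        obtain ⟨h1, h2, h3⟩ := h
        obtain ⟨h1', h2', h3'⟩ := h'
        refine ⟨?_, ?_, ?_⟩
        · change |a'.1 - b'.1| * 2 ^ 60 ≤ ((a.b + b.b : ℕ) : ℝ)
          push_cast
          have h5 : |a'.1 - b'.1| * 2 ^ 60 ≤ (|a'.1| + |b'.1|) * 2 ^ 60 :=
            mul_le_mul_of_nonneg_right (abs_sub _ _) (by positivity)
          linarith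
        · change |a'.2 - b'.2| * 2 ^ 60 ≤ ((a.b + b.b : ℕ) : ℝ)
          push_cast
          have h5 : |a'.2 - b'.2| * 2 ^ 60 ≤ (|a'.2| + |b'.2|) * 2 ^ 60 :=
            mul_le_mul_of_nonneg_right (abs_sub _ _) (by positivity)
          linarith
        · change |(a'.1 - b'.1) - (a'.2 - b'.2)| * 2 ^ 60 ≤ ((a.d + b.d : ℕ) : ℝ)
          push_cast
          have h4 : (a'.1 - b'.1) - (a'.2 - b'.2) = (a'.1 - a'.2) - (b'.1 - b'.2) := by ring
          rw [h4]
          have h5 : |(a'.1 - a'.2) - (b'.1 - b'.2)| * 2 ^ 60 ≤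
              (|a'.1 - a'.2| + |b'.1 - b'.2|) * 2 ^ 60 :=
            mul_le_mul_of_nonneg_right (abs_sub _ _) (by positivity)
          linarith
      mul := fun a b a' b' h h' => by
        obtain ⟨h1, h2, h3⟩ := h
        obtain ⟨h1', h2', h3'⟩ := h'
        refine ⟨Err_mul _ _ _ _ h1 h1', Err_mul _ _ _ _ h2 h2', ?_⟩
        change |a'.1 * b'.1 - a'.2 * b'.2| * 2 ^ 60 ≤
          ((Nat.succ (Nat.shiftRight (a.b * b.d + a.d * b.b) 60) : ℕ) : ℝ)
        refine le_trans ?_ (Err_floor _ 60)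
        rw [le_div_iff₀ (by positivity)]
        have h4 : a'.1 * b'.1 - a'.2 * b'.2 = a'.1 * (b'.1 - b'.2) + (a'.1 - a'.2) * b'.2 := by
          ring
        rw [h4]
        have h5 : |a'.1 * (b'.1 - b'.2) + (a'.1 - a'.2) * b'.2| * 2 ^ 60 * 2 ^ 60 ≤
            (|a'.1 * (b'.1 - b'.2)| + |(a'.1 - a'.2) * b'.2|) * 2 ^ 60 * 2 ^ 60 := by
          refine mul_le_mul_of_nonneg_right ?_ (by positivity)
          exact mul_le_mul_of_nonneg_right (abs_add_le _ _) (by positivity)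
        have h6 := Err_prod _ _ _ _ h1 h3'
        have h7 := Err_prod _ _ _ _ h3 h2'
        push_cast at h6 h7 ⊢
        linarith
      dflt := by
        change |(0 : ℝ)| * 2 ^ 60 ≤ ((0 : ℕ) : ℝ) ∧ |(0 : ℝ)| * 2 ^ 60 ≤ ((0 : ℕ) : ℝ) ∧
          |(0 : ℝ) - 0| * 2 ^ 60 ≤ ((0 : ℕ) : ℝ)
        simp } Q k
  obtain ⟨-, -, h3⟩ := key
  obtain ⟨e1, e2⟩ := Err_val_p β (nomF S t) x y Q k
  rw [e1, e2] at h3
  rw [le_div_iff₀ (by positivity)]
  exact h3

end Pool.H47.K3
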