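import Pool.Agent.H47.K3.Ev

/-! # Grid: residues give the values on the grid

`lp H s F neg a f m`: for all `idx ≤ f` the residue of `± a` modulo `m - s idx` (sign and absolute
value) satisfies `F`.  With `m = 2^b + s n`, `f = 2 n`: the moduli are `2^b - s i`, `-n ≤ i ≤ n`, and a
value congruent to `V` with absolute value `≤ H`, `2 H < 2^b - s i`, is the residue.  Three levels:
`ev g a T X Y` at `T = s i` is congruent to `ev g a 2^bt X Y` modulo `2^bt - s i`, absolute value at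
most `H X^(g.x) Y^(g.y)` for `|s i| ≤ max (st nT) 1`. -/

set_option autoImplicit false

namespace Pool.H47.K3

open Pool.H47.Kc Finset

private theorem lp_all (H s : ℕ) (F : Bool → ℕ → Bool) (neg : Bool) (a : ℕ) :
    ∀ (f m : ℕ), lp H s F neg a f m = true →
      ∀ idx : ℕ, idx ≤ f → resd H F neg a (m - idx * s) = true := by
  intro f
  induction f with
  | zero =>
    intro m h idx hi
    have : idx = 0 := by omega
    subst this
    rw [Nat.zero_mul, Nat.sub_zero]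
    exact h
  | succ f ih =>
    intro m h idx hi
    have h' : cond (resd H F neg a m) (lp H s F neg a f (Nat.sub m s)) false = true := h
    have h1 : resd H F neg a m = true ∧ lp H s F neg a f (m - s) = true := by
      cases hr : resd H F neg a m
      · rw [hr] at h'
        exact absurd h' Bool.false_ne_true
      · rw [hr] at h'
        exact ⟨rfl, h'⟩
    rcases Nat.eq_zero_or_pos idx with h0 | h0
    · subst h0
      rw [Nat.zero_mul, Nat.sub_zero]
      exact h1.1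
    · obtain ⟨k, rfl⟩ := Nat.exists_eq_succ_of_ne_zero h0.ne'
      have h2 := ih (m - s) h1.2 k (by omega)
      have h3 : m - s - k * s = m - k.succ * s := by
        rw [Nat.sub_sub, Nat.succ_mul, Nat.add_comm]
      rw [h3] at h2
      exact h2

theorem lp_sound (H s : ℕ) (F : Bool → ℕ → Bool) (neg : Bool) (a n b : ℕ)
    (hb : 2 * H + s * n < 2 ^ b) (h : lp H s F neg a (2 * n) (2 ^ b + s * n) = true)
    (i : ℤ) (hi : |i| ≤ n) (v : ℤ) (hv : v.natAbs ≤ H)
    (hd : ((2 : ℤ) ^ b - s * i) ∣ (cond neg (-(a : ℤ)) a) - v) :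
    ∃ neg' : Bool, cond neg' (-(v.natAbs : ℤ)) v.natAbs = v ∧ F neg' v.natAbs = true := by
  obtain ⟨hi1, hi2⟩ := abs_le.1 hi
  set idx : ℕ := (n + i).toNat with hidx
  have hidx' : (idx : ℤ) = n + i := by
    rw [hidx, Int.toNat_of_nonneg (by omega)]
  have hidx2 : idx ≤ 2 * n := by omega
  have h1 := lp_all H s F neg a (2 * n) (2 ^ b + s * n) h idx hidx2
  set m : ℕ := 2 ^ b + s * n - idx * s with hm
  have hle : idx * s ≤ 2 * (s * n) := by
    calc idx * s ≤ (2 * n) * s := Nat.mul_le_mul_right _ hidx2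
      _ = 2 * (s * n) := by ring
  have hmz : (m : ℤ) = 2 ^ b - s * i := by
    rw [hm, Nat.cast_sub (by omega)]
    push_cast
    rw [hidx']
    ring
  have hmH : 2 * H < m := by omega
  rw [← hmz] at hd
  set w : ℤ := cond neg (-v) v with hw
  have hdw : (m : ℤ) ∣ (a : ℤ) - w := by
    cases neg
    · exact hd
    · have h2 : (m : ℤ) ∣ -((-(a : ℤ)) - v) := (dvd_neg).2 hd
      have h3 : -((-(a : ℤ)) - v) = (a : ℤ) - (-v) := by ring
      rw [h3] at h2
      exact h2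
  have hmod : ((a % m : ℕ) : ℤ) = w % m := by
    rw [Int.natCast_mod]
    exact ((Int.modEq_iff_dvd).2 hdw).symm
  have hwabs : w.natAbs = v.natAbs := by
    rw [hw]
    cases neg
    · rfl
    · exact Int.natAbs_neg v
  have h1' : cond (Nat.ble (a % m) H) (F neg (a % m)) (F (cond neg false true) (m - a % m)) =
      true := h1
  rcases le_or_gt 0 w with h0 | h0
  · have h2 : w % m = w := Int.emod_eq_of_lt h0 (by omega)
    have h3 : a % m = v.natAbs := by omega
    have h4 : Nat.ble (a % m) H = true := Nat.ble_eq_true_of_le (by omega)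
    rw [h4, h3] at h1'
    refine ⟨neg, ?_, h1'⟩
    cases neg
    · have : w = v := rfl
      show ((v.natAbs : ℕ) : ℤ) = v
      omega
    · have : w = -v := rfl
      show -((v.natAbs : ℕ) : ℤ) = v
      omega
  · have h2 : w % m = w + m := by
      rw [← Int.add_emod_right]
      exact Int.emod_eq_of_lt (by omega) (by omega)
    have h3 : m - a % m = v.natAbs := by omega
    have h4 : Nat.ble (a % m) H = false := by
      rw [Bool.eq_false_iff]
      intro h5
      have := Nat.le_of_ble_eq_true h5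
      omega
    rw [h4, h3] at h1'
    cases neg
    · have : w = v := rfl
      refine ⟨true, ?_, h1'⟩
      show -((v.natAbs : ℕ) : ℤ) = v
      omega
    · have : w = -v := rfl
      refine ⟨false, ?_, h1'⟩
      show ((v.natAbs : ℕ) : ℤ) = v
      omega

private theorem ev_dvd_T (g : Dg) (a : ℕ → ℕ → ℕ → ℤ) (T T' X Y : ℤ) :
    T - T' ∣ ev g a T X Y - ev g a T' X Y := by
  unfold ev
  rw [← sum_sub_distrib]
  refine dvd_sum fun i _ => ?_
  rw [← sum_sub_distrib]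
  refine dvd_sum fun j _ => ?_
  rw [← sum_sub_distrib]
  refine dvd_sum fun k _ => ?_
  have h := sub_dvd_pow_sub_pow T T' i
  have e : a i j k * T ^ i * X ^ j * Y ^ k - a i j k * T' ^ i * X ^ j * Y ^ k =
      (T ^ i - T' ^ i) * (a i j k * X ^ j * Y ^ k) := by
    ring
  simp only [Int.cast_id]
  rw [e]
  exact Dvd.dvd.mul_right h _

private theorem ev_dvd_X (g : Dg) (a : ℕ → ℕ → ℕ → ℤ) (T X X' Y : ℤ) :
    X - X' ∣ ev g a T X Y - ev g a T X' Y := by
  unfold ev
  rw [← sum_sub_distrib]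
  refine dvd_sum fun i _ => ?_
  rw [← sum_sub_distrib]
  refine dvd_sum fun j _ => ?_
  rw [← sum_sub_distrib]
  refine dvd_sum fun k _ => ?_
  have h := sub_dvd_pow_sub_pow X X' j
  have e : a i j k * T ^ i * X ^ j * Y ^ k - a i j k * T ^ i * X' ^ j * Y ^ k =
      (X ^ j - X' ^ j) * (a i j k * T ^ i * Y ^ k) := by
    ring
  simp only [Int.cast_id]
  rw [e]
  exact Dvd.dvd.mul_right h _

private theorem ev_dvd_Y (g : Dg) (a : ℕ → ℕ → ℕ → ℤ) (T X Y Y' : ℤ) :
    Y - Y' ∣ ev g a T X Y - ev g a T X Y' := by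
  unfold ev
  rw [← sum_sub_distrib]
  refine dvd_sum fun i _ => ?_
  rw [← sum_sub_distrib]
  refine dvd_sum fun j _ => ?_
  rw [← sum_sub_distrib]
  refine dvd_sum fun k _ => ?_
  have h := sub_dvd_pow_sub_pow Y Y' k
  have e : a i j k * T ^ i * X ^ j * Y ^ k - a i j k * T ^ i * X ^ j * Y' ^ k =
      (Y ^ k - Y' ^ k) * (a i j k * T ^ i * X ^ j) := by
    ring
  simp only [Int.cast_id]
  rw [e]
  exact Dvd.dvd.mul_right h _

private theorem ev_natAbs (g : Dg) (a : ℕ → ℕ → ℕ → ℤ) (RT RX RY QX QY : ℕ) (T X Y : ℤ)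
    (hT : T.natAbs ≤ RT) (hX : ∀ j, j ≤ g.x → X.natAbs ^ j ≤ RX ^ j * QX)
    (hY : ∀ k, k ≤ g.y → Y.natAbs ^ k ≤ RY ^ k * QY) :
    (ev g a T X Y).natAbs ≤ wt g a w1 RT RX RY * (QY * QX) := by
  unfold ev wt w1
  refine (Int.natAbs_sum_le _ _).trans ?_
  rw [sum_mul]
  refine sum_le_sum fun i _ => (Int.natAbs_sum_le _ _).trans ?_
  rw [sum_mul]
  refine sum_le_sum fun j hj => (Int.natAbs_sum_le _ _).trans ?_
  rw [sum_mul]
  refine sum_le_sum fun k hk => ?_
  rw [Int.natAbs_mul, Int.natAbs_mul, Int.natAbs_mul, Int.natAbs_pow, Int.natAbs_pow,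
    Int.natAbs_pow, Int.cast_id, one_mul]
  have h1 := hX j (by rw [mem_range] at hj; omega)
  have h2 := hY k (by rw [mem_range] at hk; omega)
  have h3 : T.natAbs ^ i ≤ RT ^ i := Nat.pow_le_pow_left hT _
  calc (a i j k).natAbs * T.natAbs ^ i * X.natAbs ^ j * Y.natAbs ^ k
      ≤ (a i j k).natAbs * RT ^ i * (RX ^ j * QX) * (RY ^ k * QY) := by gcongr
    _ = (a i j k).natAbs * RT ^ i * RX ^ j * RY ^ k * (QY * QX) := by ring

private theorem grid_pt (s n : ℕ) (i : ℤ) (hi : |i| ≤ n) : ((s : ℤ) * i).natAbs ≤ max (s * n) 1 := by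
  rw [Int.natAbs_mul, Int.natAbs_natCast]
  have h1 : i.natAbs ≤ n := by
    have := abs_le.1 hi
    omega
  exact (Nat.mul_le_mul_left _ h1).trans (le_max_left _ _)

theorem grid_sound (g : Dg) (a : ℕ → ℕ → ℕ → ℤ) (b H st sx sy nT nX nY thr : ℕ) (neg : Bool)
    (N : ℕ) (hb : 2 * H + (st * nT + sx * nX) + (sy * nY + 2) ≤ 2 ^ b)
    (ha : wt g a w1 (max (st * nT) 1) (max (sx * nX) 1) (max (sy * nY) 1) ≤ H)
    (hN : cond neg (-(N : ℤ)) N =
      ev g a ((2 : ℤ) ^ (b * (g.y + 1) * (g.x + 1))) (2 ^ (b * (g.y + 1))) (2 ^ b))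
    (h : grid (Pk.mk' b H g) st sx sy nT nX nY thr neg N = true)
    (i j k : ℤ) (hi : |i| ≤ nT) (hj : |j| ≤ nX) (hk : |k| ≤ nY) :
    (thr : ℤ) ≤ ev g a ((st : ℤ) * i) (sx * j) (sy * k) := by
  set F3 : Bool → ℕ → Bool := fun s3 v => cond s3 false (Nat.ble thr v) with hF3
  set F2 : Bool → ℕ → Bool := fun s2 B => lp H sy F3 s2 B (2 * nY) (2 ^ b + sy * nY) with hF2
  set F1 : Bool → ℕ → Bool := fun s1 A => lp (H * 2 ^ (b * g.y)) sx F2 s1 A (2 * nX)
    (2 ^ (b * (g.y + 1)) + sx * nX) with hF1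
  have hgrid : lp (H * 2 ^ (b * g.y) * 2 ^ (b * (g.y + 1) * g.x)) st F1 neg N (2 * nT)
      (2 ^ (b * (g.y + 1) * (g.x + 1)) + st * nT) = true := by
    have e1 : Nat.shiftLeft H (Nat.mul b g.y) = H * 2 ^ (b * g.y) := Nat.shiftLeft_eq _ _
    have e2 : Nat.shiftLeft (Nat.shiftLeft H (Nat.mul b g.y)) (Nat.mul (Nat.mul b (Nat.succ g.y)) g.x) =
        H * 2 ^ (b * g.y) * 2 ^ (b * (g.y + 1) * g.x) := by
      rw [e1]
      exact Nat.shiftLeft_eq _ _
    have h' : lp (Nat.shiftLeft (Nat.shiftLeft H (Nat.mul b g.y))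
        (Nat.mul (Nat.mul b (Nat.succ g.y)) g.x)) st
        (fun s1 A => lp (Nat.shiftLeft H (Nat.mul b g.y)) sx F2 s1 A (2 * nX)
          (2 ^ (b * (g.y + 1)) + sx * nX)) neg N (2 * nT)
          (2 ^ (b * (g.y + 1) * (g.x + 1)) + st * nT) = true := h
    rw [e2, e1] at h'
    exact h'
  have hX2 : ∀ c d e : ℕ, ∀ l, l ≤ d → (((2 : ℤ) ^ c).natAbs) ^ l ≤ (max e 1) ^ l * 2 ^ (c * d) := by
    intro c d e l hl
    have e1 : ((2 : ℤ) ^ c).natAbs = 2 ^ c := by
      rw [Int.natAbs_pow]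
      rfl
    rw [e1, ← pow_mul]
    calc 2 ^ (c * l) ≤ 2 ^ (c * d) := Nat.pow_le_pow_right (by norm_num) (Nat.mul_le_mul_left _ hl)
      _ = 1 * 2 ^ (c * d) := (one_mul _).symm
      _ ≤ (max e 1) ^ l * 2 ^ (c * d) := Nat.mul_le_mul_right _ (Nat.one_le_pow _ _ (by omega))
  have hX1 : ∀ (s n d : ℕ) (i : ℤ), |i| ≤ n → ∀ l, l ≤ d →
      (((s : ℤ) * i).natAbs) ^ l ≤ (max (s * n) 1) ^ l * 1 := by
    intro s n d i hi l _
    rw [mul_one]
    exact Nat.pow_le_pow_left (grid_pt s n i hi) _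
  have p1 : 1 ≤ 2 ^ (b * g.y) := Nat.one_le_two_pow
  have p2 : 1 ≤ 2 ^ (b * (g.y + 1) * g.x) := Nat.one_le_two_pow
  -- first level
  obtain ⟨neg1, h1, h2⟩ := lp_sound (H * 2 ^ (b * g.y) * 2 ^ (b * (g.y + 1) * g.x)) st F1 neg N nT
    (b * (g.y + 1) * (g.x + 1)) (by
      have e1 : 2 ^ (b * (g.y + 1) * (g.x + 1)) = 2 ^ b * (2 ^ (b * g.y) * 2 ^ (b * (g.y + 1) * g.x)) := by
        rw [← pow_add, ← pow_add]
        congr 1
        ring
      rw [e1]
      have p3 : 1 ≤ 2 ^ (b * g.y) * 2 ^ (b * (g.y + 1) * g.x) := Nat.mul_pos p1 p2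
      calc 2 * (H * 2 ^ (b * g.y) * 2 ^ (b * (g.y + 1) * g.x)) + st * nT
          ≤ 2 * (H * 2 ^ (b * g.y) * 2 ^ (b * (g.y + 1) * g.x)) +
            st * nT * (2 ^ (b * g.y) * 2 ^ (b * (g.y + 1) * g.x)) := by
            have := Nat.mul_le_mul_left (st * nT) p3
            omega
        _ = (2 * H + st * nT) * (2 ^ (b * g.y) * 2 ^ (b * (g.y + 1) * g.x)) := by ring
        _ < 2 ^ b * (2 ^ (b * g.y) * 2 ^ (b * (g.y + 1) * g.x)) :=
          Nat.mul_lt_mul_of_pos_right (by omega) p3) hgrid i hi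
    (ev g a ((st : ℤ) * i) (2 ^ (b * (g.y + 1))) (2 ^ b)) (by
      refine (ev_natAbs g a _ _ _ _ _ _ _ _ (grid_pt st nT i hi) (hX2 (b * (g.y + 1)) g.x (sx * nX))
        (hX2 b g.y (sy * nY))).trans ?_
      rw [← mul_assoc]
      exact Nat.mul_le_mul_right _ (Nat.mul_le_mul_right _ ha)) (by
      rw [hN]
      exact ev_dvd_T g a _ _ _ _)
  -- second level
  obtain ⟨neg2, h3, h4⟩ := lp_sound (H * 2 ^ (b * g.y)) sx F2 neg1 _ nX (b * (g.y + 1)) (by
      have e1 : 2 ^ (b * (g.y + 1)) = 2 ^ b * 2 ^ (b * g.y) := by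
        rw [← pow_add]
        congr 1
        ring
      rw [e1]
      calc 2 * (H * 2 ^ (b * g.y)) + sx * nX
          ≤ 2 * (H * 2 ^ (b * g.y)) + sx * nX * 2 ^ (b * g.y) := by
            have := Nat.mul_le_mul_left (sx * nX) p1
            omega
        _ = (2 * H + sx * nX) * 2 ^ (b * g.y) := by ring
        _ < 2 ^ b * 2 ^ (b * g.y) := Nat.mul_lt_mul_of_pos_right (by omega) p1) h2 j hj
    (ev g a ((st : ℤ) * i) (sx * j) (2 ^ b)) (by
      refine (ev_natAbs g a _ _ _ _ _ _ _ _ (grid_pt st nT i hi) (hX1 sx nX g.x j hj)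
        (hX2 b g.y (sy * nY))).trans ?_
      rw [mul_one]
      exact Nat.mul_le_mul_right _ ha) (by
      rw [h1]
      exact ev_dvd_X g a _ _ _ _)
  -- third level
  obtain ⟨neg3, h5, h6⟩ := lp_sound H sy F3 neg2 _ nY b (by omega) h4 k hk
    (ev g a ((st : ℤ) * i) (sx * j) (sy * k)) (by
      refine (ev_natAbs g a _ _ _ _ _ _ _ _ (grid_pt st nT i hi) (hX1 sx nX g.x j hj)
        (hX1 sy nY g.y k hk)).trans ?_
      rw [mul_one, mul_one]
      exact ha) (by
      rw [h3]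
      exact ev_dvd_Y g a _ _ _ _)
  cases neg3
  · have h7 : thr ≤ (ev g a ((st : ℤ) * i) (sx * j) (sy * k)).natAbs := Nat.le_of_ble_eq_true h6
    have h8 : (((ev g a ((st : ℤ) * i) (sx * j) (sy * k)).natAbs : ℕ) : ℤ) =
      ev g a ((st : ℤ) * i) (sx * j) (sy * k) := h5
    rw [← h8]
    exact_mod_cast h7
  · exact absurd h6 Bool.false_ne_true

end Pool.H47.K3
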