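import Pool.Agent.H47.K3.Ev
import Pool.Agent.H47.K3.Fast

/-! # Tay: values and second Taylor coefficients by residues

`(m + R)^i = R^i + i R^(i-1) m + C(i,2) R^(i-2) m^2 + m^3 q` (induction on `i`), hence for
`N = Σ c_i (m + R)^i` and `A0 = Σ c_i R^i`, `A1 = Σ i c_i R^(i-1)`, `A2 = Σ C(i,2) c_i R^(i-2)`, all
`< m`: `N mod m = A0` and `(N mod m^3) / m^2 = A2`.  Three levels (`x` outermost, `y`, `t`): the
polynomial in `X` has the coefficients `Σ_k Σ_i |a_ijk| T^i Y^k` with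
`A0, A1, A2 ≤ K H T^(g.t) Y^(g.y)`, `K = g.t^2 + g.x^2 + g.y^2 + 2`, etc. -/

set_option autoImplicit false

namespace Pool.H47.K3

open Pool.H47.Kc Finset

private theorem Tay_pow (m R : ℕ) (i : ℕ) :
    ∃ q, (m + R) ^ i = R ^ i + m * (i * R ^ (i - 1)) + m ^ 2 * (i.choose 2 * R ^ (i - 2)) +
      m ^ 3 * q := by
  induction i with
  | zero => exact ⟨0, by simp⟩
  | succ i ih =>
    obtain ⟨q, hq⟩ := ih
    have h1 : i * R ^ (i - 1) * R = i * R ^ i := by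
      rcases i with _ | i
      · simp
      · simp only [Nat.add_sub_cancel, pow_succ]; ring
    have h2 : i.choose 2 * R ^ (i - 2) * R = i.choose 2 * R ^ (i - 1) := by
      rcases i with _ | _ | i
      · simp
      · simp
      · have e1 : i + 1 + 1 - 2 = i := rfl
        have e2 : i + 1 + 1 - 1 = i + 1 := rfl
        rw [e1, e2, pow_succ]; ring
    have h3 : (i + 1).choose 2 = i + i.choose 2 := by
      rw [Nat.choose_succ_succ', Nat.choose_one_right]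
    refine ⟨i.choose 2 * R ^ (i - 2) + q * (m + R), ?_⟩
    have e1 : i + 1 - 1 = i := rfl
    have e2 : i + 1 - 2 = i - 1 := rfl
    rw [pow_succ, hq, h3, e1, e2]
    calc (R ^ i + m * (i * R ^ (i - 1)) + m ^ 2 * (i.choose 2 * R ^ (i - 2)) + m ^ 3 * q) * (m + R)
        = R ^ i * R + m * (R ^ i + i * R ^ (i - 1) * R) +
            m ^ 2 * (i * R ^ (i - 1) + i.choose 2 * R ^ (i - 2) * R) +
            m ^ 3 * (i.choose 2 * R ^ (i - 2) + q * (m + R)) := by ring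
      _ = _ := by rw [h1, h2]; ring

private theorem Tay_sum (c : ℕ → ℕ) (n m R : ℕ) :
    ∃ q, ∑ i ∈ range n, c i * (m + R) ^ i = ∑ i ∈ range n, c i * R ^ i +
      m * ∑ i ∈ range n, i * c i * R ^ (i - 1) +
      m ^ 2 * ∑ i ∈ range n, i.choose 2 * c i * R ^ (i - 2) + m ^ 3 * q := by
  choose q hq using Tay_pow m R
  refine ⟨∑ i ∈ range n, c i * q i, ?_⟩
  simp only [Finset.mul_sum, ← Finset.sum_add_distrib]
  refine Finset.sum_congr rfl fun i _ => ?_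
  rw [hq i]; ring

theorem r1_eq (c : ℕ → ℕ) (n m R : ℕ) (h0 : ∑ i ∈ range n, c i * R ^ i < m) :
    r1 m (∑ i ∈ range n, c i * (m + R) ^ i) = ∑ i ∈ range n, c i * R ^ i := by
  obtain ⟨q, hq⟩ := Tay_sum c n m R
  rw [hq]
  generalize ∑ i ∈ range n, i * c i * R ^ (i - 1) = S1
  generalize ∑ i ∈ range n, i.choose 2 * c i * R ^ (i - 2) = S2
  generalize ∑ i ∈ range n, c i * R ^ i = S0 at h0
  change (S0 + m * S1 + m ^ 2 * S2 + m ^ 3 * q) % m = S0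
  have h : S0 + m * S1 + m ^ 2 * S2 + m ^ 3 * q = S0 + m * (S1 + m * S2 + m ^ 2 * q) := by ring
  rw [h, Nat.add_mul_mod_self_left, Nat.mod_eq_of_lt h0]

theorem r2_eq (c : ℕ → ℕ) (n m R : ℕ) (h0 : ∑ i ∈ range n, c i * R ^ i < m)
    (h1 : ∑ i ∈ range n, i * c i * R ^ (i - 1) < m)
    (h2 : ∑ i ∈ range n, i.choose 2 * c i * R ^ (i - 2) < m) :
    r2 m (∑ i ∈ range n, c i * (m + R) ^ i) = ∑ i ∈ range n, i.choose 2 * c i * R ^ (i - 2) := by
  obtain ⟨q, hq⟩ := Tay_sum c n m R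
  rw [hq]
  generalize ∑ i ∈ range n, i * c i * R ^ (i - 1) = S1 at h1
  generalize ∑ i ∈ range n, i.choose 2 * c i * R ^ (i - 2) = S2 at h2
  generalize ∑ i ∈ range n, c i * R ^ i = S0 at h0
  change (S0 + m * S1 + m ^ 2 * S2 + m ^ 3 * q) % (m * (m * m)) / (m * m) = S2
  have h : S0 + m * S1 + m ^ 2 * S2 + m ^ 3 * q = (S0 + m * S1 + (m * m) * S2) + (m * (m * m)) * q := by
    ring
  have hA : S0 + m * S1 < m * m := by
    have : m * (S1 + 1) ≤ m * m := Nat.mul_le_mul_left m h1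
    rw [Nat.mul_add] at this
    omega
  have hB : S0 + m * S1 + (m * m) * S2 < m * (m * m) := by
    have : (m * m) * (S2 + 1) ≤ (m * m) * m := Nat.mul_le_mul_left _ h2
    rw [Nat.mul_add] at this
    have e : m * m * m = m * (m * m) := by ring
    omega
  have hm : 0 < m * m := by omega
  rw [h, Nat.add_mul_mod_self_left, Nat.mod_eq_of_lt hB, Nat.add_mul_div_left _ _ hm,
    Nat.div_eq_of_lt hA, Nat.zero_add]

/-- second Taylor coefficients in the three directions -/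
def dT (g : Dg) (a : ℕ → ℕ → ℕ → ℤ) (RT RX RY : ℕ) : ℕ :=
  ∑ i ∈ range (g.t + 1), ∑ j ∈ range (g.x + 1), ∑ k ∈ range (g.y + 1),
    i.choose 2 * (a i j k).natAbs * RT ^ (i - 2) * RX ^ j * RY ^ k

def dX (g : Dg) (a : ℕ → ℕ → ℕ → ℤ) (RT RX RY : ℕ) : ℕ :=
  ∑ i ∈ range (g.t + 1), ∑ j ∈ range (g.x + 1), ∑ k ∈ range (g.y + 1),
    j.choose 2 * (a i j k).natAbs * RT ^ i * RX ^ (j - 2) * RY ^ k

def dY (g : Dg) (a : ℕ → ℕ → ℕ → ℤ) (RT RX RY : ℕ) : ℕ :=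
  ∑ i ∈ range (g.t + 1), ∑ j ∈ range (g.x + 1), ∑ k ∈ range (g.y + 1),
    k.choose 2 * (a i j k).natAbs * RT ^ i * RX ^ j * RY ^ (k - 2)

/-- sum with separate weights in the three directions -/
private def TayS (g : Dg) (a : ℕ → ℕ → ℕ → ℤ) (u v w : ℕ → ℕ) : ℕ :=
  ∑ i ∈ range (g.t + 1), ∑ j ∈ range (g.x + 1), ∑ k ∈ range (g.y + 1),
    (a i j k).natAbs * (u i * (v j * w k))

private def Tayp (R : ℕ) (i : ℕ) : ℕ := R ^ i
private def Tayq (R : ℕ) (i : ℕ) : ℕ := i * R ^ (i - 1)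
private def Tayc (R : ℕ) (i : ℕ) : ℕ := i.choose 2 * R ^ (i - 2)

private theorem TayS_T (g : Dg) (a : ℕ → ℕ → ℕ → ℤ) (f v w : ℕ → ℕ) :
    TayS g a f v w = ∑ i ∈ range (g.t + 1),
      (∑ j ∈ range (g.x + 1), ∑ k ∈ range (g.y + 1), (a i j k).natAbs * (v j * w k)) * f i := by
  unfold TayS
  refine Finset.sum_congr rfl fun i _ => ?_
  rw [Finset.sum_mul]
  refine Finset.sum_congr rfl fun j _ => ?_
  rw [Finset.sum_mul]
  refine Finset.sum_congr rfl fun k _ => ?_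
  ring

private theorem TayS_X (g : Dg) (a : ℕ → ℕ → ℕ → ℤ) (u f w : ℕ → ℕ) :
    TayS g a u f w = ∑ j ∈ range (g.x + 1),
      (∑ i ∈ range (g.t + 1), ∑ k ∈ range (g.y + 1), (a i j k).natAbs * (u i * w k)) * f j := by
  unfold TayS
  rw [Finset.sum_comm]
  refine Finset.sum_congr rfl fun j _ => ?_
  rw [Finset.sum_mul]
  refine Finset.sum_congr rfl fun i _ => ?_
  rw [Finset.sum_mul]
  refine Finset.sum_congr rfl fun k _ => ?_
  ring

private theorem TayS_Y (g : Dg) (a : ℕ → ℕ → ℕ → ℤ) (u v f : ℕ → ℕ) :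
    TayS g a u v f = ∑ k ∈ range (g.y + 1),
      (∑ i ∈ range (g.t + 1), ∑ j ∈ range (g.x + 1), (a i j k).natAbs * (u i * v j)) * f k := by
  unfold TayS
  have h : ∀ i ∈ range (g.t + 1), (∑ j ∈ range (g.x + 1), ∑ k ∈ range (g.y + 1),
      (a i j k).natAbs * (u i * (v j * f k))) = ∑ k ∈ range (g.y + 1), ∑ j ∈ range (g.x + 1),
      (a i j k).natAbs * (u i * (v j * f k)) := fun i _ => Finset.sum_comm
  rw [Finset.sum_congr rfl h, Finset.sum_comm]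
  refine Finset.sum_congr rfl fun k _ => ?_
  rw [Finset.sum_mul]
  refine Finset.sum_congr rfl fun i _ => ?_
  rw [Finset.sum_mul]
  refine Finset.sum_congr rfl fun j _ => ?_
  ring

private theorem Tay_g1 (c : ℕ → ℕ) (n m R : ℕ) (h0 : ∑ i ∈ range n, c i * Tayp R i < m) :
    r1 m (∑ i ∈ range n, c i * Tayp (m + R) i) = ∑ i ∈ range n, c i * Tayp R i := r1_eq c n m R h0

private theorem Tay_g2 (c : ℕ → ℕ) (n m R : ℕ) (h0 : ∑ i ∈ range n, c i * Tayp R i < m)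
    (h1 : ∑ i ∈ range n, c i * Tayq R i < m) (h2 : ∑ i ∈ range n, c i * Tayc R i < m) :
    r2 m (∑ i ∈ range n, c i * Tayp (m + R) i) = ∑ i ∈ range n, c i * Tayc R i := by
  have e1 : ∑ i ∈ range n, c i * Tayq R i = ∑ i ∈ range n, i * c i * R ^ (i - 1) :=
    Finset.sum_congr rfl fun i _ => by unfold Tayq; ring
  have e2 : ∑ i ∈ range n, c i * Tayc R i = ∑ i ∈ range n, i.choose 2 * c i * R ^ (i - 2) :=
    Finset.sum_congr rfl fun i _ => by unfold Tayc; ring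
  rw [e1] at h1
  rw [e2] at h2 ⊢
  exact r2_eq c n m R h0 h1 h2

private theorem Tay_bd (g : Dg) (a : ℕ → ℕ → ℕ → ℤ) (H A B C U V W : ℕ) (u v w : ℕ → ℕ)
    (hH : TayS g a (Tayp A) (Tayp B) (Tayp C) ≤ H)
    (hu : ∀ i ≤ g.t, u i ≤ U * A ^ i) (hv : ∀ j ≤ g.x, v j ≤ V * B ^ j)
    (hw : ∀ k ≤ g.y, w k ≤ W * C ^ k) :
    TayS g a u v w ≤ U * (V * W) * H := by
  refine le_trans ?_ (Nat.mul_le_mul_left _ hH)
  unfold TayS Tayp
  simp only [Finset.mul_sum]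
  refine Finset.sum_le_sum fun i hi => Finset.sum_le_sum fun j hj => Finset.sum_le_sum fun k hk => ?_
  have h1 := hu i (by have := Finset.mem_range.1 hi; omega)
  have h2 := hv j (by have := Finset.mem_range.1 hj; omega)
  have h3 := hw k (by have := Finset.mem_range.1 hk; omega)
  calc (a i j k).natAbs * (u i * (v j * w k))
      ≤ (a i j k).natAbs * ((U * A ^ i) * ((V * B ^ j) * (W * C ^ k))) :=
        Nat.mul_le_mul_left _ (Nat.mul_le_mul h1 (Nat.mul_le_mul h2 h3))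
    _ = U * (V * W) * ((a i j k).natAbs * (A ^ i * (B ^ j * C ^ k))) := by ring

private theorem Tay_p1 (R i : ℕ) : Tayp R i ≤ 1 * (max R 1) ^ i := by
  rw [one_mul]; exact Nat.pow_le_pow_left (le_max_left _ _) i

private theorem Tay_q1 (R n i : ℕ) (hi : i ≤ n) : Tayq R i ≤ (n * n) * (max R 1) ^ i := by
  unfold Tayq
  have h1 : i ≤ n * n := by
    rcases Nat.eq_zero_or_pos n with h | h
    · subst h; omega
    · exact hi.trans (Nat.le_mul_of_pos_left n h)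
  have h2 : R ^ (i - 1) ≤ (max R 1) ^ i :=
    (Nat.pow_le_pow_left (le_max_left _ _) _).trans
      (Nat.pow_le_pow_right (by positivity) (by omega))
  exact Nat.mul_le_mul h1 h2

private theorem Tay_c1 (R n i : ℕ) (hi : i ≤ n) : Tayc R i ≤ (n * n) * (max R 1) ^ i := by
  unfold Tayc
  have h1 : i.choose 2 ≤ n * n := by
    rw [Nat.choose_two_right]
    calc i * (i - 1) / 2 ≤ i * (i - 1) := Nat.div_le_self _ _
      _ ≤ n * n := Nat.mul_le_mul hi ((Nat.sub_le i 1).trans hi)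
  have h2 : R ^ (i - 2) ≤ (max R 1) ^ i :=
    (Nat.pow_le_pow_left (le_max_left _ _) _).trans
      (Nat.pow_le_pow_right (by positivity) (by omega))
  exact Nat.mul_le_mul h1 h2

private theorem Tay_P1 (T R n i : ℕ) (hT : 0 < T) (hi : i ≤ n) :
    Tayp T i ≤ T ^ n * (max R 1) ^ i := by
  unfold Tayp
  calc T ^ i ≤ T ^ n := Nat.pow_le_pow_right hT hi
    _ = T ^ n * 1 := (mul_one _).symm
    _ ≤ T ^ n * (max R 1) ^ i := Nat.mul_le_mul_left _ (Nat.one_le_pow _ _ (by positivity))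

private theorem Tay_rX1 (g : Dg) (a : ℕ → ℕ → ℕ → ℤ) (u w : ℕ → ℕ) (m R : ℕ)
    (h0 : TayS g a u (Tayp R) w < m) :
    r1 m (TayS g a u (Tayp (m + R)) w) = TayS g a u (Tayp R) w := by
  rw [TayS_X] at h0
  rw [TayS_X, TayS_X]
  exact Tay_g1 _ _ _ _ h0

private theorem Tay_rX2 (g : Dg) (a : ℕ → ℕ → ℕ → ℤ) (u w : ℕ → ℕ) (m R : ℕ)
    (h0 : TayS g a u (Tayp R) w < m) (h1 : TayS g a u (Tayq R) w < m)
    (h2 : TayS g a u (Tayc R) w < m) :
    r2 m (TayS g a u (Tayp (m + R)) w) = TayS g a u (Tayc R) w := by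
  rw [TayS_X] at h0 h1 h2
  rw [TayS_X, TayS_X]
  exact Tay_g2 _ _ _ _ h0 h1 h2

private theorem Tay_rY1 (g : Dg) (a : ℕ → ℕ → ℕ → ℤ) (u v : ℕ → ℕ) (m R : ℕ)
    (h0 : TayS g a u v (Tayp R) < m) :
    r1 m (TayS g a u v (Tayp (m + R))) = TayS g a u v (Tayp R) := by
  rw [TayS_Y] at h0
  rw [TayS_Y, TayS_Y]
  exact Tay_g1 _ _ _ _ h0

private theorem Tay_rY2 (g : Dg) (a : ℕ → ℕ → ℕ → ℤ) (u v : ℕ → ℕ) (m R : ℕ)
    (h0 : TayS g a u v (Tayp R) < m) (h1 : TayS g a u v (Tayq R) < m)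
    (h2 : TayS g a u v (Tayc R) < m) :
    r2 m (TayS g a u v (Tayp (m + R))) = TayS g a u v (Tayc R) := by
  rw [TayS_Y] at h0 h1 h2
  rw [TayS_Y, TayS_Y]
  exact Tay_g2 _ _ _ _ h0 h1 h2

private theorem Tay_rT1 (g : Dg) (a : ℕ → ℕ → ℕ → ℤ) (v w : ℕ → ℕ) (m R : ℕ)
    (h0 : TayS g a (Tayp R) v w < m) :
    r1 m (TayS g a (Tayp (m + R)) v w) = TayS g a (Tayp R) v w := by
  rw [TayS_T] at h0
  rw [TayS_T, TayS_T]
  exact Tay_g1 _ _ _ _ h0

private theorem Tay_rT2 (g : Dg) (a : ℕ → ℕ → ℕ → ℤ) (v w : ℕ → ℕ) (m R : ℕ)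
    (h0 : TayS g a (Tayp R) v w < m) (h1 : TayS g a (Tayq R) v w < m)
    (h2 : TayS g a (Tayc R) v w < m) :
    r2 m (TayS g a (Tayp (m + R)) v w) = TayS g a (Tayc R) v w := by
  rw [TayS_T] at h0 h1 h2
  rw [TayS_T, TayS_T]
  exact Tay_g2 _ _ _ _ h0 h1 h2

theorem tay (g : Dg) (a : ℕ → ℕ → ℕ → ℤ) (b H RT RX RY : ℕ)
    (hb : (g.t * g.t + g.x * g.x + (g.y * g.y + 2)) * H + ((RT + RX) + (RY + 2)) ≤ 2 ^ b)
    (ha : wt g a w1 (max RT 1) (max RX 1) (max RY 1) ≤ H) (N m m' m'' : ℕ)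
    (hN : N = wt g a w1 (2 ^ b) (2 ^ (b * (g.t + 1) * (g.y + 1))) (2 ^ (b * (g.t + 1))))
    (hm : m = 2 ^ b - RT) (hm' : m' = 2 ^ (b * (g.t + 1)) - RY)
    (hm'' : m'' = 2 ^ (b * (g.t + 1) * (g.y + 1)) - RX) :
    r1 m (r1 m' (r1 m'' N)) = wt g a w1 RT RX RY ∧ r2 m (r1 m' (r1 m'' N)) = dT g a RT RX RY ∧
      r1 m (r1 m' (r2 m'' N)) = dX g a RT RX RY ∧ r1 m (r2 m' (r1 m'' N)) = dY g a RT RX RY := by
  have eW : ∀ T X Y : ℕ, wt g a w1 T X Y = TayS g a (Tayp T) (Tayp X) (Tayp Y) := by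
    intro T X Y
    unfold wt w1 TayS Tayp
    refine Finset.sum_congr rfl fun i _ => Finset.sum_congr rfl fun j _ =>
      Finset.sum_congr rfl fun k _ => ?_
    ring
  have eT : dT g a RT RX RY = TayS g a (Tayc RT) (Tayp RX) (Tayp RY) := by
    unfold dT TayS Tayp Tayc
    refine Finset.sum_congr rfl fun i _ => Finset.sum_congr rfl fun j _ =>
      Finset.sum_congr rfl fun k _ => ?_
    ring
  have eX : dX g a RT RX RY = TayS g a (Tayp RT) (Tayc RX) (Tayp RY) := by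
    unfold dX TayS Tayp Tayc
    refine Finset.sum_congr rfl fun i _ => Finset.sum_congr rfl fun j _ =>
      Finset.sum_congr rfl fun k _ => ?_
    ring
  have eY : dY g a RT RX RY = TayS g a (Tayp RT) (Tayp RX) (Tayc RY) := by
    unfold dY TayS Tayp Tayc
    refine Finset.sum_congr rfl fun i _ => Finset.sum_congr rfl fun j _ =>
      Finset.sum_congr rfl fun k _ => ?_
    ring
  rw [eW] at ha hN
  rw [eW, eT, eX, eY]
  set T := 2 ^ b with hT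
  set Y := 2 ^ (b * (g.t + 1)) with hY
  set X := 2 ^ (b * (g.t + 1) * (g.y + 1)) with hX
  have hT0 : 0 < T := by positivity
  have hY0 : 0 < Y := by positivity
  have eYT : Y = T ^ g.t * T := by
    rw [hY, hT, ← pow_mul, ← pow_add]
    ring_nf
  have eXT : X = T ^ g.t * Y ^ g.y * T := by
    have e : X = Y ^ g.y * Y := by
      rw [hX, hY, ← pow_mul, ← pow_add]
      ring_nf
    rw [e, eYT]; ring
  have hTg : 1 ≤ T ^ g.t := Nat.one_le_pow _ _ hT0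
  have hYg : 1 ≤ Y ^ g.y := Nat.one_le_pow _ _ hY0
  set K := g.t * g.t + g.x * g.x + (g.y * g.y + 2) with hK
  have l3 : ∀ c ≤ K, c * H < m := by
    intro c hc
    have h := Nat.mul_le_mul_right H hc
    omega
  have l2 : ∀ c ≤ K, T ^ g.t * c * H < m' := by
    intro c hc
    have h := Nat.mul_le_mul_left (T ^ g.t) (Nat.mul_le_mul_right H hc)
    have h2 := Nat.mul_le_mul_left (T ^ g.t) hb
    rw [← eYT, Nat.mul_add] at h2
    have h3 := Nat.mul_le_mul_right ((RT + RX) + (RY + 2)) hTg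
    rw [one_mul] at h3
    rw [mul_assoc]
    omega
  have l1 : ∀ c ≤ K, T ^ g.t * Y ^ g.y * c * H < m'' := by
    intro c hc
    have h := Nat.mul_le_mul_left (T ^ g.t * Y ^ g.y) (Nat.mul_le_mul_right H hc)
    have h2 := Nat.mul_le_mul_left (T ^ g.t * Y ^ g.y) hb
    rw [← eXT, Nat.mul_add] at h2
    have h3 := Nat.mul_le_mul_right ((RT + RX) + (RY + 2)) (Nat.mul_le_mul hTg hYg)
    rw [one_mul, one_mul] at h3
    rw [mul_assoc]
    omega
  have hTm : T = m + RT := by omega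
  have hYm : Y = m' + RY := by
    have := l2 0 (Nat.zero_le _)
    omega
  have hXm : X = m'' + RX := by
    have := l1 0 (Nat.zero_le _)
    omega
  -- bounds of the weights
  have pT : ∀ i ≤ g.t, Tayp RT i ≤ 1 * (max RT 1) ^ i := fun i _ => Tay_p1 RT i
  have pX : ∀ i ≤ g.x, Tayp RX i ≤ 1 * (max RX 1) ^ i := fun i _ => Tay_p1 RX i
  have pY : ∀ i ≤ g.y, Tayp RY i ≤ 1 * (max RY 1) ^ i := fun i _ => Tay_p1 RY i
  have qT : ∀ i ≤ g.t, Tayq RT i ≤ (g.t * g.t) * (max RT 1) ^ i := fun i hi => Tay_q1 RT _ i hi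
  have qX : ∀ i ≤ g.x, Tayq RX i ≤ (g.x * g.x) * (max RX 1) ^ i := fun i hi => Tay_q1 RX _ i hi
  have qY : ∀ i ≤ g.y, Tayq RY i ≤ (g.y * g.y) * (max RY 1) ^ i := fun i hi => Tay_q1 RY _ i hi
  have cT : ∀ i ≤ g.t, Tayc RT i ≤ (g.t * g.t) * (max RT 1) ^ i := fun i hi => Tay_c1 RT _ i hi
  have cX : ∀ i ≤ g.x, Tayc RX i ≤ (g.x * g.x) * (max RX 1) ^ i := fun i hi => Tay_c1 RX _ i hi
  have cY : ∀ i ≤ g.y, Tayc RY i ≤ (g.y * g.y) * (max RY 1) ^ i := fun i hi => Tay_c1 RY _ i hi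
  have PT : ∀ i ≤ g.t, Tayp T i ≤ T ^ g.t * (max RT 1) ^ i := fun i hi => Tay_P1 T RT _ i hT0 hi
  have PY : ∀ i ≤ g.y, Tayp Y i ≤ Y ^ g.y * (max RY 1) ^ i := fun i hi => Tay_P1 Y RY _ i hY0 hi
  have B := fun (U V W : ℕ) (u v w : ℕ → ℕ) => Tay_bd g a H _ _ _ U V W u v w ha
  -- level one
  have bX : ∀ (c : ℕ) (v : ℕ → ℕ), c ≤ K → (∀ j ≤ g.x, v j ≤ c * (max RX 1) ^ j) →
      TayS g a (Tayp T) v (Tayp Y) < m'' := by
    intro c v hc hv
    refine lt_of_le_of_lt (B _ _ _ _ _ _ PT hv PY) ?_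
    have := l1 c hc
    calc T ^ g.t * (c * Y ^ g.y) * H = T ^ g.t * Y ^ g.y * c * H := by ring
      _ < m'' := this
  have k1 : 1 ≤ K := by omega
  have kx : g.x * g.x ≤ K := by omega
  have ky : g.y * g.y ≤ K := by omega
  have kt : g.t * g.t ≤ K := by omega
  have s1 : r1 m'' N = TayS g a (Tayp T) (Tayp RX) (Tayp Y) := by
    rw [hN, hXm]
    exact Tay_rX1 g a _ _ _ _ (bX 1 _ k1 pX)
  have s2 : r2 m'' N = TayS g a (Tayp T) (Tayc RX) (Tayp Y) := by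
    rw [hN, hXm]
    exact Tay_rX2 g a _ _ _ _ (bX 1 _ k1 pX) (bX _ _ kx qX) (bX _ _ kx cX)
  -- level two
  have bY : ∀ (c d : ℕ) (v w : ℕ → ℕ), c * d ≤ K → (∀ j ≤ g.x, v j ≤ c * (max RX 1) ^ j) →
      (∀ j ≤ g.y, w j ≤ d * (max RY 1) ^ j) → TayS g a (Tayp T) v w < m' := by
    intro c d v w hc hv hw
    refine lt_of_le_of_lt (B _ _ _ _ _ _ PT hv hw) ?_
    exact l2 (c * d) hc
  have s11 : r1 m' (r1 m'' N) = TayS g a (Tayp T) (Tayp RX) (Tayp RY) := by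
    rw [s1, hYm]
    exact Tay_rY1 g a _ _ _ _ (bY 1 1 _ _ (by omega) pX pY)
  have s21 : r1 m' (r2 m'' N) = TayS g a (Tayp T) (Tayc RX) (Tayp RY) := by
    rw [s2, hYm]
    exact Tay_rY1 g a _ _ _ _ (bY _ 1 _ _ (by omega) cX pY)
  have s12 : r2 m' (r1 m'' N) = TayS g a (Tayp T) (Tayp RX) (Tayc RY) := by
    rw [s1, hYm]
    exact Tay_rY2 g a _ _ _ _ (bY 1 1 _ _ (by omega) pX pY) (bY 1 _ _ _ (by omega) pX qY)
      (bY 1 _ _ _ (by omega) pX cY)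
  -- level three
  have bT : ∀ (b' c d : ℕ) (u v w : ℕ → ℕ), b' * (c * d) ≤ K →
      (∀ j ≤ g.t, u j ≤ b' * (max RT 1) ^ j) → (∀ j ≤ g.x, v j ≤ c * (max RX 1) ^ j) →
      (∀ j ≤ g.y, w j ≤ d * (max RY 1) ^ j) → TayS g a u v w < m := by
    intro b' c d u v w hc hu hv hw
    exact lt_of_le_of_lt (B _ _ _ _ _ _ hu hv hw) (l3 _ hc)
  refine ⟨?_, ?_, ?_, ?_⟩
  · rw [s11, hTm]
    exact Tay_rT1 g a _ _ _ _ (bT 1 1 1 _ _ _ (by omega) pT pX pY)
  · rw [s11, hTm]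
    exact Tay_rT2 g a _ _ _ _ (bT 1 1 1 _ _ _ (by omega) pT pX pY)
      (bT _ 1 1 _ _ _ (by omega) qT pX pY) (bT _ 1 1 _ _ _ (by omega) cT pX pY)
  · rw [s21, hTm]
    exact Tay_rT1 g a _ _ _ _ (bT 1 _ 1 _ _ _ (by omega) pT cX pY)
  · rw [s12, hTm]
    exact Tay_rT1 g a _ _ _ _ (bT 1 1 _ _ _ _ (by omega) pT pX cY)

end Pool.H47.K3
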