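import Pool.Agent.H47.K3.Poly
import Pool.Agent.H47.K3.Abs
import Pool.Agent.H47.K3.Tay
import Pool.Agent.H47.K3.Grid
import Pool.Agent.H47.K3.Ana
import Pool.Agent.H47.K3.Err

/-! # Chk: soundness of the checks -/

set_option autoImplicit false

namespace Pool.H47.K3

open Pool.H47.Kc Finset

private theorem Chk_pkh (tc eT bt : ℕ) (l : List Fx) :
    pkh tc eT bt l = horner2 (fxAlg2 (fun _ => ⟨0, 0⟩) ⟨0, 0⟩ ⟨0, 0⟩)
      ⟨iadd (Int.ofNat tc) (2 ^ bt), eT⟩ l := by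
  rw [horner2_eq]
  induction l with
  | nil => rfl
  | cons a l ih =>
    show Fx.add2 a ⟨hst tc bt (pkh tc eT bt l).n, Nat.add eT (pkh tc eT bt l).e⟩ =
      Fx.add2 ⟨a.n, a.e⟩ (Fx.mul2 ⟨iadd (Int.ofNat tc) (2 ^ bt), eT⟩
        (horner (fxAlg2 (fun _ => ⟨0, 0⟩) ⟨0, 0⟩ ⟨0, 0⟩) ⟨iadd (Int.ofNat tc) (2 ^ bt), eT⟩ l))
    rw [← ih, mul2_eq, iadd_eq, hst_eq]
    unfold Fx.mul
    rw [mul_comm]
    rfl

private theorem Chk_pk (U : U3) (V : V3) (S : ℕ → Sym) (g : Dg) :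
    pk2 U V S g = (zz U V).fx S (2 ^ U.b) (2 ^ (U.b * (g.t + 1) * (g.y + 1)))
      (2 ^ (U.b * (g.t + 1))) := by
  have h1 : (fun i => pkh U.tc U.eT U.b (S i).p) =
      fun i => horner2 (fxAlg2 (fun _ => ⟨0, 0⟩) ⟨0, 0⟩ ⟨0, 0⟩)
      ⟨iadd (Int.ofNat U.tc) (2 ^ U.b), U.eT⟩ (S i).p := by
    funext i
    exact Chk_pkh _ _ _ _
  have h2 : ∀ c k : ℕ, Int.ofNat (Nat.add c (Nat.pow 2 k)) = iadd (Int.ofNat c) (2 ^ k) := by
    intro c k
    rw [iadd_eq]
    show ((c + 2 ^ k : ℕ) : ℤ) = (c : ℤ) + 2 ^ k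
    push_cast
    rfl
  unfold pk2 Z3.fx
  rw [h1, h2, h2]
  rfl

private theorem Chk_cond {a b : Bool} (h : cond a b false = true) : a = true ∧ b = true := by
  cases a with
  | false => cases h
  | true => exact ⟨rfl, h⟩

private theorem Chk_wt_mono (g : Dg) (a : ℕ → ℕ → ℕ → ℤ) (w : ℕ → ℕ → ℕ → ℕ)
    {T X Y T' X' Y' : ℕ} (hT : T ≤ T') (hX : X ≤ X') (hY : Y ≤ Y') :
    wt g a w T X Y ≤ wt g a w T' X' Y' := by
  unfold wt
  refine sum_le_sum fun i _ => sum_le_sum fun j _ => sum_le_sum fun k _ => ?_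
  exact Nat.mul_le_mul (Nat.mul_le_mul (Nat.mul_le_mul le_rfl (Nat.pow_le_pow_left hT _))
    (Nat.pow_le_pow_left hX _)) (Nat.pow_le_pow_left hY _)

/-- permuted variables: `x` outermost, `y`, `t` -/
private def Chk_g (g : Dg) : Dg := ⟨g.x, g.y, g.t⟩

private def Chk_a (a : ℕ → ℕ → ℕ → ℤ) (j k i : ℕ) : ℤ := a i j k

private theorem Chk_sum {M : Type} [AddCommMonoid M] (A B C : Finset ℕ) (F : ℕ → ℕ → ℕ → M) :
    ∑ j ∈ B, ∑ k ∈ C, ∑ i ∈ A, F i j k = ∑ i ∈ A, ∑ j ∈ B, ∑ k ∈ C, F i j k := by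
  have h1 : ∀ j ∈ B, ∑ k ∈ C, ∑ i ∈ A, F i j k = ∑ i ∈ A, ∑ k ∈ C, F i j k :=
    fun j _ => sum_comm
  rw [sum_congr rfl h1, sum_comm]

private theorem Chk_ev (g : Dg) (a : ℕ → ℕ → ℕ → ℤ) (T X Y : ℤ) :
    ev (Chk_g g) (Chk_a a) X Y T = ev g a T X Y := by
  unfold ev Chk_g Chk_a
  refine (Chk_sum (range (g.t + 1)) (range (g.x + 1)) (range (g.y + 1))
    (fun i j k => ((a i j k : ℤ) : ℤ) * X ^ j * Y ^ k * T ^ i)).trans ?_
  refine sum_congr rfl fun i _ => sum_congr rfl fun j _ => sum_congr rfl fun k _ => ?_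
  simp only [Int.cast_id]
  ring

private theorem Chk_wt (g : Dg) (a : ℕ → ℕ → ℕ → ℤ) (T X Y : ℕ) :
    wt (Chk_g g) (Chk_a a) w1 X Y T = wt g a w1 T X Y := by
  unfold wt Chk_g Chk_a
  refine (Chk_sum (range (g.t + 1)) (range (g.x + 1)) (range (g.y + 1))
    (fun i j k => w1 j k i * (a i j k).natAbs * X ^ j * Y ^ k * T ^ i)).trans ?_
  refine sum_congr rfl fun i _ => sum_congr rfl fun j _ => sum_congr rfl fun k _ => ?_
  unfold w1
  ring

private theorem Chk_two (n R : ℕ) : n * (n - 1) * R ^ n = 2 * (R * R) * (n.choose 2 * R ^ (n - 2)) := by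
  rcases n with _ | _ | n
  · simp
  · simp
  · have h1 : (n + 2) * (n + 2 - 1) = 2 * (n + 2).choose 2 := by
      rw [Nat.choose_two_right]
      exact (Nat.mul_div_cancel' (Nat.even_mul_pred_self (n + 2)).two_dvd).symm
    rw [h1, show n + 2 - 2 = n from rfl, pow_add]
    ring

private theorem Chk_dT (g : Dg) (a : ℕ → ℕ → ℕ → ℤ) (RT RX RY : ℕ) :
    wt g a (fun i _ _ => i * (i - 1)) RT RX RY = 2 * (RT * RT) * dT g a RT RX RY := by
  unfold wt dT
  rw [mul_sum]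
  refine sum_congr rfl fun i _ => ?_
  rw [mul_sum]
  refine sum_congr rfl fun j _ => ?_
  rw [mul_sum]
  refine sum_congr rfl fun k _ => ?_
  have h := Chk_two i RT
  calc i * (i - 1) * (a i j k).natAbs * RT ^ i * RX ^ j * RY ^ k
      = i * (i - 1) * RT ^ i * ((a i j k).natAbs * RX ^ j * RY ^ k) := by ring
    _ = _ := by
      rw [h]
      ring

private theorem Chk_dX (g : Dg) (a : ℕ → ℕ → ℕ → ℤ) (RT RX RY : ℕ) :
    wt g a (fun _ j _ => j * (j - 1)) RT RX RY = 2 * (RX * RX) * dX g a RT RX RY := by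
  unfold wt dX
  rw [mul_sum]
  refine sum_congr rfl fun i _ => ?_
  rw [mul_sum]
  refine sum_congr rfl fun j _ => ?_
  rw [mul_sum]
  refine sum_congr rfl fun k _ => ?_
  have h := Chk_two j RX
  calc j * (j - 1) * (a i j k).natAbs * RT ^ i * RX ^ j * RY ^ k
      = j * (j - 1) * RX ^ j * ((a i j k).natAbs * RT ^ i * RY ^ k) := by ring
    _ = _ := by
      rw [h]
      ring

private theorem Chk_dY (g : Dg) (a : ℕ → ℕ → ℕ → ℤ) (RT RX RY : ℕ) :
    wt g a (fun _ _ k => k * (k - 1)) RT RX RY = 2 * (RY * RY) * dY g a RT RX RY := by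
  unfold wt dY
  rw [mul_sum]
  refine sum_congr rfl fun i _ => ?_
  rw [mul_sum]
  refine sum_congr rfl fun j _ => ?_
  rw [mul_sum]
  refine sum_congr rfl fun k _ => ?_
  have h := Chk_two k RY
  calc k * (k - 1) * (a i j k).natAbs * RT ^ i * RX ^ j * RY ^ k
      = k * (k - 1) * RY ^ k * ((a i j k).natAbs * RT ^ i * RX ^ j) := by ring
    _ = _ := by
      rw [h]
      ring

private theorem Chk_split (g : Dg) (a : ℕ → ℕ → ℕ → ℤ) (al be ga RT RX RY : ℕ) :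
    wt g a (fun i j k => al * (i * (i - 1)) + be * (j * (j - 1)) + ga * (k * (k - 1))) RT RX RY =
      al * wt g a (fun i _ _ => i * (i - 1)) RT RX RY +
      be * wt g a (fun _ j _ => j * (j - 1)) RT RX RY +
      ga * wt g a (fun _ _ k => k * (k - 1)) RT RX RY := by
  unfold wt
  rw [mul_sum, mul_sum, mul_sum, ← sum_add_distrib, ← sum_add_distrib]
  refine sum_congr rfl fun i _ => ?_
  rw [mul_sum, mul_sum, mul_sum, ← sum_add_distrib, ← sum_add_distrib]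
  refine sum_congr rfl fun j _ => ?_
  rw [mul_sum, mul_sum, mul_sum, ← sum_add_distrib, ← sum_add_distrib]
  refine sum_congr rfl fun k _ => ?_
  ring

private theorem Chk_sq (n : ℕ) : n * n ≤ sq1 n := by
  have h : sq1 n = max n 1 * max n 1 := by
    unfold sq1
    rw [mx_eq]
    rfl
  rw [h]
  exact Nat.mul_le_mul (le_max_left _ _) (le_max_left _ _)

private theorem Chk_toE (n E : ℕ) : (n : ℝ) / 2 ^ 60 * 2 ^ E ≤ (toE n E : ℝ) := by
  have h1 : toE n E = (n * 2 ^ E) / 2 ^ 60 + 1 := by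
    show Nat.succ (Nat.shiftRight (n * 2 ^ E) 60) = _
    rw [show Nat.shiftRight (n * 2 ^ E) 60 = (n * 2 ^ E) >>> 60 from rfl, Nat.shiftRight_eq_div_pow]
  have h2 : n * 2 ^ E ≤ 2 ^ 60 * toE n E := by
    rw [h1]
    exact (Nat.lt_mul_div_succ _ (by positivity)).le
  have h3 : ((n * 2 ^ E : ℕ) : ℝ) ≤ ((2 ^ 60 * toE n E : ℕ) : ℝ) := by exact_mod_cast h2
  push_cast at h3
  rw [div_mul_eq_mul_div, div_le_iff₀ (by positivity)]
  linarith

private theorem Chk_big (U : U3) (V : V3) (g : Dg) (H : ℕ) (h : big2 U V g H = true) :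
    (g.t * g.t + g.x * g.x + (g.y * g.y + 2)) * H +
      ((U.st * U.nT + V.sx * V.nX) + (V.sy * V.nY + 2)) ≤ 2 ^ U.b :=
  Nat.le_of_ble_eq_true h

/-- the consequences of `poly`, `absN_ev`, `tay` for one output -/
private theorem Chk_core (U : U3) (V : V3) (S : ℕ → Sym) (Q : Prg) (g : Dg) (k : ℕ)
    (hg : (Q.val (dgAlg S) k).le g = true) (hbig : big2 U V g (Q.val (mj2 U V S) k).n = true) :
    ∃ a : ℕ → ℕ → ℕ → ℤ,
      (Q.val (pk2 U V S g) k).n =
        ev g a (2 ^ U.b) (2 ^ (U.b * (g.t + 1) * (g.y + 1))) (2 ^ (U.b * (g.t + 1))) ∧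
      (∀ t x y : ℝ, (zz U V).Mem t x y → ∃ T X Y : ℝ, |T| ≤ (U.st * U.nT : ℕ) ∧
        |X| ≤ (V.sx * V.nX : ℕ) ∧ |Y| ≤ (V.sy * V.nY : ℕ) ∧
        Q.val (realAlg (nomF S t) x y) k * 2 ^ (Q.val (mj2 U V S) k).e = ev g a T X Y) ∧
      wt g a w1 (max (U.st * U.nT) 1) (max (V.sx * V.nX) 1) (max (V.sy * V.nY) 1) ≤
        (Q.val (mj2 U V S) k).n ∧
      r1 (mT U) (r1 (mY U V g) (r1 (mX U V g) (absN U.b (nd g) (Q.val (pk2 U V S g) k).n))) =
        wt g a w1 (U.st * U.nT) (V.sx * V.nX) (V.sy * V.nY) ∧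
      r2 (mT U) (r1 (mY U V g) (r1 (mX U V g) (absN U.b (nd g) (Q.val (pk2 U V S g) k).n))) =
        dT g a (U.st * U.nT) (V.sx * V.nX) (V.sy * V.nY) ∧
      r1 (mT U) (r1 (mY U V g) (r2 (mX U V g) (absN U.b (nd g) (Q.val (pk2 U V S g) k).n))) =
        dX g a (U.st * U.nT) (V.sx * V.nX) (V.sy * V.nY) ∧
      r1 (mT U) (r2 (mY U V g) (r1 (mX U V g) (absN U.b (nd g) (Q.val (pk2 U V S g) k).n))) =
        dY g a (U.st * U.nT) (V.sx * V.nX) (V.sy * V.nY) := by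
  obtain ⟨a, h1, h2, h3⟩ := poly (zz U V) S Q g k hg
  have hb := Chk_big U V g _ hbig
  have hmj : (zz U V).mj S = mj2 U V S := rfl
  rw [hmj] at h2 h3
  set H := (Q.val (mj2 U V S) k).n with hH
  have hpk := Chk_pk U V S g
  have hn : (Q.val (pk2 U V S g) k).n =
      ev g a (2 ^ U.b) (2 ^ (U.b * (g.t + 1) * (g.y + 1))) (2 ^ (U.b * (g.t + 1))) := by
    rw [hpk]
    exact (h1 _ _ _).1
  have h2H : 2 * H ≤ (g.t * g.t + g.x * g.x + (g.y * g.y + 2)) * H :=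
    Nat.mul_le_mul_right _ (by omega)
  have hlt : 2 * H < 2 ^ U.b := by omega
  have hb0 : 0 < U.b := by
    rcases Nat.eq_zero_or_pos U.b with h | h
    · rw [h] at hb
      omega
    · exact h
  have hw : wt g a w1 1 1 1 ≤ H :=
    (Chk_wt_mono g a w1 (le_max_right _ _) (le_max_right _ _) (le_max_right _ _)).trans h3
  have habs := absN_ev g a U.b H hb0 hlt hw
  rw [← hn] at habs
  have ht := tay g a U.b H (U.st * U.nT) (V.sx * V.nX) (V.sy * V.nY) hb h3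
    (absN U.b (nd g) (Q.val (pk2 U V S g) k).n) (mT U) (mY U V g) (mX U V g) habs rfl rfl rfl
  refine ⟨a, hn, ?_, h3, ht⟩
  intro t x y hz
  obtain ⟨hz1, hz2, hz3⟩ := hz
  refine ⟨t * 2 ^ U.eT - U.tc, x * 2 ^ V.eX - V.xc, y * 2 ^ V.eY - V.yc, ?_, ?_, ?_, ?_⟩
  · push_cast
    exact hz1
  · push_cast
    exact hz2
  · push_cast
    exact hz3
  · rw [← h2]
    have e : ∀ (v : ℝ) (c e : ℕ), ((c : ℝ) + (v * 2 ^ e - c)) / 2 ^ e = v := by
      intro v c e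
      rw [add_sub_cancel, mul_div_assoc, div_self (by positivity), mul_one]
    have e1 : (((zz U V).tc : ℝ) + (t * 2 ^ U.eT - U.tc)) / 2 ^ (zz U V).eT = t := e t U.tc U.eT
    have e2 : (((zz U V).xc : ℝ) + (x * 2 ^ V.eX - V.xc)) / 2 ^ (zz U V).eX = x := e x V.xc V.eX
    have e3 : (((zz U V).yc : ℝ) + (y * 2 ^ V.eY - V.yc)) / 2 ^ (zz U V).eY = y := e y V.yc V.eY
    rw [e1, e2, e3]

private theorem Chk_pos1 (U : U3) (V : V3) (S : ℕ → Sym) (Q : Prg) (g : Dg) (k d : ℕ)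
    (hg : (Q.val (dgAlg S) k).le g = true)
    (h : posV1 U V (Q.val (pk2 U V S g) k) (Q.val (mj2 U V S) k) g d = true)
    (t x y : ℝ) (hz : (zz U V).Mem t x y) :
    (d : ℝ) / 2 ^ 60 ≤ Q.val (realAlg (nomF S t) x y) k := by
  obtain ⟨h1, hgrid⟩ := Chk_cond h
  obtain ⟨hbig, -⟩ := Chk_cond h1
  obtain ⟨a, hn, hv, hH, h0, hT, hX, hY⟩ := Chk_core U V S Q g k hg hbig
  have hb := Chk_big U V g _ hbig
  set H := (Q.val (mj2 U V S) k).n with hHdef
  set E := (Q.val (mj2 U V S) k).e with hE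
  set D := gap3 U V g (absN U.b (nd g) (Q.val (pk2 U V S g) k).n) with hD
  have h2H : 2 * H ≤ (g.t * g.t + g.x * g.x + (g.y * g.y + 2)) * H :=
    Nat.mul_le_mul_right _ (by omega)
  -- grid values
  have hgr := grid_sound (Chk_g g) (Chk_a a) U.b H V.sx V.sy U.st V.nX V.nY U.nT (toE d E + D)
    (isNeg (Q.val (pk2 U V S g) k).n) (iabs (Q.val (pk2 U V S g) k).n)
    (by omega)
    (by
      rw [Chk_wt]
      exact hH)
    (by
      rw [isNeg_iabs, hn]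
      exact (Chk_ev g a _ _ _).symm)
    hgrid
  have hgr' : ∀ i j l : ℤ, |i| ≤ U.nT → |j| ≤ V.nX → |l| ≤ V.nY →
      ((toE d E + D : ℕ) : ℤ) ≤ ev g a ((U.st : ℤ) * i) (V.sx * j) (V.sy * l) := by
    intro i j l hi hj hl
    have := hgr j l i hj hl hi
    rw [Chk_ev] at this
    exact this
  -- interpolation error
  have hDle : U.st * U.st * dT g a (U.st * U.nT) (V.sx * V.nX) (V.sy * V.nY) +
      V.sx * V.sx * dX g a (U.st * U.nT) (V.sx * V.nX) (V.sy * V.nY) +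
      V.sy * V.sy * dY g a (U.st * U.nT) (V.sx * V.nX) (V.sy * V.nY) ≤ 4 * D := by
    have h4 : D = (U.st * U.st * dT g a (U.st * U.nT) (V.sx * V.nX) (V.sy * V.nY) +
        V.sx * V.sx * dX g a (U.st * U.nT) (V.sx * V.nX) (V.sy * V.nY) +
        V.sy * V.sy * dY g a (U.st * U.nT) (V.sx * V.nX) (V.sy * V.nY)) / 2 ^ 2 + 1 := by
      rw [hD]
      unfold gap3
      rw [hT, hX, hY]
      show Nat.succ (Nat.shiftRight _ 2) = _
      rw [← Nat.shiftRight_eq_div_pow]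
      rfl
    have h5 := Nat.lt_mul_div_succ (U.st * U.st * dT g a (U.st * U.nT) (V.sx * V.nX) (V.sy * V.nY) +
        V.sx * V.sx * dX g a (U.st * U.nT) (V.sx * V.nX) (V.sy * V.nY) +
        V.sy * V.sy * dY g a (U.st * U.nT) (V.sx * V.nX) (V.sy * V.nY))
        (show 0 < 2 ^ 2 by norm_num)
    rw [← h4] at h5
    exact h5.le
  have hDw : wt g a (fun i j k => sq1 V.nX * sq1 V.nY * (i * (i - 1)) +
      sq1 U.nT * sq1 V.nY * (j * (j - 1)) + sq1 U.nT * sq1 V.nX * (k * (k - 1)))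
      (U.st * U.nT) (V.sx * V.nX) (V.sy * V.nY) ≤
      8 * (sq1 U.nT * (sq1 V.nX * sq1 V.nY)) * D := by
    rw [Chk_split, Chk_dT, Chk_dX, Chk_dY]
    have a1 := Chk_sq U.nT
    have a2 := Chk_sq V.nX
    have a3 := Chk_sq V.nY
    generalize dT g a (U.st * U.nT) (V.sx * V.nX) (V.sy * V.nY) = A at *
    generalize dX g a (U.st * U.nT) (V.sx * V.nX) (V.sy * V.nY) = B at *
    generalize dY g a (U.st * U.nT) (V.sx * V.nX) (V.sy * V.nY) = C at *
    generalize sq1 U.nT = p at *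
    generalize sq1 V.nX = q at *
    generalize sq1 V.nY = r at *
    calc q * r * (2 * (U.st * U.nT * (U.st * U.nT)) * A) +
          p * r * (2 * (V.sx * V.nX * (V.sx * V.nX)) * B) +
          p * q * (2 * (V.sy * V.nY * (V.sy * V.nY)) * C)
        = 2 * (q * r * (U.nT * U.nT) * (U.st * U.st * A) +
          p * r * (V.nX * V.nX) * (V.sx * V.sx * B) +
          p * q * (V.nY * V.nY) * (V.sy * V.sy * C)) := by ring
      _ ≤ 2 * (q * r * p * (U.st * U.st * A) + p * r * q * (V.sx * V.sx * B) +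
          p * q * r * (V.sy * V.sy * C)) := by
        refine Nat.mul_le_mul_left _ (Nat.add_le_add (Nat.add_le_add ?_ ?_) ?_)
        · exact Nat.mul_le_mul_right _ (Nat.mul_le_mul_left _ a1)
        · exact Nat.mul_le_mul_right _ (Nat.mul_le_mul_left _ a2)
        · exact Nat.mul_le_mul_right _ (Nat.mul_le_mul_left _ a3)
      _ = 2 * (p * q * r) * (U.st * U.st * A + V.sx * V.sx * B + V.sy * V.sy * C) := by ring
      _ ≤ 2 * (p * q * r) * (4 * D) := Nat.mul_le_mul_left _ hDle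
      _ = 8 * (p * (q * r)) * D := by ring
  obtain ⟨T, X, Y, hT', hX', hY', hval⟩ := hv t x y hz
  have hana := ana g a U.st V.sx V.sy U.nT V.nX V.nY (toE d E + D) D hgr' hDw T X Y hT' hX' hY'
  rw [← hval] at hana
  have h6 := Chk_toE d E
  push_cast at hana
  have h7 : (d : ℝ) / 2 ^ 60 * 2 ^ E ≤ Q.val (realAlg (nomF S t) x y) k * 2 ^ E := by linarith
  exact le_of_mul_le_mul_right h7 (by positivity)

private theorem Chk_norm1 (U : U3) (V : V3) (S : ℕ → Sym) (Q : Prg) (g : Dg) (k d B : ℕ)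
    (hg : (Q.val (dgAlg S) k).le g = true)
    (h : normV1 U V (Q.val (pk2 U V S g) k) (Q.val (mj2 U V S) k) g d B = true)
    (t x y : ℝ) (hz : (zz U V).Mem t x y) :
    |Q.val (realAlg (nomF S t) x y) k| + (d : ℝ) / 2 ^ 60 ≤ (B : ℝ) / 2 ^ 60 := by
  obtain ⟨h1, hle⟩ := Chk_cond h
  obtain ⟨hbig, -⟩ := Chk_cond h1
  obtain ⟨a, -, hv, -, h0, -, -, -⟩ := Chk_core U V S Q g k hg hbig
  set E := (Q.val (mj2 U V S) k).e with hE
  have h2 : d * 2 ^ E + wt g a w1 (U.st * U.nT) (V.sx * V.nX) (V.sy * V.nY) * s60 ≤ B * 2 ^ E := by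
    rw [← h0]
    exact Nat.le_of_ble_eq_true hle
  obtain ⟨T, X, Y, hT', hX', hY', hval⟩ := hv t x y hz
  have h3 := ev_abs g a _ _ _ T X Y hT' hX' hY'
  rw [← hval, abs_mul, abs_of_pos (show (0 : ℝ) < 2 ^ E by positivity)] at h3
  have h4 : (s60 : ℝ) = 2 ^ 60 := by
    have : s60 = 2 ^ 60 := by
      unfold s60
      norm_num
    rw [this]
    norm_num
  have h5 : ((d * 2 ^ E + wt g a w1 (U.st * U.nT) (V.sx * V.nX) (V.sy * V.nY) * s60 : ℕ) : ℝ) ≤
      ((B * 2 ^ E : ℕ) : ℝ) := by exact_mod_cast h2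
  push_cast at h5
  rw [h4] at h5
  have hp : (0 : ℝ) < 2 ^ E := by positivity
  have h6 : |Q.val (realAlg (nomF S t) x y) k| * 2 ^ E * 2 ^ 60 ≤
      (wt g a w1 (U.st * U.nT) (V.sx * V.nX) (V.sy * V.nY) : ℝ) * 2 ^ 60 :=
    mul_le_mul_of_nonneg_right h3 (by positivity)
  have h7 : (|Q.val (realAlg (nomF S t) x y) k| * 2 ^ 60 + d) * 2 ^ E ≤ (B : ℝ) * 2 ^ E := by
    have : (|Q.val (realAlg (nomF S t) x y) k| * 2 ^ 60 + d) * 2 ^ E =
      |Q.val (realAlg (nomF S t) x y) k| * 2 ^ E * 2 ^ 60 + d * 2 ^ E := by ring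
    rw [this]
    linarith
  have h8 := le_of_mul_le_mul_right h7 hp
  rw [le_div_iff₀ (by positivity), add_mul, div_mul_cancel₀ _ (by positivity)]
  exact h8

private theorem Chk_er (U : U3) (V : V3) (S : ℕ → Sym) : (zz U V).er S = er2 U V S := rfl

private theorem Chk_rec (f : ℕ → Bool) (l : List ℕ)
    (h : List.rec (motive := fun _ => Bool) true (fun k _ ih => cond (f k) ih false) l = true)
    (k : ℕ) (hk : k ∈ l) : f k = true := by
  induction l with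
  | nil => cases hk
  | cons a l ih =>
    obtain ⟨ha, h'⟩ := Chk_cond h
    rcases List.mem_cons.1 hk with rfl | hk
    · exact ha
    · exact ih h' hk

private theorem Chk_rec2 (f : ℕ × ℕ → Bool) (l : List (ℕ × ℕ))
    (h : List.rec (motive := fun _ => Bool) true (fun k _ ih => cond (f k) ih false) l = true)
    (k : ℕ × ℕ) (hk : k ∈ l) : f k = true := by
  induction l with
  | nil => cases hk
  | cons a l ih =>
    obtain ⟨ha, h'⟩ := Chk_cond h
    rcases List.mem_cons.1 hk with rfl | hk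
    · exact ha
    · exact ih h' hk

theorem posV_sound (U : U3) (S : ℕ → Sym) (Q : Prg) (g : Dg) (l : List ℕ) (V : V3)
    (h : posV U S Q g l V = true) (t x y : ℝ) (hz : (zz U V).Mem t x y) (β : ℕ → ℝ)
    (hβ : EnclF S t β) (k : ℕ) (hk : k ∈ l) : 0 ≤ Q.val (realAlg β x y) k := by
  have h1 := Chk_rec _ l h k hk
  obtain ⟨hg, h2⟩ := Chk_cond h1
  have h3 := Chk_pos1 U V S Q g k _ hg h2 t x y hz
  have h4 := err_sound (zz U V) S Q k t x y hz β hβ
  rw [Chk_er] at h4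
  have h5 := (abs_le.1 h4).1
  linarith

theorem posVE_sound (U : U3) (S : ℕ → Sym) (Q : Prg) (g : Dg) (l : List ℕ) (V : V3)
    (h : posVE U S Q g l V = true) (t x y : ℝ) (hz : (zz U V).Mem t x y) (k : ℕ) (hk : k ∈ l) :
    0 ≤ Q.val (realAlg (nomF S t) x y) k := by
  have h1 := Chk_rec _ l h k hk
  obtain ⟨hg, h2⟩ := Chk_cond h1
  have h3 := Chk_pos1 U V S Q g k _ hg h2 t x y hz
  have h4 : ((0 : ℕ) : ℝ) / 2 ^ 60 = 0 := by simp
  rw [h4] at h3
  exact h3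

theorem normV_sound (U : U3) (S : ℕ → Sym) (Q : Prg) (g : Dg) (l : List (ℕ × ℕ)) (V : V3)
    (h : normV U S Q g l V = true) (t x y : ℝ) (hz : (zz U V).Mem t x y) (β : ℕ → ℝ)
    (hβ : EnclF S t β) (k : ℕ × ℕ) (hk : k ∈ l) :
    |Q.val (realAlg β x y) k.1| ≤ (k.2 : ℝ) / 2 ^ 60 := by
  have h1 := Chk_rec2 _ l h k hk
  obtain ⟨hg, h2⟩ := Chk_cond h1
  have h3 := Chk_norm1 U V S Q g k.1 _ k.2 hg h2 t x y hz
  have h4 := err_sound (zz U V) S Q k.1 t x y hz β hβ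
  rw [Chk_er] at h4
  have h5 := abs_sub_abs_le_abs_sub (Q.val (realAlg β x y) k.1) (Q.val (realAlg (nomF S t) x y) k.1)
  linarith

theorem allV_mem (f : V3 → Bool) (L : List V3) (h : allV f L = true) (V : V3) (hV : V ∈ L) :
    f V = true := by
  induction L with
  | nil => cases hV
  | cons a L ih =>
    obtain ⟨ha, h'⟩ := Chk_cond h
    rcases List.mem_cons.1 hV with rfl | hV
    · exact ha
    · exact ih h' hV

end Pool.H47.K3
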