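import Pool.Agent.H47.Kc.Defs

/-!
# Kernel checker with three packed variables: definitions

A zone has centred coordinates `T, X, Y`: `t = (tc + T) / 2^eT`, `x = (xc + X) / 2^eX`,
`y = (yc + Y) / 2^eY`, `|T| ≤ st nT`, `|X| ≤ sx nX`, `|Y| ≤ sy nY`; the grid is `T = st i`,
`-nT ≤ i ≤ nT`, etc.  The value of a program at a point of the zone is `P(T, X, Y) / 2^E` with a
polynomial `P` with integer coefficients.  One evaluation at `T = 2^bt, X = 2^bx, Y = 2^b` gives all
coefficients (balanced digits) and, by residues modulo `2^bt - st i` etc., all values on the grid.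
The recursions are written with the recursors since the kernel evaluates these faster.
-/

set_option autoImplicit false

namespace Pool.H47.K3

open Pool.H47.Kc

/-! ### programs -/

/-- the list of the values of a program, relational form -/
def Tr {α : Type} (A : Alg α) : List Op → List α → List α → Prop
  | [], _, [] => True
  | [], _, _ :: _ => False
  | _ :: _, _, [] => False
  | op :: P, st, z :: Z => step A st op = z ∧ Tr A P (z :: st) Z

/-- outputs of a program: stack positions after the run, `0` = last instruction -/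
def outs {α : Type} (A : Alg α) (P : List Op) (o : List Nat) : List α :=
  o.map (fun k => get A.dflt (run A P []) k)

/-- a program with several outputs, and its direct form -/
structure Prg where
  P : List Op
  o : List Nat
  f : {α : Type} → Alg α → List α
  h : ∀ {α : Type} (A : Alg α), f A = outs A P o

/-- fast list access -/
noncomputable def get2 {α : Type} (d : α) (L : List α) : Nat → α :=
  List.rec (motive := fun _ => Nat → α) (fun _ => d)
    (fun a _ ih i => Nat.rec (motive := fun _ => α) a (fun k _ => ih k) i) L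

/-- access to a list of blocks of length `16` -/
noncomputable def sym16 (L : List (List Sym)) (i : Nat) : Sym :=
  get2 ⟨[], 0⟩ (get2 [] L (Nat.div i 16)) (Nat.mod i 16)

/-- fast Horner rule -/
noncomputable def horner2 {α : Type} (A : Alg α) (t : α) (l : List Fx) : α :=
  List.rec (motive := fun _ => α) (A.cst 0 0) (fun a _ ih => A.add (A.cst a.n a.e) (A.mul t ih)) l

/-- output number `k` -/
noncomputable def Prg.val {α : Type} (Q : Prg) (A : Alg α) (k : Nat) : α := get2 A.dflt (Q.f A) k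

/-! ### symbols given by a function -/

/-- the base symbols `β` are enclosed by `S` at `t` -/
def EnclF (S : Nat → Sym) (t : ℝ) (β : ℕ → ℝ) : Prop :=
  ∀ i, |β i - pval (S i).p t| ≤ ((S i).eps : ℝ) / 2 ^ 60

/-- the nominal base symbols -/
noncomputable def nomF (S : Nat → Sym) (t : ℝ) (i : ℕ) : ℝ := pval (S i).p t

/-! ### integers -/

/-- `m - n` -/
noncomputable def isub (m n : Nat) : Int :=
  cond (Nat.ble n m) (Int.ofNat (Nat.sub m n)) (Int.negSucc (Nat.sub (Nat.sub n m) 1))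

/-- `-m` -/
noncomputable def inn (m : Nat) : Int :=
  cond (Nat.beq m 0) (Int.ofNat 0) (Int.negSucc (Nat.sub m 1))

noncomputable def iadd (a b : Int) : Int :=
  Int.rec (motive := fun _ => Int)
    (fun m => Int.rec (motive := fun _ => Int) (fun n => Int.ofNat (Nat.add m n))
      (fun n => isub m (Nat.succ n)) b)
    (fun m => Int.rec (motive := fun _ => Int) (fun n => isub n (Nat.succ m))
      (fun n => Int.negSucc (Nat.succ (Nat.add m n))) b) a

noncomputable def ineg (a : Int) : Int :=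
  Int.rec (motive := fun _ => Int) (fun m => inn m) (fun m => Int.ofNat (Nat.succ m)) a

noncomputable def imul (a b : Int) : Int :=
  Int.rec (motive := fun _ => Int)
    (fun m => Int.rec (motive := fun _ => Int) (fun n => Int.ofNat (Nat.mul m n))
      (fun n => inn (Nat.mul m (Nat.succ n))) b)
    (fun m => Int.rec (motive := fun _ => Int) (fun n => inn (Nat.mul (Nat.succ m) n))
      (fun n => Int.ofNat (Nat.mul (Nat.succ m) (Nat.succ n))) b) a

/-- `a 2^k` -/
noncomputable def ishl (a : Int) (k : Nat) : Int :=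
  Int.rec (motive := fun _ => Int) (fun m => Int.ofNat (Nat.shiftLeft m k))
    (fun m => Int.negSucc (Nat.sub (Nat.shiftLeft (Nat.succ m) k) 1)) a

/-- `a 2^k`, nothing to do for `k = 0` -/
noncomputable def ish0 (a : Int) (k : Nat) : Int := cond (Nat.beq k 0) a (ishl a k)

/-- `h (c + 2^b)` -/
noncomputable def hst (c b : Nat) (h : Int) : Int :=
  Int.rec (motive := fun _ => Int)
    (fun m => Int.ofNat (Nat.add (Nat.mul m c) (Nat.shiftLeft m b)))
    (fun m => Int.negSucc
      (Nat.sub (Nat.add (Nat.mul (Nat.succ m) c) (Nat.shiftLeft (Nat.succ m) b)) 1)) h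

noncomputable def iabs (a : Int) : Nat :=
  Int.rec (motive := fun _ => Nat) (fun m => m) (fun m => Nat.succ m) a

noncomputable def isNeg (a : Int) : Bool :=
  Int.rec (motive := fun _ => Bool) (fun _ => false) (fun _ => true) a

noncomputable def Fx.add2 (a b : Fx) : Fx :=
  ⟨iadd (ish0 a.n (Nat.sub b.e a.e)) (ish0 b.n (Nat.sub a.e b.e)),
    Nat.add a.e (Nat.sub b.e a.e)⟩

noncomputable def Fx.sub2 (a b : Fx) : Fx :=
  ⟨iadd (ish0 a.n (Nat.sub b.e a.e)) (ineg (ish0 b.n (Nat.sub a.e b.e))),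
    Nat.add a.e (Nat.sub b.e a.e)⟩

noncomputable def Fx.mul2 (a b : Fx) : Fx := ⟨imul a.n b.n, Nat.add a.e b.e⟩

/-! ### zones -/

structure Z3 where
  eT : Nat
  eX : Nat
  eY : Nat
  tc : Nat
  xc : Nat
  yc : Nat
  st : Nat
  sx : Nat
  sy : Nat
  nT : Nat
  nX : Nat
  nY : Nat
  b : Nat

def Z3.Mem (Z : Z3) (t x y : ℝ) : Prop :=
  |t * 2 ^ Z.eT - Z.tc| ≤ Z.st * Z.nT ∧ |x * 2 ^ Z.eX - Z.xc| ≤ Z.sx * Z.nX ∧
    |y * 2 ^ Z.eY - Z.yc| ≤ Z.sy * Z.nY

/-- evaluation over dyadic numbers -/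
noncomputable def fxAlg2 (q : Nat → Fx) (x y : Fx) : Alg Fx where
  cst z e := ⟨z, e⟩
  base := q
  x := x
  y := y
  add := Fx.add2
  sub := Fx.sub2
  mul := Fx.mul2
  dflt := ⟨0, 0⟩

/-- evaluation at integer coordinates -/
noncomputable def Z3.fx (Z : Z3) (S : Nat → Sym) (T X Y : Int) : Alg Fx :=
  fxAlg2 (fun i => horner2 (fxAlg2 (fun _ => ⟨0, 0⟩) ⟨0, 0⟩ ⟨0, 0⟩)
      ⟨iadd (Int.ofNat Z.tc) T, Z.eT⟩ (S i).p)
    ⟨iadd (Int.ofNat Z.xc) X, Z.eX⟩ ⟨iadd (Int.ofNat Z.yc) Y, Z.eY⟩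

/-- evaluation on absolute values -/
noncomputable def mjAlg2 (q : Nat → Mj) (x y : Mj) : Alg Mj where
  cst z e := ⟨iabs z, e⟩
  base := q
  x := x
  y := y
  add := Mj.add
  sub := Mj.add
  mul := Mj.mul
  dflt := ⟨0, 0⟩

/-- maximum -/
def mx (a b : Nat) : Nat := cond (Nat.ble a b) b a

/-- bounds of the numerators: absolute values; the radii are taken at least `1` -/
noncomputable def Z3.mj (Z : Z3) (S : Nat → Sym) : Alg Mj :=
  mjAlg2 (fun i => horner2 (mjAlg2 (fun _ => ⟨0, 0⟩) ⟨0, 0⟩ ⟨0, 0⟩)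
      ⟨Nat.add Z.tc (mx (Nat.mul Z.st Z.nT) 1), Z.eT⟩ (S i).p)
    ⟨Nat.add Z.xc (mx (Nat.mul Z.sx Z.nX) 1), Z.eX⟩
    ⟨Nat.add Z.yc (mx (Nat.mul Z.sy Z.nY) 1), Z.eY⟩

/-! ### degrees -/

structure Dg where
  t : Nat
  x : Nat
  y : Nat

def Dg.sup (a b : Dg) : Dg := ⟨mx a.t b.t, mx a.x b.x, mx a.y b.y⟩

def Dg.plus (a b : Dg) : Dg := ⟨Nat.add a.t b.t, Nat.add a.x b.x, Nat.add a.y b.y⟩

def Dg.le (a b : Dg) : Bool :=
  cond (Nat.ble a.t b.t) (cond (Nat.ble a.x b.x) (Nat.ble a.y b.y) false) false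

/-- length of a list minus one -/
noncomputable def len1 (l : List Fx) : Nat :=
  Nat.sub (List.rec (motive := fun _ => Nat) 0 (fun _ _ ih => Nat.succ ih) l) 1

/-- the algebra of degrees; a base symbol has the degree of its polynomial -/
noncomputable def dgAlg (S : Nat → Sym) : Alg Dg where
  cst _ _ := ⟨0, 0, 0⟩
  base i := ⟨len1 (S i).p, 0, 0⟩
  x := ⟨0, 1, 0⟩
  y := ⟨0, 0, 1⟩
  add := Dg.sup
  sub := Dg.sup
  mul := Dg.plus
  dflt := ⟨0, 0, 0⟩

/-! ### error propagation: bounds in units of `2^(-60)` -/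

/-- `2^60` -/
def s60 : Nat := 1152921504606846976

/-- `b`: bound of both values, `d`: bound of the difference -/
structure Er where
  b : Nat
  d : Nat

def Er.add (f g : Er) : Er := ⟨Nat.add f.b g.b, Nat.add f.d g.d⟩

def Er.mul (f g : Er) : Er :=
  ⟨Nat.succ (Nat.shiftRight (Nat.mul f.b g.b) 60),
    Nat.succ (Nat.shiftRight (Nat.add (Nat.mul f.b g.d) (Nat.mul f.d g.b)) 60)⟩

/-- bound of `a / 2^e` -/
def erc (a e : Nat) : Er := ⟨Nat.succ (Nat.shiftRight (Nat.mul a s60) e), 0⟩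

noncomputable def erAlg (q : Nat → Er) (x y : Er) : Alg Er where
  cst z e := erc (iabs z) e
  base := q
  x := x
  y := y
  add := Er.add
  sub := Er.add
  mul := Er.mul
  dflt := ⟨0, 0⟩

/-- bounds of absolute values in units of `2^(-60)` -/
noncomputable def abAlg : Alg Nat where
  cst z e := Nat.succ (Nat.shiftRight (Nat.mul (iabs z) s60) e)
  base _ := 0
  x := 0
  y := 0
  add := Nat.add
  sub := Nat.add
  mul a b := Nat.succ (Nat.shiftRight (Nat.mul a b) 60)
  dflt := 0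

noncomputable def Z3.er (Z : Z3) (S : Nat → Sym) : Alg Er :=
  erAlg (fun i => ⟨Nat.add (horner2 abAlg
      (Nat.succ (Nat.shiftRight (Nat.mul (Nat.add Z.tc (Nat.mul Z.st Z.nT)) s60) Z.eT))
      (S i).p) (S i).eps, (S i).eps⟩)
    (erc (Nat.add Z.xc (Nat.mul Z.sx Z.nX)) Z.eX)
    (erc (Nat.add Z.yc (Nat.mul Z.sy Z.nY)) Z.eY)

/-! ### digits -/

/-- `Σ_i n^i F (k+i) |d_i|` over the balanced digits `d_i` (`|d_i| ≤ H`) of `N` in base `2^b`,
`B1 = 2^b - 1`; `f` the number of digits -/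
noncomputable def dgen (H b B1 n : Nat) (F : Nat → Nat → Nat) (f : Nat) : Nat → Nat → Nat :=
  Nat.rec (motive := fun _ => Nat → Nat → Nat) (fun _ _ => 0)
    (fun _ ih k N =>
      (fun q r : Nat => cond (Nat.ble r H)
        (Nat.add (F k r) (Nat.mul n (ih (Nat.succ k) q)))
        (Nat.add (F k (Nat.sub (Nat.succ B1) r)) (Nat.mul n (ih (Nat.succ k) (Nat.succ q)))))
        (Nat.shiftRight N b) (Nat.land N B1)) f

/-- `Σ_i F |d_i|` -/
noncomputable def dsum (H b B1 : Nat) (F : Nat → Nat) (f : Nat) : Nat → Nat :=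
  Nat.rec (motive := fun _ => Nat → Nat) (fun _ => 0)
    (fun _ ih N =>
      (fun q r : Nat => cond (Nat.ble r H) (Nat.add (F r) (ih q))
        (Nat.add (F (Nat.sub (Nat.succ B1) r)) (ih (Nat.succ q))))
        (Nat.shiftRight N b) (Nat.land N B1)) f

/-- packing parameters: bounds and numbers of bits of the three levels, degrees -/
structure Pk where
  HT : Nat
  HX : Nat
  HY : Nat
  bt : Nat
  bx : Nat
  b : Nat
  dt : Nat
  dx : Nat
  dy : Nat

def Pk.mk' (b H : Nat) (g : Dg) : Pk :=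
  ⟨Nat.shiftLeft (Nat.shiftLeft H (Nat.mul b g.y)) (Nat.mul (Nat.mul b (Nat.succ g.y)) g.x),
    Nat.shiftLeft H (Nat.mul b g.y), H,
    Nat.mul (Nat.mul b (Nat.succ g.y)) (Nat.succ g.x), Nat.mul b (Nat.succ g.y), b,
    g.t, g.x, g.y⟩

/-- `Σ (al i (i-1) + be j (j-1) + ga k (k-1)) |a_ijk| nT^i nX^j nY^k` -/
noncomputable def total (W : Pk) (nT nX nY al be ga N : Nat) : Nat :=
  dgen W.HT W.bt (Nat.sub (Nat.pow 2 W.bt) 1) nT
    (fun i A => dgen W.HX W.bx (Nat.sub (Nat.pow 2 W.bx) 1) nX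
      (fun j B => dgen W.HY W.b (Nat.sub (Nat.pow 2 W.b) 1) nY
        (fun k d => Nat.mul (Nat.add (Nat.add (Nat.mul al (Nat.mul i (Nat.sub i 1)))
          (Nat.mul be (Nat.mul j (Nat.sub j 1)))) (Nat.mul ga (Nat.mul k (Nat.sub k 1)))) d)
        (Nat.succ W.dy) 0 B)
      (Nat.succ W.dx) 0 A)
    (Nat.succ W.dt) 0 N

/-- `Σ |a_ijk|` -/
noncomputable def total1 (W : Pk) (N : Nat) : Nat :=
  dsum W.HT W.bt (Nat.sub (Nat.pow 2 W.bt) 1)
    (dsum W.HX W.bx (Nat.sub (Nat.pow 2 W.bx) 1)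
      (dsum W.HY W.b (Nat.sub (Nat.pow 2 W.b) 1) (fun d => d) (Nat.succ W.dy))
      (Nat.succ W.dx))
    (Nat.succ W.dt) N

/-- squares, at least `1` -/
def sq1 (n : Nat) : Nat := Nat.mul (mx n 1) (mx n 1)

/-- the packing is large enough -/
def Z3.big (Z : Z3) (H : Nat) : Bool :=
  Nat.ble (Nat.add (Nat.add (Nat.mul 2 H) (Nat.add (Nat.mul Z.st Z.nT) (Nat.mul Z.sx Z.nX)))
    (Nat.add (Nat.mul Z.sy Z.nY) 2)) (Nat.pow 2 Z.b)

/-! ### grid -/

/-- residue of `± a` modulo `m`, passed on as sign and absolute value (`≤ H`) -/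
def resd (H : Nat) (F : Bool → Nat → Bool) (neg : Bool) (a m : Nat) : Bool :=
  (fun r : Nat => cond (Nat.ble r H) (F neg r) (F (cond neg false true) (Nat.sub m r))) (Nat.mod a m)

/-- loop over the moduli `m, m - s, ..., m - f s` -/
noncomputable def lp (H s : Nat) (F : Bool → Nat → Bool) (neg : Bool) (a : Nat) (f : Nat) :
    Nat → Bool :=
  Nat.rec (motive := fun _ => Nat → Bool) (fun m => resd H F neg a m)
    (fun _ ih m => cond (resd H F neg a m) (ih (Nat.sub m s)) false) f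

/-- all values of the polynomial on the grid are at least `thr ≥ 1` -/
noncomputable def grid (W : Pk) (st sx sy nT nX nY thr : Nat) (neg : Bool) (N : Nat) : Bool :=
  lp W.HT st
    (fun s1 A => lp W.HX sx
      (fun s2 B => lp W.HY sy (fun s3 v => cond s3 false (Nat.ble thr v)) s2 B (Nat.mul 2 nY)
        (Nat.add (Nat.pow 2 W.b) (Nat.mul sy nY)))
      s1 A (Nat.mul 2 nX) (Nat.add (Nat.pow 2 W.bx) (Nat.mul sx nX)))
    neg N (Nat.mul 2 nT) (Nat.add (Nat.pow 2 W.bt) (Nat.mul st nT))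

/-- `n` units of `2^(-60)` in units of `2^(-E)`, rounded up -/
def toE (n E : Nat) : Nat := Nat.succ (Nat.shiftRight (Nat.mul n (Nat.pow 2 E)) 60)

/-! ### the checks, for one output -/

/-- all values on the zone are at least `d` units of `2^(-60)` -/
noncomputable def posCheck1 (Z : Z3) (r : Fx) (h : Mj) (g : Dg) (d : Nat) : Bool :=
  cond (cond (Z.big h.n) (Nat.beq r.e h.e) false)
    ((fun W : Pk =>
      grid W Z.st Z.sx Z.sy Z.nT Z.nX Z.nY
        (Nat.add (toE d h.e)
          (Nat.succ (Nat.div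
            (total W (Nat.mul Z.st Z.nT) (Nat.mul Z.sx Z.nX) (Nat.mul Z.sy Z.nY)
              (Nat.mul (sq1 Z.nX) (sq1 Z.nY)) (Nat.mul (sq1 Z.nT) (sq1 Z.nY))
              (Nat.mul (sq1 Z.nT) (sq1 Z.nX)) (iabs r.n))
            (Nat.mul 8 (Nat.mul (sq1 Z.nT) (Nat.mul (sq1 Z.nX) (sq1 Z.nY)))))))
        (isNeg r.n) (iabs r.n)) (Pk.mk' Z.b h.n g))
    false

/-- all absolute values on the zone are at most `B / 2^60`; only for radii at most `1` -/
noncomputable def normCheck1 (Z : Z3) (r : Fx) (h : Mj) (g : Dg) (d : Nat) (B : Nat) : Bool :=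
  cond (cond (Z.big h.n) (Nat.beq r.e h.e) false)
    (cond (cond (Nat.ble (Nat.mul Z.st Z.nT) 1)
        (cond (Nat.ble (Nat.mul Z.sx Z.nX) 1) (Nat.ble (Nat.mul Z.sy Z.nY) 1) false) false)
      (Nat.ble (Nat.add (Nat.mul d (Nat.pow 2 h.e))
          (Nat.mul (total1 (Pk.mk' Z.b h.n g) (iabs r.n)) s60))
        (Nat.mul B (Nat.pow 2 h.e)))
      false)
    false

/-- Horner rule at `(tc + 2^bt) / 2^eT` -/
noncomputable def pkh (tc eT bt : Nat) (l : List Fx) : Fx :=
  List.rec (motive := fun _ => Fx) ⟨Int.ofNat 0, 0⟩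
    (fun a _ ih => Fx.add2 a ⟨hst tc bt ih.n, Nat.add eT ih.e⟩) l

/-- the packed evaluation: the packing sizes use the degrees `g` -/
noncomputable def Z3.pk (Z : Z3) (S : Nat → Sym) (g : Dg) : Alg Fx :=
  fxAlg2 (fun i =>
      pkh Z.tc Z.eT (Nat.mul (Nat.mul Z.b (Nat.succ g.y)) (Nat.succ g.x)) (S i).p)
    ⟨Int.ofNat (Nat.add Z.xc (Nat.pow 2 (Nat.mul Z.b (Nat.succ g.y)))), Z.eX⟩
    ⟨Int.ofNat (Nat.add Z.yc (Nat.pow 2 Z.b)), Z.eY⟩

/-- check outputs `k ∈ l` of a program for nonnegativity; `g` the degrees used for the packing -/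
noncomputable def posCheck (Z : Z3) (S : Nat → Sym) (Q : Prg) (g : Dg) (l : List Nat) : Bool :=
  List.rec (motive := fun _ => Bool) true
    (fun k _ ih => cond (cond ((Q.val (dgAlg S) k).le g)
      (posCheck1 Z (Q.val (Z.pk S g) k) (Q.val (Z.mj S) k) g (Q.val (Z.er S) k).d) false) ih false) l

/-- the same for exact symbols (`eps = 0` is not used) -/
noncomputable def posCheckE (Z : Z3) (S : Nat → Sym) (Q : Prg) (g : Dg) (l : List Nat) : Bool :=
  List.rec (motive := fun _ => Bool) true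
    (fun k _ ih => cond (cond ((Q.val (dgAlg S) k).le g)
      (posCheck1 Z (Q.val (Z.pk S g) k) (Q.val (Z.mj S) k) g 0) false) ih false) l

/-- check bounds of the absolute values of outputs: list of pairs `(k, B)` -/
noncomputable def normCheck (Z : Z3) (S : Nat → Sym) (Q : Prg) (g : Dg) (l : List (Nat × Nat)) :
    Bool :=
  List.rec (motive := fun _ => Bool) true
    (fun k _ ih => cond (cond ((Q.val (dgAlg S) k.1).le g)
      (normCheck1 Z (Q.val (Z.pk S g) k.1) (Q.val (Z.mj S) k.1) g (Q.val (Z.er S) k.1).d k.2) false)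
      ih false) l

end Pool.H47.K3
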