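import Pool.Agent.H47.K3.Ops

/-! # Ev: polynomials in three variables given by their coefficients -/

set_option autoImplicit false

namespace Pool.H47.K3

open Pool.H47.Kc Finset

/-- value of the polynomial with the coefficients `a`, degrees at most `g` -/
def ev {R : Type} [CommRing R] (g : Dg) (a : ℕ → ℕ → ℕ → ℤ) (T X Y : R) : R :=
  ∑ i ∈ range (g.t + 1), ∑ j ∈ range (g.x + 1), ∑ k ∈ range (g.y + 1),
    (a i j k : R) * T ^ i * X ^ j * Y ^ k

/-- weighted sum of the absolute values of the coefficients -/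
def wt (g : Dg) (a : ℕ → ℕ → ℕ → ℤ) (w : ℕ → ℕ → ℕ → ℕ) (T X Y : ℕ) : ℕ :=
  ∑ i ∈ range (g.t + 1), ∑ j ∈ range (g.x + 1), ∑ k ∈ range (g.y + 1),
    w i j k * (a i j k).natAbs * T ^ i * X ^ j * Y ^ k

/-- weight `1` -/
def w1 (_ _ _ : ℕ) : ℕ := 1

end Pool.H47.K3
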