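import Pool.Agent.H47.K3.Defs
import Pool.Agent.H47.Kc.Rel

/-! # Ops: the fast operations are the usual ones -/

set_option autoImplicit false

namespace Pool.H47.K3

open Pool.H47.Kc

private theorem Ops_negSucc_pred {n : ℕ} (h : 1 ≤ n) : Int.negSucc (n - 1) = -(n : ℤ) := by
  rw [Int.negSucc_eq]
  omega

private theorem Ops_get_cons {α β : Type} {R : α → β → Prop} {da : α} {db : β} {a : α} {b : β}
    {l : List α} {l' : List β} (hab : R a b) (hl : ∀ i, R (get da l i) (get db l' i)) (i : ℕ) :
    R (get da (a :: l) i) (get db (b :: l') i) := by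
  cases i with
  | zero => exact hab
  | succ n => exact hl n

private theorem Ops_step {α β : Type} {A : Alg α} {B : Alg β} {R : α → β → Prop}
    (h : RelAlg A B R) (op : Op) (st : List α) (st' : List β)
    (hst : ∀ i, R (get A.dflt st i) (get B.dflt st' i)) :
    R (step A st op) (step B st' op) := by
  cases op with
  | cst z e => exact h.cst z e
  | base i => exact h.base i
  | x => exact h.x
  | y => exact h.y
  | add a b => exact h.add _ _ _ _ (hst a) (hst b)
  | sub a b => exact h.sub _ _ _ _ (hst a) (hst b)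
  | mul a b => exact h.mul _ _ _ _ (hst a) (hst b)

private theorem Ops_run {α β : Type} {A : Alg α} {B : Alg β} {R : α → β → Prop}
    (h : RelAlg A B R) (P : List Op) : ∀ (st : List α) (st' : List β),
    (∀ i, R (get A.dflt st i) (get B.dflt st' i)) →
    ∀ i, R (get A.dflt (run A P st) i) (get B.dflt (run B P st') i) := by
  induction P with
  | nil => intro st st' hst i; exact hst i
  | cons op P ih =>
    intro st st' hst i
    exact ih (step A st op :: st) (step B st' op :: st')
      (Ops_get_cons (Ops_step h op st st' hst) hst) i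

theorem isub_eq (m n : ℕ) : isub m n = (m : ℤ) - n := by
  unfold isub
  rcases Nat.lt_or_ge m n with h | h
  · have hb : Nat.ble n m = false := by
      rw [← Bool.not_eq_true, Nat.ble_eq]
      omega
    rw [hb]
    show Int.negSucc (n - m - 1) = (m : ℤ) - n
    rw [Int.negSucc_eq]
    omega
  · have hb : Nat.ble n m = true := by
      rw [Nat.ble_eq]
      exact h
    rw [hb]
    show ((m - n : ℕ) : ℤ) = (m : ℤ) - n
    omega

theorem inn_eq (m : ℕ) : inn m = -(m : ℤ) := by
  unfold inn
  cases m with
  | zero => rfl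
  | succ k =>
    show Int.negSucc (k + 1 - 1) = -((k + 1 : ℕ) : ℤ)
    rw [Int.negSucc_eq]
    omega

theorem iadd_eq (a b : ℤ) : iadd a b = a + b := by
  cases a with
  | ofNat m =>
    cases b with
    | ofNat n =>
      show ((m + n : ℕ) : ℤ) = (m : ℤ) + (n : ℤ)
      push_cast
      rfl
    | negSucc n =>
      show isub m (n + 1) = (m : ℤ) + Int.negSucc n
      rw [isub_eq, Int.negSucc_eq]
      omega
  | negSucc m =>
    cases b with
    | ofNat n =>
      show isub n (m + 1) = Int.negSucc m + (n : ℤ)
      rw [isub_eq, Int.negSucc_eq]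
      omega
    | negSucc n =>
      show Int.negSucc (m + n + 1) = Int.negSucc m + Int.negSucc n
      rw [Int.negSucc_eq, Int.negSucc_eq, Int.negSucc_eq]
      push_cast
      ring

theorem ineg_eq (a : ℤ) : ineg a = -a := by
  cases a with
  | ofNat m =>
    show inn m = -(m : ℤ)
    exact inn_eq m
  | negSucc m =>
    show ((m + 1 : ℕ) : ℤ) = -Int.negSucc m
    rw [Int.negSucc_eq]
    push_cast
    ring

theorem imul_eq (a b : ℤ) : imul a b = a * b := by
  cases a with
  | ofNat m =>
    cases b with
    | ofNat n =>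
      show ((m * n : ℕ) : ℤ) = (m : ℤ) * (n : ℤ)
      push_cast
      rfl
    | negSucc n =>
      show inn (m * (n + 1)) = (m : ℤ) * Int.negSucc n
      rw [inn_eq, Int.negSucc_eq]
      push_cast
      ring
  | negSucc m =>
    cases b with
    | ofNat n =>
      show inn ((m + 1) * n) = Int.negSucc m * (n : ℤ)
      rw [inn_eq, Int.negSucc_eq]
      push_cast
      ring
    | negSucc n =>
      show (((m + 1) * (n + 1) : ℕ) : ℤ) = Int.negSucc m * Int.negSucc n
      rw [Int.negSucc_eq, Int.negSucc_eq]
      push_cast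
      ring

theorem ishl_eq (a : ℤ) (k : ℕ) : ishl a k = a * 2 ^ k := by
  cases a with
  | ofNat m =>
    show ((m <<< k : ℕ) : ℤ) = (m : ℤ) * 2 ^ k
    rw [Nat.shiftLeft_eq]
    push_cast
    ring
  | negSucc m =>
    show Int.negSucc ((m + 1) <<< k - 1) = Int.negSucc m * 2 ^ k
    have hpos : 1 ≤ (m + 1) <<< k := by
      rw [Nat.shiftLeft_eq]
      exact Nat.mul_pos (Nat.succ_pos m) (Nat.two_pow_pos k)
    rw [Ops_negSucc_pred hpos, Nat.shiftLeft_eq, Int.negSucc_eq]
    push_cast
    ring

theorem ish0_eq (a : ℤ) (k : ℕ) : ish0 a k = a * 2 ^ k := by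
  unfold ish0
  cases k with
  | zero =>
    show a = a * 2 ^ 0
    rw [pow_zero, mul_one]
  | succ k =>
    show ishl a (k + 1) = a * 2 ^ (k + 1)
    exact ishl_eq a (k + 1)

theorem hst_eq (c b : ℕ) (h : ℤ) : hst c b h = h * (c + 2 ^ b) := by
  cases h with
  | ofNat m =>
    show ((m * c + m <<< b : ℕ) : ℤ) = (m : ℤ) * (c + 2 ^ b)
    rw [Nat.shiftLeft_eq]
    push_cast
    ring
  | negSucc m =>
    show Int.negSucc ((m + 1) * c + (m + 1) <<< b - 1) = Int.negSucc m * (c + 2 ^ b)
    have hpos : 1 ≤ (m + 1) * c + (m + 1) <<< b := by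
      rw [Nat.shiftLeft_eq]
      exact Nat.add_pos_right _ (Nat.mul_pos (Nat.succ_pos m) (Nat.two_pow_pos b))
    rw [Ops_negSucc_pred hpos, Nat.shiftLeft_eq, Int.negSucc_eq]
    push_cast
    ring

theorem iabs_eq (a : ℤ) : iabs a = a.natAbs := by
  cases a with
  | ofNat m => rfl
  | negSucc m => rfl

/-- sign and absolute value -/
theorem isNeg_iabs (a : ℤ) : cond (isNeg a) (-(iabs a : ℤ)) (iabs a : ℤ) = a := by
  cases a with
  | ofNat m => rfl
  | negSucc m =>
    show -((m + 1 : ℕ) : ℤ) = Int.negSucc m
    rw [Int.negSucc_eq]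
    push_cast
    ring

theorem add2_eq (a b : Fx) : Fx.add2 a b = Fx.add a b := by
  unfold Fx.add2 Fx.add
  rw [iadd_eq, ish0_eq, ish0_eq]

theorem sub2_eq (a b : Fx) : Fx.sub2 a b = Fx.sub a b := by
  unfold Fx.sub2 Fx.sub
  rw [iadd_eq, ineg_eq, ish0_eq, ish0_eq, sub_eq_add_neg]

theorem mul2_eq (a b : Fx) : Fx.mul2 a b = Fx.mul a b := by
  unfold Fx.mul2 Fx.mul
  rw [imul_eq]

theorem mx_eq (a b : ℕ) : mx a b = max a b := by
  unfold mx
  rcases Nat.lt_or_ge b a with h | h
  · have hb : Nat.ble a b = false := by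
      rw [← Bool.not_eq_true, Nat.ble_eq]
      omega
    rw [hb, max_eq_left h.le]
    rfl
  · have hb : Nat.ble a b = true := by
      rw [Nat.ble_eq]
      exact h
    rw [hb, max_eq_right h]
    rfl

theorem get2_eq {α : Type} (d : α) (L : List α) (i : ℕ) : get2 d L i = get d L i := by
  induction L generalizing i with
  | nil => rfl
  | cons a L ih =>
    cases i with
    | zero => rfl
    | succ k => exact ih k

theorem horner2_eq {α : Type} (A : Alg α) (t : α) (l : List Fx) : horner2 A t l = horner A t l := by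
  induction l with
  | nil => rfl
  | cons a l ih =>
    show A.add (A.cst a.n a.e) (A.mul t (horner2 A t l)) =
      A.add (A.cst a.n a.e) (A.mul t (horner A t l))
    rw [ih]

/-- relations between interpretations are respected by the outputs (`Kc.RelAlg`; the proof of
`Kc.res_rel` in `Kc/Rel.lean` does the last element of the stack only; its lemmas are private) -/
theorem val_rel {α β : Type} {A : Alg α} {B : Alg β} {R : α → β → Prop} (h : RelAlg A B R)
    (Q : Prg) (k : ℕ) : R (Q.val A k) (Q.val B k) := by
  unfold Prg.val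
  rw [get2_eq, get2_eq, Q.h A, Q.h B]
  unfold outs
  have hrun := Ops_run h Q.P [] [] (fun _ => h.dflt)
  generalize run A Q.P [] = LA at hrun ⊢
  generalize run B Q.P [] = LB at hrun ⊢
  generalize Q.o = o
  induction o generalizing k with
  | nil => exact h.dflt
  | cons j o ih =>
    cases k with
    | zero => exact hrun j
    | succ k => exact ih k

end Pool.H47.K3
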