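import Pool.Agent.H47.K3.Ev

/-! # Poly: a program computes a polynomial

The programs are interpreted in pairs `(p, e)` with `p : MvPolynomial (Fin 3) ℤ` and the exponent
`e`; this interpretation is related by `val_rel` to the other ones. -/

set_option autoImplicit false

namespace Pool.H47.K3

open Pool.H47.Kc Finset

/-- numerators and exponents -/
private abbrev Poly_T : Type := MvPolynomial (Fin 3) ℤ × ℕ

private noncomputable def Poly_alg (q : ℕ → Poly_T) (x y : Poly_T) : Alg Poly_T where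
  cst z e := (MvPolynomial.C z, e)
  base := q
  x := x
  y := y
  add a b := (a.1 * 2 ^ (b.2 - a.2) + b.1 * 2 ^ (a.2 - b.2), a.2 + (b.2 - a.2))
  sub a b := (a.1 * 2 ^ (b.2 - a.2) - b.1 * 2 ^ (a.2 - b.2), a.2 + (b.2 - a.2))
  mul a b := (a.1 * b.1, a.2 + b.2)
  dflt := (0, 0)

private noncomputable def Poly_A (Z : Z3) (S : ℕ → Sym) : Alg Poly_T :=
  Poly_alg (fun i => horner (Poly_alg (fun _ => (0, 0)) (0, 0) (0, 0))
      (MvPolynomial.C (Z.tc : ℤ) + MvPolynomial.X 0, Z.eT) (S i).p)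
    (MvPolynomial.C (Z.xc : ℤ) + MvPolynomial.X 1, Z.eX)
    (MvPolynomial.C (Z.yc : ℤ) + MvPolynomial.X 2, Z.eY)

/-- evaluation -/
private noncomputable def Poly_ev (R : Type) [CommRing R] (T X Y : R) :
    MvPolynomial (Fin 3) ℤ →+* R :=
  MvPolynomial.eval₂Hom (Int.castRingHom R) ![T, X, Y]

private theorem Poly_ev_C {R : Type} [CommRing R] (T X Y : R) (z : ℤ) :
    Poly_ev R T X Y (MvPolynomial.C z) = z := by
  simp [Poly_ev]

private theorem Poly_ev_X0 {R : Type} [CommRing R] (T X Y : R) :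
    Poly_ev R T X Y (MvPolynomial.X 0) = T := by
  simp [Poly_ev]

private theorem Poly_ev_X1 {R : Type} [CommRing R] (T X Y : R) :
    Poly_ev R T X Y (MvPolynomial.X 1) = X := by
  simp [Poly_ev]

private theorem Poly_ev_X2 {R : Type} [CommRing R] (T X Y : R) :
    Poly_ev R T X Y (MvPolynomial.X 2) = Y := by
  simp [Poly_ev]

/-! ### integers -/

private def Poly_R1 (T X Y : ℤ) (a : Poly_T) (b : Fx) : Prop :=
  b.n = Poly_ev ℤ T X Y a.1 ∧ b.e = a.2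

private theorem Poly_R1_alg (T X Y : ℤ) (q : ℕ → Poly_T) (x y : Poly_T) (q' : ℕ → Fx)
    (x' y' : Fx) (hq : ∀ i, Poly_R1 T X Y (q i) (q' i)) (hx : Poly_R1 T X Y x x')
    (hy : Poly_R1 T X Y y y') :
    RelAlg (Poly_alg q x y) (fxAlg2 q' x' y') (Poly_R1 T X Y) where
  cst z e := ⟨by simp [Poly_alg, fxAlg2], rfl⟩
  base := hq
  x := hx
  y := hy
  add a b a' b' ha hb := by
    obtain ⟨ha1, ha2⟩ := ha
    obtain ⟨hb1, hb2⟩ := hb
    show Poly_R1 T X Y _ (Fx.add2 a' b')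
    rw [add2_eq]
    refine ⟨?_, ?_⟩
    · show a'.n * (2 : ℤ) ^ (b'.e - a'.e) + b'.n * (2 : ℤ) ^ (a'.e - b'.e) =
        Poly_ev ℤ T X Y (a.1 * 2 ^ (b.2 - a.2) + b.1 * 2 ^ (a.2 - b.2))
      rw [ha1, ha2, hb1, hb2, map_add, map_mul, map_mul, map_pow, map_pow, map_ofNat]
    · show a'.e + (b'.e - a'.e) = a.2 + (b.2 - a.2)
      rw [ha2, hb2]
  sub a b a' b' ha hb := by
    obtain ⟨ha1, ha2⟩ := ha
    obtain ⟨hb1, hb2⟩ := hb
    show Poly_R1 T X Y _ (Fx.sub2 a' b')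
    rw [sub2_eq]
    refine ⟨?_, ?_⟩
    · show a'.n * (2 : ℤ) ^ (b'.e - a'.e) - b'.n * (2 : ℤ) ^ (a'.e - b'.e) =
        Poly_ev ℤ T X Y (a.1 * 2 ^ (b.2 - a.2) - b.1 * 2 ^ (a.2 - b.2))
      rw [ha1, ha2, hb1, hb2, map_sub, map_mul, map_mul, map_pow, map_pow, map_ofNat]
    · show a'.e + (b'.e - a'.e) = a.2 + (b.2 - a.2)
      rw [ha2, hb2]
  mul a b a' b' ha hb := by
    obtain ⟨ha1, ha2⟩ := ha
    obtain ⟨hb1, hb2⟩ := hb
    show Poly_R1 T X Y _ (Fx.mul2 a' b')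
    rw [mul2_eq]
    refine ⟨?_, ?_⟩
    · show a'.n * b'.n = Poly_ev ℤ T X Y (a.1 * b.1)
      rw [ha1, hb1, map_mul]
    · show a'.e + b'.e = a.2 + b.2
      rw [ha2, hb2]
  dflt := ⟨by simp [Poly_alg, fxAlg2], rfl⟩

private theorem Poly_R1_zero (T X Y : ℤ) : Poly_R1 T X Y (0, 0) ⟨0, 0⟩ :=
  ⟨by simp, rfl⟩

private theorem Poly_R1_A (Z : Z3) (S : ℕ → Sym) (T X Y : ℤ) :
    RelAlg (Poly_A Z S) (Z.fx S T X Y) (Poly_R1 T X Y) := by
  have h0 := Poly_R1_alg T X Y (fun _ => (0, 0)) (0, 0) (0, 0) (fun _ => ⟨0, 0⟩) ⟨0, 0⟩ ⟨0, 0⟩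
    (fun _ => Poly_R1_zero T X Y) (Poly_R1_zero T X Y) (Poly_R1_zero T X Y)
  refine Poly_R1_alg T X Y _ _ _ _ _ _ (fun i => ?_) ?_ ?_
  · show Poly_R1 T X Y _ (horner2 _ _ _)
    rw [horner2_eq]
    refine horner_rel h0.cst h0.add h0.mul _ _ ?_ _
    refine ⟨?_, rfl⟩
    show iadd (Int.ofNat Z.tc) T = _
    rw [iadd_eq, map_add, Poly_ev_C, Poly_ev_X0]
    simp
  · refine ⟨?_, rfl⟩
    show iadd (Int.ofNat Z.xc) X = _
    rw [iadd_eq, map_add, Poly_ev_C, Poly_ev_X1]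
    simp
  · refine ⟨?_, rfl⟩
    show iadd (Int.ofNat Z.yc) Y = _
    rw [iadd_eq, map_add, Poly_ev_C, Poly_ev_X2]
    simp

/-! ### reals -/

private def Poly_R2 (T X Y : ℝ) (a : Poly_T) (r : ℝ) : Prop :=
  r * 2 ^ a.2 = Poly_ev ℝ T X Y a.1

private theorem Poly_pow (m n : ℕ) : (2 : ℝ) ^ (m + (n - m)) = 2 ^ n * 2 ^ (m - n) := by
  rw [← pow_add]
  congr 1
  omega

private theorem Poly_R2_alg (T X Y : ℝ) (q : ℕ → Poly_T) (x y : Poly_T) (q' : ℕ → ℝ)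
    (x' y' : ℝ) (hq : ∀ i, Poly_R2 T X Y (q i) (q' i)) (hx : Poly_R2 T X Y x x')
    (hy : Poly_R2 T X Y y y') :
    RelAlg (Poly_alg q x y) (realAlg q' x' y') (Poly_R2 T X Y) where
  cst z e := by
    show (z : ℝ) / 2 ^ e * 2 ^ e = Poly_ev ℝ T X Y (MvPolynomial.C z)
    rw [Poly_ev_C]
    exact div_mul_cancel₀ _ (by positivity)
  base := hq
  x := hx
  y := hy
  add a b r s ha hb := by
    unfold Poly_R2 at ha hb ⊢
    show (r + s) * 2 ^ (a.2 + (b.2 - a.2)) =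
      Poly_ev ℝ T X Y (a.1 * 2 ^ (b.2 - a.2) + b.1 * 2 ^ (a.2 - b.2))
    rw [map_add, map_mul, map_mul, map_pow, map_pow, ← ha, ← hb, map_ofNat, add_mul]
    nth_rewrite 1 [pow_add]
    rw [Poly_pow]
    ring
  sub a b r s ha hb := by
    unfold Poly_R2 at ha hb ⊢
    show (r - s) * 2 ^ (a.2 + (b.2 - a.2)) =
      Poly_ev ℝ T X Y (a.1 * 2 ^ (b.2 - a.2) - b.1 * 2 ^ (a.2 - b.2))
    rw [map_sub, map_mul, map_mul, map_pow, map_pow, ← ha, ← hb, map_ofNat, sub_mul]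
    nth_rewrite 1 [pow_add]
    rw [Poly_pow]
    ring
  mul a b r s ha hb := by
    unfold Poly_R2 at ha hb ⊢
    show (r * s) * 2 ^ (a.2 + b.2) = Poly_ev ℝ T X Y (a.1 * b.1)
    rw [map_mul, ← ha, ← hb, pow_add]
    ring
  dflt := by
    show (0 : ℝ) * 2 ^ 0 = Poly_ev ℝ T X Y 0
    simp

private theorem Poly_horner_real (β : ℕ → ℝ) (x y t : ℝ) (l : List Fx) :
    horner (realAlg β x y) t l = pval l t := by
  induction l with
  | nil => simp [horner, realAlg, pval]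
  | cons a l ih =>
    have h1 : horner (realAlg β x y) t (a :: l) =
        a.val + t * horner (realAlg β x y) t l := rfl
    rw [h1, ih]
    rfl

private theorem Poly_R2_A (Z : Z3) (S : ℕ → Sym) (T X Y : ℝ) :
    RelAlg (Poly_A Z S) (realAlg (nomF S (((Z.tc : ℝ) + T) / 2 ^ Z.eT))
      (((Z.xc : ℝ) + X) / 2 ^ Z.eX) (((Z.yc : ℝ) + Y) / 2 ^ Z.eY)) (Poly_R2 T X Y) := by
  have hz : Poly_R2 T X Y (0, 0) 0 := by
    show (0 : ℝ) * 2 ^ 0 = Poly_ev ℝ T X Y 0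
    simp
  have h0 := Poly_R2_alg T X Y (fun _ => (0, 0)) (0, 0) (0, 0) (fun _ => 0) 0 0
    (fun _ => hz) hz hz
  refine Poly_R2_alg T X Y _ _ _ _ _ _ (fun i => ?_) ?_ ?_
  · show Poly_R2 T X Y _ (pval (S i).p _)
    rw [← Poly_horner_real (fun _ => 0) 0 0]
    refine horner_rel h0.cst h0.add h0.mul _ _ ?_ _
    show ((Z.tc : ℝ) + T) / 2 ^ Z.eT * 2 ^ Z.eT = _
    rw [map_add, Poly_ev_C, Poly_ev_X0, div_mul_cancel₀ _ (by positivity)]
    simp
  · show ((Z.xc : ℝ) + X) / 2 ^ Z.eX * 2 ^ Z.eX = _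
    rw [map_add, Poly_ev_C, Poly_ev_X1, div_mul_cancel₀ _ (by positivity)]
    simp
  · show ((Z.yc : ℝ) + Y) / 2 ^ Z.eY * 2 ^ Z.eY = _
    rw [map_add, Poly_ev_C, Poly_ev_X2, div_mul_cancel₀ _ (by positivity)]
    simp

/-! ### absolute values -/

/-- majorants of the coefficients -/
private def Poly_maj (p : MvPolynomial (Fin 3) ℤ) (q : MvPolynomial (Fin 3) ℕ) : Prop :=
  ∀ d, (MvPolynomial.coeff d p).natAbs ≤ MvPolynomial.coeff d q

private theorem Poly_maj_add {p p' : MvPolynomial (Fin 3) ℤ} {q q' : MvPolynomial (Fin 3) ℕ}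
    (h : Poly_maj p q) (h' : Poly_maj p' q') : Poly_maj (p + p') (q + q') := by
  intro d
  rw [MvPolynomial.coeff_add, MvPolynomial.coeff_add]
  exact (Int.natAbs_add_le _ _).trans (add_le_add (h d) (h' d))

private theorem Poly_maj_sub {p p' : MvPolynomial (Fin 3) ℤ} {q q' : MvPolynomial (Fin 3) ℕ}
    (h : Poly_maj p q) (h' : Poly_maj p' q') : Poly_maj (p - p') (q + q') := by
  intro d
  rw [MvPolynomial.coeff_sub, MvPolynomial.coeff_add]
  exact (Int.natAbs_sub_le _ _).trans (add_le_add (h d) (h' d))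

private theorem Poly_natAbs_sum {ι : Type} (s : Finset ι) (f : ι → ℤ) :
    (∑ i ∈ s, f i).natAbs ≤ ∑ i ∈ s, (f i).natAbs := by
  classical
  induction s using Finset.induction_on with
  | empty => simp
  | insert a s ha ih =>
    rw [Finset.sum_insert ha, Finset.sum_insert ha]
    exact (Int.natAbs_add_le _ _).trans (Nat.add_le_add_left ih _)

private theorem Poly_maj_mul {p p' : MvPolynomial (Fin 3) ℤ} {q q' : MvPolynomial (Fin 3) ℕ}
    (h : Poly_maj p q) (h' : Poly_maj p' q') : Poly_maj (p * p') (q * q') := by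
  intro d
  rw [MvPolynomial.coeff_mul, MvPolynomial.coeff_mul]
  refine (Poly_natAbs_sum _ _).trans (Finset.sum_le_sum fun i _ => ?_)
  rw [Int.natAbs_mul]
  exact Nat.mul_le_mul (h _) (h' _)

private theorem Poly_maj_C (z : ℤ) : Poly_maj (MvPolynomial.C z) (MvPolynomial.C z.natAbs) := by
  intro d
  rw [MvPolynomial.coeff_C, MvPolynomial.coeff_C]
  split_ifs <;> simp

private theorem Poly_maj_X (i : Fin 3) : Poly_maj (MvPolynomial.X i) (MvPolynomial.X i) := by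
  intro d
  rw [MvPolynomial.coeff_X, MvPolynomial.coeff_X]
  split_ifs <;> simp

private theorem Poly_maj_pow (k : ℕ) : Poly_maj (2 ^ k) (2 ^ k) := by
  have h1 : (2 ^ k : MvPolynomial (Fin 3) ℤ) = MvPolynomial.C (2 ^ k) := by
    rw [map_pow]
    simp
  have h2 : (2 ^ k : MvPolynomial (Fin 3) ℕ) = MvPolynomial.C (2 ^ k) := by
    rw [map_pow]
    simp
  have h3 : ((2 : ℤ) ^ k).natAbs = 2 ^ k := by
    rw [Int.natAbs_pow]
    rfl
  have h4 := Poly_maj_C ((2 : ℤ) ^ k)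
  rw [h3] at h4
  rw [h1, h2]
  exact h4

private def Poly_R3 (w : Fin 3 → ℕ) (a : Poly_T) (b : Mj) : Prop :=
  b.e = a.2 ∧ ∃ q : MvPolynomial (Fin 3) ℕ, Poly_maj a.1 q ∧ MvPolynomial.eval w q ≤ b.n

private theorem Poly_R3_add (w : Fin 3 → ℕ) (p p' : MvPolynomial (Fin 3) ℤ) (k k' : ℕ)
    (q q' : MvPolynomial (Fin 3) ℕ) (n n' : ℕ) (h : Poly_maj p q) (h' : Poly_maj p' q')
    (hn : MvPolynomial.eval w q ≤ n) (hn' : MvPolynomial.eval w q' ≤ n') :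
    Poly_maj (p * 2 ^ k + p' * 2 ^ k') (q * 2 ^ k + q' * 2 ^ k') ∧
    Poly_maj (p * 2 ^ k - p' * 2 ^ k') (q * 2 ^ k + q' * 2 ^ k') ∧
    MvPolynomial.eval w (q * 2 ^ k + q' * 2 ^ k') ≤ n * 2 ^ k + n' * 2 ^ k' := by
  refine ⟨Poly_maj_add (Poly_maj_mul h (Poly_maj_pow k)) (Poly_maj_mul h' (Poly_maj_pow k')),
    Poly_maj_sub (Poly_maj_mul h (Poly_maj_pow k)) (Poly_maj_mul h' (Poly_maj_pow k')), ?_⟩
  rw [map_add, map_mul, map_mul, map_pow, map_pow, map_ofNat]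
  exact add_le_add (Nat.mul_le_mul_right _ hn) (Nat.mul_le_mul_right _ hn')

private theorem Poly_R3_alg (w : Fin 3 → ℕ) (q : ℕ → Poly_T) (x y : Poly_T) (q' : ℕ → Mj)
    (x' y' : Mj) (hq : ∀ i, Poly_R3 w (q i) (q' i)) (hx : Poly_R3 w x x')
    (hy : Poly_R3 w y y') :
    RelAlg (Poly_alg q x y) (mjAlg2 q' x' y') (Poly_R3 w) where
  cst z e := by
    refine ⟨rfl, MvPolynomial.C z.natAbs, Poly_maj_C z, ?_⟩
    show _ ≤ iabs z
    rw [iabs_eq, MvPolynomial.eval_C]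
  base := hq
  x := hx
  y := hy
  add a b a' b' ha hb := by
    obtain ⟨ha1, qa, ha2, ha3⟩ := ha
    obtain ⟨hb1, qb, hb2, hb3⟩ := hb
    obtain ⟨h1, _, h3⟩ := Poly_R3_add w a.1 b.1 (b.2 - a.2) (a.2 - b.2) qa qb a'.n b'.n
      ha2 hb2 ha3 hb3
    refine ⟨?_, _, h1, ?_⟩
    · show a'.e + (b'.e - a'.e) = a.2 + (b.2 - a.2)
      rw [ha1, hb1]
    · show _ ≤ a'.n * 2 ^ (b'.e - a'.e) + b'.n * 2 ^ (a'.e - b'.e)
      rw [ha1, hb1]
      exact h3
  sub a b a' b' ha hb := by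
    obtain ⟨ha1, qa, ha2, ha3⟩ := ha
    obtain ⟨hb1, qb, hb2, hb3⟩ := hb
    obtain ⟨_, h1, h3⟩ := Poly_R3_add w a.1 b.1 (b.2 - a.2) (a.2 - b.2) qa qb a'.n b'.n
      ha2 hb2 ha3 hb3
    refine ⟨?_, _, h1, ?_⟩
    · show a'.e + (b'.e - a'.e) = a.2 + (b.2 - a.2)
      rw [ha1, hb1]
    · show _ ≤ a'.n * 2 ^ (b'.e - a'.e) + b'.n * 2 ^ (a'.e - b'.e)
      rw [ha1, hb1]
      exact h3
  mul a b a' b' ha hb := by
    obtain ⟨ha1, qa, ha2, ha3⟩ := ha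
    obtain ⟨hb1, qb, hb2, hb3⟩ := hb
    refine ⟨?_, qa * qb, Poly_maj_mul ha2 hb2, ?_⟩
    · show a'.e + b'.e = a.2 + b.2
      rw [ha1, hb1]
    · show _ ≤ a'.n * b'.n
      rw [map_mul]
      exact Nat.mul_le_mul ha3 hb3
  dflt := ⟨rfl, 0, fun d => by simp [Poly_alg], by simp [mjAlg2]⟩

private theorem Poly_R3_lin (w : Fin 3 → ℕ) (c : ℕ) (i : Fin 3) (n e : ℕ) (h : c + w i ≤ n) :
    Poly_R3 w (MvPolynomial.C (c : ℤ) + MvPolynomial.X i, e) ⟨n, e⟩ := by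
  refine ⟨rfl, MvPolynomial.C (c : ℤ).natAbs + MvPolynomial.X i,
    Poly_maj_add (Poly_maj_C _) (Poly_maj_X i), ?_⟩
  rw [map_add, MvPolynomial.eval_C, MvPolynomial.eval_X, Int.natAbs_natCast]
  exact h

private theorem Poly_R3_A (Z : Z3) (S : ℕ → Sym) :
    RelAlg (Poly_A Z S) (Z.mj S) (Poly_R3
      ![max (Z.st * Z.nT) 1, max (Z.sx * Z.nX) 1, max (Z.sy * Z.nY) 1]) := by
  have hz : ∀ w, Poly_R3 w (0, 0) ⟨0, 0⟩ := fun w => ⟨rfl, 0, fun d => by simp, by simp⟩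
  have h0 := Poly_R3_alg ![max (Z.st * Z.nT) 1, max (Z.sx * Z.nX) 1, max (Z.sy * Z.nY) 1]
    (fun _ => (0, 0)) (0, 0) (0, 0) (fun _ => ⟨0, 0⟩) ⟨0, 0⟩ ⟨0, 0⟩
    (fun _ => hz _) (hz _) (hz _)
  refine Poly_R3_alg _ _ _ _ _ _ _ (fun i => ?_) ?_ ?_
  · show Poly_R3 _ _ (horner2 _ _ _)
    rw [horner2_eq]
    refine horner_rel h0.cst h0.add h0.mul _ _ ?_ _
    refine Poly_R3_lin _ _ _ _ _ ?_
    show _ ≤ Z.tc + mx (Z.st * Z.nT) 1
    rw [mx_eq]
    simp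
  · refine Poly_R3_lin _ _ _ _ _ ?_
    show _ ≤ Z.xc + mx (Z.sx * Z.nX) 1
    rw [mx_eq]
    simp
  · refine Poly_R3_lin _ _ _ _ _ ?_
    show _ ≤ Z.yc + mx (Z.sy * Z.nY) 1
    rw [mx_eq]
    simp

/-! ### degrees -/

private def Poly_le (p : MvPolynomial (Fin 3) ℤ) (d : Dg) : Prop :=
  p.degreeOf 0 ≤ d.t ∧ p.degreeOf 1 ≤ d.x ∧ p.degreeOf 2 ≤ d.y

private def Poly_R4 (a : Poly_T) (d : Dg) : Prop := Poly_le a.1 d

private theorem Poly_deg_pow (i : Fin 3) (p : MvPolynomial (Fin 3) ℤ) (k : ℕ) :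
    (p * 2 ^ k).degreeOf i ≤ p.degreeOf i := by
  have h1 : (2 ^ k : MvPolynomial (Fin 3) ℤ) = MvPolynomial.C (2 ^ k) := by
    rw [map_pow]
    simp
  rw [h1, mul_comm]
  exact MvPolynomial.degreeOf_C_mul_le p i _

private theorem Poly_le_add (p p' : MvPolynomial (Fin 3) ℤ) (k k' : ℕ) (d d' : Dg)
    (h : Poly_le p d) (h' : Poly_le p' d') :
    Poly_le (p * 2 ^ k + p' * 2 ^ k') (Dg.sup d d') := by
  unfold Dg.sup Poly_le
  simp only [mx_eq]
  obtain ⟨h1, h2, h3⟩ := h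
  obtain ⟨h1', h2', h3'⟩ := h'
  refine ⟨(MvPolynomial.degreeOf_add_le _ _ _).trans (max_le_max ?_ ?_),
    (MvPolynomial.degreeOf_add_le _ _ _).trans (max_le_max ?_ ?_),
    (MvPolynomial.degreeOf_add_le _ _ _).trans (max_le_max ?_ ?_)⟩
  · exact (Poly_deg_pow _ _ _).trans h1
  · exact (Poly_deg_pow _ _ _).trans h1'
  · exact (Poly_deg_pow _ _ _).trans h2
  · exact (Poly_deg_pow _ _ _).trans h2'
  · exact (Poly_deg_pow _ _ _).trans h3
  · exact (Poly_deg_pow _ _ _).trans h3'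

private theorem Poly_le_neg (p : MvPolynomial (Fin 3) ℤ) (d : Dg) (h : Poly_le p d) :
    Poly_le (-p) d := by
  have h1 : -p = MvPolynomial.C (-1) * p := by simp
  rw [h1]
  exact ⟨(MvPolynomial.degreeOf_C_mul_le _ _ _).trans h.1,
    (MvPolynomial.degreeOf_C_mul_le _ _ _).trans h.2.1,
    (MvPolynomial.degreeOf_C_mul_le _ _ _).trans h.2.2⟩

private theorem Poly_le_C (z : ℤ) (d : Dg) : Poly_le (MvPolynomial.C z) d := by
  refine ⟨?_, ?_, ?_⟩ <;> rw [MvPolynomial.degreeOf_C] <;> exact Nat.zero_le _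

private theorem Poly_R4_alg (S : ℕ → Sym) (q : ℕ → Poly_T) (x y : Poly_T)
    (hq : ∀ i, Poly_R4 (q i) ⟨len1 (S i).p, 0, 0⟩) (hx : Poly_R4 x ⟨0, 1, 0⟩)
    (hy : Poly_R4 y ⟨0, 0, 1⟩) :
    RelAlg (Poly_alg q x y) (dgAlg S) Poly_R4 where
  cst z e := Poly_le_C z _
  base := hq
  x := hx
  y := hy
  add a b a' b' ha hb := Poly_le_add a.1 b.1 (b.2 - a.2) (a.2 - b.2) a' b' ha hb
  sub a b a' b' ha hb := by
    have h1 := Poly_le_add a.1 (-b.1) (b.2 - a.2) (a.2 - b.2) a' b' ha (Poly_le_neg _ _ hb)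
    rw [neg_mul, ← sub_eq_add_neg] at h1
    exact h1
  mul a b a' b' ha hb := by
    refine ⟨(MvPolynomial.degreeOf_mul_le _ _ _).trans (add_le_add ha.1 hb.1),
      (MvPolynomial.degreeOf_mul_le _ _ _).trans (add_le_add ha.2.1 hb.2.1),
      (MvPolynomial.degreeOf_mul_le _ _ _).trans (add_le_add ha.2.2 hb.2.2)⟩
  dflt := by
    show Poly_le (0 : MvPolynomial (Fin 3) ℤ) _
    rw [← map_zero (MvPolynomial.C : ℤ →+* MvPolynomial (Fin 3) ℤ)]
    exact Poly_le_C 0 _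

private theorem Poly_len1_cons (a : Fx) (l : List Fx) : len1 (a :: l) = l.length := by
  have h : ∀ m : List Fx, (List.rec (motive := fun _ => Nat) 0 (fun _ _ ih => Nat.succ ih) m) =
      m.length := by
    intro m
    induction m with
    | nil => rfl
    | cons b m ih =>
      show Nat.succ _ = _
      rw [ih]
      rfl
  exact congrArg (fun n => Nat.sub n 1) (h (a :: l))

private theorem Poly_horner_deg (A : Alg Poly_T)
    (hc : ∀ z e, A.cst z e = (MvPolynomial.C z, e))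
    (ha : ∀ a b : Poly_T, A.add a b =
      (a.1 * 2 ^ (b.2 - a.2) + b.1 * 2 ^ (a.2 - b.2), a.2 + (b.2 - a.2)))
    (hm : ∀ a b : Poly_T, A.mul a b = (a.1 * b.1, a.2 + b.2))
    (t : Poly_T) (ht : Poly_le t.1 ⟨1, 0, 0⟩) (l : List Fx) :
    Poly_le (horner A t l).1 ⟨l.length, 0, 0⟩ ∧ Poly_le (horner A t l).1 ⟨len1 l, 0, 0⟩ := by
  induction l with
  | nil =>
    show Poly_le (A.cst 0 0).1 _ ∧ Poly_le (A.cst 0 0).1 _
    rw [hc]
    exact ⟨Poly_le_C 0 _, Poly_le_C 0 _⟩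
  | cons a l ih =>
    rw [Poly_len1_cons]
    show Poly_le (A.add (A.cst a.n a.e) (A.mul t (horner A t l))).1 _ ∧
      Poly_le (A.add (A.cst a.n a.e) (A.mul t (horner A t l))).1 _
    have h2 : Poly_le (A.add (A.cst a.n a.e) (A.mul t (horner A t l))).1 ⟨l.length, 0, 0⟩ := by
      rw [ha, hc, hm]
      cases l with
      | nil =>
        have h3 : (horner A t []).1 = 0 := by
          show (A.cst 0 0).1 = 0
          rw [hc]
          simp
        show Poly_le (MvPolynomial.C a.n * 2 ^ _ + t.1 * (horner A t []).1 * 2 ^ _) _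
        rw [h3, mul_zero]
        have h4 := Poly_le_add (MvPolynomial.C a.n) 0 (t.2 + (horner A t []).2 - a.e)
          (a.e - (t.2 + (horner A t []).2)) ⟨0, 0, 0⟩ ⟨0, 0, 0⟩ (Poly_le_C _ _) (by
            rw [← map_zero (MvPolynomial.C : ℤ →+* MvPolynomial (Fin 3) ℤ)]
            exact Poly_le_C 0 _)
        exact h4
      | cons b l =>
        have h5 := ih.2
        rw [Poly_len1_cons] at h5
        have h6 : Poly_le (t.1 * (horner A t (b :: l)).1) ⟨l.length + 1, 0, 0⟩ := by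
          refine ⟨(MvPolynomial.degreeOf_mul_le _ _ _).trans ?_,
            (MvPolynomial.degreeOf_mul_le _ _ _).trans (add_le_add ht.2.1 h5.2.1),
            (MvPolynomial.degreeOf_mul_le _ _ _).trans (add_le_add ht.2.2 h5.2.2)⟩
          have h7 := add_le_add ht.1 h5.1
          rw [add_comm 1] at h7
          exact h7
        have h4 := Poly_le_add (MvPolynomial.C a.n) (t.1 * (horner A t (b :: l)).1)
          (t.2 + (horner A t (b :: l)).2 - a.e)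
          (a.e - (t.2 + (horner A t (b :: l)).2)) ⟨0, 0, 0⟩ ⟨l.length + 1, 0, 0⟩
          (Poly_le_C _ _) h6
        unfold Dg.sup at h4
        simp only [mx_eq] at h4
        simpa using h4
    exact ⟨⟨h2.1.trans (Nat.le_succ _), h2.2.1, h2.2.2⟩, h2⟩

private theorem Poly_deg_lin (c : ℕ) (i j : Fin 3) :
    (MvPolynomial.C (c : ℤ) + MvPolynomial.X i : MvPolynomial (Fin 3) ℤ).degreeOf j ≤
      if j = i then 1 else 0 := by
  refine (MvPolynomial.degreeOf_add_le _ _ _).trans ?_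
  rw [MvPolynomial.degreeOf_C, MvPolynomial.degreeOf_X]
  split_ifs <;> simp

private theorem Poly_R4_A (Z : Z3) (S : ℕ → Sym) :
    RelAlg (Poly_A Z S) (dgAlg S) Poly_R4 := by
  refine Poly_R4_alg S _ _ _ (fun i => ?_) ?_ ?_
  · refine (Poly_horner_deg _ (fun _ _ => rfl) (fun _ _ => rfl) (fun _ _ => rfl) _ ?_ _).2
    refine ⟨?_, ?_, ?_⟩
    · exact (Poly_deg_lin Z.tc 0 0).trans (by simp)
    · exact (Poly_deg_lin Z.tc 0 1).trans (by simp)
    · exact (Poly_deg_lin Z.tc 0 2).trans (by simp)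
  · refine ⟨?_, ?_, ?_⟩
    · exact (Poly_deg_lin Z.xc 1 0).trans (by simp)
    · exact (Poly_deg_lin Z.xc 1 1).trans (by simp)
    · exact (Poly_deg_lin Z.xc 1 2).trans (by simp)
  · refine ⟨?_, ?_, ?_⟩
    · exact (Poly_deg_lin Z.yc 2 0).trans (by simp)
    · exact (Poly_deg_lin Z.yc 2 1).trans (by simp)
    · exact (Poly_deg_lin Z.yc 2 2).trans (by simp)

/-! ### the coefficients -/

/-- the monomial with exponents `i, j, k` -/
private noncomputable def Poly_tri (i j k : ℕ) : Fin 3 →₀ ℕ :=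
  Finsupp.equivFunOnFinite.symm ![i, j, k]

private theorem Poly_tri0 (i j k : ℕ) : Poly_tri i j k 0 = i := rfl
private theorem Poly_tri1 (i j k : ℕ) : Poly_tri i j k 1 = j := rfl
private theorem Poly_tri2 (i j k : ℕ) : Poly_tri i j k 2 = k := rfl

private theorem Poly_tri_eta (d : Fin 3 →₀ ℕ) : Poly_tri (d 0) (d 1) (d 2) = d := by
  ext i
  fin_cases i
  · rfl
  · rfl
  · rfl

private noncomputable def Poly_box (a b c : ℕ) : Finset (Fin 3 →₀ ℕ) := by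
  classical
  exact (range a ×ˢ (range b ×ˢ range c)).image (fun p => Poly_tri p.1 p.2.1 p.2.2)

private theorem Poly_box_sum {M : Type} [AddCommMonoid M] (F : (Fin 3 →₀ ℕ) → M) (a b c : ℕ) :
    ∑ d ∈ Poly_box a b c, F d =
      ∑ i ∈ range a, ∑ j ∈ range b, ∑ k ∈ range c, F (Poly_tri i j k) := by
  classical
  unfold Poly_box
  rw [Finset.sum_image, Finset.sum_product]
  · refine Finset.sum_congr rfl fun i _ => ?_
    rw [Finset.sum_product]
  · rintro ⟨i, j, k⟩ _ ⟨i', j', k'⟩ _ h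
    have h0 := DFunLike.congr_fun h 0
    have h1 := DFunLike.congr_fun h 1
    have h2 := DFunLike.congr_fun h 2
    simp only [Poly_tri0, Poly_tri1, Poly_tri2] at h0 h1 h2
    rw [h0, h1, h2]

private theorem Poly_mem_box (a b c : ℕ) (d : Fin 3 →₀ ℕ) :
    d 0 < a → d 1 < b → d 2 < c → d ∈ Poly_box a b c := by
  classical
  intro h0 h1 h2
  unfold Poly_box
  rw [Finset.mem_image]
  exact ⟨(d 0, d 1, d 2), by simp [h0, h1, h2], Poly_tri_eta d⟩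

private theorem Poly_ev_eq {R : Type} [CommRing R] (p : MvPolynomial (Fin 3) ℤ) (g : Dg)
    (hg : Poly_le p g) (T X Y : R) :
    Poly_ev R T X Y p = ev g (fun i j k => MvPolynomial.coeff (Poly_tri i j k) p) T X Y := by
  unfold ev
  have h1 := Poly_box_sum (fun d => ((MvPolynomial.coeff d p : ℤ) : R) * T ^ (d 0) * X ^ (d 1) *
    Y ^ (d 2)) (g.t + 1) (g.x + 1) (g.y + 1)
  simp only [Poly_tri0, Poly_tri1, Poly_tri2] at h1
  rw [← h1]
  have h2 : Poly_ev R T X Y p = ∑ d ∈ p.support,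
      ((MvPolynomial.coeff d p : ℤ) : R) * T ^ (d 0) * X ^ (d 1) * Y ^ (d 2) := by
    unfold Poly_ev
    rw [MvPolynomial.coe_eval₂Hom, MvPolynomial.eval₂_eq']
    refine Finset.sum_congr rfl fun d _ => ?_
    rw [Fin.prod_univ_three]
    simp [mul_assoc]
  rw [h2]
  refine Finset.sum_subset ?_ ?_
  · intro d hd
    refine Poly_mem_box _ _ _ _ ?_ ?_ ?_
    · exact Nat.lt_succ_of_le ((MvPolynomial.monomial_le_degreeOf 0 hd).trans hg.1)
    · exact Nat.lt_succ_of_le ((MvPolynomial.monomial_le_degreeOf 1 hd).trans hg.2.1)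
    · exact Nat.lt_succ_of_le ((MvPolynomial.monomial_le_degreeOf 2 hd).trans hg.2.2)
  · intro d _ hd
    rw [MvPolynomial.notMem_support_iff] at hd
    rw [hd]
    simp

private theorem Poly_wt_le (p : MvPolynomial (Fin 3) ℤ) (q : MvPolynomial (Fin 3) ℕ)
    (h : Poly_maj p q) (g : Dg) (T X Y : ℕ) :
    wt g (fun i j k => MvPolynomial.coeff (Poly_tri i j k) p) w1 T X Y ≤
      MvPolynomial.eval ![T, X, Y] q := by
  unfold wt w1
  have h1 := Poly_box_sum (fun d => 1 * (MvPolynomial.coeff d p).natAbs * T ^ (d 0) * X ^ (d 1) *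
    Y ^ (d 2)) (g.t + 1) (g.x + 1) (g.y + 1)
  simp only [Poly_tri0, Poly_tri1, Poly_tri2] at h1
  rw [← h1, MvPolynomial.eval_eq']
  have h2 : ∀ d : Fin 3 →₀ ℕ, MvPolynomial.coeff d q * ∏ i, ![T, X, Y] i ^ d i =
      MvPolynomial.coeff d q * T ^ (d 0) * X ^ (d 1) * Y ^ (d 2) := by
    intro d
    rw [Fin.prod_univ_three]
    simp [mul_assoc]
  simp only [h2]
  refine le_trans (Finset.sum_le_sum (g := fun d => MvPolynomial.coeff d q * T ^ (d 0) *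
    X ^ (d 1) * Y ^ (d 2)) fun d _ => ?_) (Finset.sum_le_sum_of_ne_zero fun d _ hd => ?_)
  · rw [one_mul]
    exact Nat.mul_le_mul_right _ (Nat.mul_le_mul_right _ (Nat.mul_le_mul_right _ (h d)))
  · rw [MvPolynomial.mem_support_iff]
    intro h0
    apply hd
    simp [h0]

private theorem Poly_le_mono (p : MvPolynomial (Fin 3) ℤ) (d g : Dg) (h : Poly_le p d)
    (hg : d.le g = true) : Poly_le p g := by
  unfold Dg.le at hg
  cases h1 : Nat.ble d.t g.t with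
  | false => rw [h1] at hg; cases hg
  | true =>
    rw [h1] at hg
    cases h2 : Nat.ble d.x g.x with
    | false =>
      rw [h2] at hg
      cases hg
    | true =>
      rw [h2] at hg
      have h3 : Nat.ble d.y g.y = true := hg
      exact ⟨h.1.trans (Nat.le_of_ble_eq_true h1), h.2.1.trans (Nat.le_of_ble_eq_true h2),
        h.2.2.trans (Nat.le_of_ble_eq_true h3)⟩

theorem poly (Z : Z3) (S : ℕ → Sym) (Q : Prg) (g : Dg) (k : ℕ)
    (hg : (Q.val (dgAlg S) k).le g = true) :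
    ∃ a : ℕ → ℕ → ℕ → ℤ,
      (∀ T X Y : ℤ, (Q.val (Z.fx S T X Y) k).n = ev g a T X Y ∧
        (Q.val (Z.fx S T X Y) k).e = (Q.val (Z.mj S) k).e) ∧
      (∀ T X Y : ℝ, Q.val (realAlg (nomF S (((Z.tc : ℝ) + T) / 2 ^ Z.eT))
          (((Z.xc : ℝ) + X) / 2 ^ Z.eX) (((Z.yc : ℝ) + Y) / 2 ^ Z.eY)) k *
          2 ^ (Q.val (Z.mj S) k).e = ev g a T X Y) ∧
      wt g a w1 (max (Z.st * Z.nT) 1) (max (Z.sx * Z.nX) 1) (max (Z.sy * Z.nY) 1) ≤
        (Q.val (Z.mj S) k).n := by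
  have h4 : Poly_le (Q.val (Poly_A Z S) k).1 g :=
    Poly_le_mono _ _ _ (val_rel (Poly_R4_A Z S) Q k) hg
  obtain ⟨h3e, q, h3m, h3n⟩ := val_rel (Poly_R3_A Z S) Q k
  refine ⟨fun i j l => MvPolynomial.coeff (Poly_tri i j l) (Q.val (Poly_A Z S) k).1, ?_, ?_, ?_⟩
  · intro T X Y
    obtain ⟨h1, h2⟩ := val_rel (Poly_R1_A Z S T X Y) Q k
    exact ⟨by rw [h1, Poly_ev_eq _ g h4], by rw [h2, h3e]⟩
  · intro T X Y
    have h1 : Poly_R2 T X Y _ _ := val_rel (Poly_R2_A Z S T X Y) Q k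
    unfold Poly_R2 at h1
    rw [h3e, h1, Poly_ev_eq _ g h4]
  · exact (Poly_wt_le _ q h3m g _ _ _).trans h3n

private theorem Poly_pkh (tc eT bt : ℕ) (l : List Fx) :
    pkh tc eT bt l = horner2 (fxAlg2 (fun _ => ⟨0, 0⟩) ⟨0, 0⟩ ⟨0, 0⟩)
      ⟨iadd (Int.ofNat tc) (2 ^ bt), eT⟩ l := by
  rw [horner2_eq]
  induction l with
  | nil => rfl
  | cons a l ih =>
    show Fx.add2 a ⟨hst tc bt (pkh tc eT bt l).n, Nat.add eT (pkh tc eT bt l).e⟩ =
      Fx.add2 ⟨a.n, a.e⟩ (Fx.mul2 ⟨iadd (Int.ofNat tc) (2 ^ bt), eT⟩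
        (horner (fxAlg2 (fun _ => ⟨0, 0⟩) ⟨0, 0⟩ ⟨0, 0⟩) ⟨iadd (Int.ofNat tc) (2 ^ bt), eT⟩ l))
    rw [← ih, mul2_eq, iadd_eq, hst_eq]
    unfold Fx.mul
    rw [mul_comm]
    rfl

/-- the packed evaluation is the evaluation at powers of two (`hst_eq`) -/
theorem pk_eq (Z : Z3) (S : ℕ → Sym) (g : Dg) :
    Z.pk S g = Z.fx S (2 ^ (Z.b * (g.y + 1) * (g.x + 1))) (2 ^ (Z.b * (g.y + 1))) (2 ^ Z.b) := by
  have h1 : (fun i => pkh Z.tc Z.eT (Nat.mul (Nat.mul Z.b (Nat.succ g.y)) (Nat.succ g.x))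
      (S i).p) = fun i => horner2 (fxAlg2 (fun _ => ⟨0, 0⟩) ⟨0, 0⟩ ⟨0, 0⟩)
      ⟨iadd (Int.ofNat Z.tc) (2 ^ (Z.b * (g.y + 1) * (g.x + 1))), Z.eT⟩ (S i).p := by
    funext i
    exact Poly_pkh _ _ _ _
  have h2 : ∀ c k : ℕ, Int.ofNat (Nat.add c (Nat.pow 2 k)) = iadd (Int.ofNat c) (2 ^ k) := by
    intro c k
    rw [iadd_eq]
    show ((c + 2 ^ k : ℕ) : ℤ) = (c : ℤ) + 2 ^ k
    push_cast
    rfl
  unfold Z3.pk Z3.fx
  rw [h1, h2, h2]
  rfl

end Pool.H47.K3
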